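import Mathlib

open Finset Equiv Filter Topology
open scoped InnerProductSpace Nat

namespace Pool.Agent.Results.MP_c0051b_pr.TranspositionLpCutoff

noncomputable section

/-! ### Definitions used in the statement -/

/-- One step of the random transposition walk: the probability that `(i j)` composed with `τ` is
`σ`, for `i`, `j` independent and uniform (`(i i)` is the identity). -/
def stepProb (n : ℕ) (τ σ : Perm (Fin n)) : ℝ :=
  ((univ.filter fun ij : Fin n × Fin n => swap ij.1 ij.2 * τ = σ).card : ℝ) / (n : ℝ) ^ 2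

/-- The probability that the walk started at the identity is at `σ` after `t` steps. -/
def walkLaw (n : ℕ) : ℕ → Perm (Fin n) → ℝ
  | 0 => fun σ => if σ = 1 then 1 else 0
  | t + 1 => fun σ => ∑ τ, walkLaw n t τ * stepProb n τ σ

/-- The density of the walk at time `t` with respect to the uniform distribution. -/
def density (n t : ℕ) (σ : Perm (Fin n)) : ℝ := walkLaw n t σ / (1 / (n ! : ℝ))

/-- The `ℓ^p` distance to the uniform distribution at time `t`. -/
def dp (p : ℝ) (n t : ℕ) : ℝ :=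
  (1 / (n ! : ℝ) * ∑ σ : Perm (Fin n), |density n t σ - 1| ^ p) ^ (1 / p)

/-- `ℓ^p` cutoff of the random transposition walks at the times `T n`. -/
def HasLpCutoff (p : ℝ) (T : ℕ → ℝ) : Prop :=
  Tendsto T atTop atTop ∧ ∀ ε : ℝ, 0 < ε →
    Tendsto (fun n : ℕ => dp p n ⌊(1 + ε) * T n⌋₊) atTop (𝓝 0) ∧
      0 < liminf (fun n : ℕ => ENNReal.ofReal (dp p n ⌊(1 - ε) * T n⌋₊)) atTop

end

/-! ### Development -/

namespace RT

/-! #### part Rep -/

noncomputable section

set_option linter.unusedSectionVars false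

variable {n : ℕ} {V : Type} [NormedAddCommGroup V] [InnerProductSpace ℝ V]

/-- `g` moves only points of `B` -/
def InH (B : Finset (Fin n)) (g : Perm (Fin n)) : Prop := ∀ x, x ∉ B → g x = x

instance (B : Finset (Fin n)) : DecidablePred (InH B) := fun g => by
  unfold InH; infer_instance

theorem InH.one (B : Finset (Fin n)) : InH B 1 := fun _ _ => rfl

theorem InH.mul {B : Finset (Fin n)} {g h : Perm (Fin n)} (hg : InH B g) (hh : InH B h) :
    InH B (g * h) := fun x hx => by rw [Perm.mul_apply, hh x hx, hg x hx]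

theorem InH.inv {B : Finset (Fin n)} {g : Perm (Fin n)} (hg : InH B g) : InH B g⁻¹ :=
  fun x hx => by rw [Perm.inv_eq_iff_eq, hg x hx]

theorem InH.mem {B : Finset (Fin n)} {g : Perm (Fin n)} (hg : InH B g) {x : Fin n} (hx : x ∈ B) :
    g x ∈ B := by
  by_contra h
  have h1 := hg (g x) h
  have h2 : g x = x := g.injective h1
  rw [h2] at h
  exact h hx

theorem InH.swap {B : Finset (Fin n)} {i j : Fin n} (hi : i ∈ B) (hj : j ∈ B) :
    InH B (swap i j) := fun x hx => swap_apply_of_ne_of_ne (by rintro rfl; exact hx hi)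
      (by rintro rfl; exact hx hj)

/-- the subgroup of permutations moving only points of `B`, as a finite set -/
def HB (B : Finset (Fin n)) : Finset (Perm (Fin n)) := univ.filter (InH B)

theorem mem_HB {B : Finset (Fin n)} {g : Perm (Fin n)} : g ∈ HB B ↔ InH B g := by
  simp [HB]

theorem card_HB_pos (B : Finset (Fin n)) : 0 < (HB B).card :=
  Finset.card_pos.mpr ⟨1, mem_HB.mpr (InH.one B)⟩

variable (ρ : Perm (Fin n) →* (V →ₗ[ℝ] V))

/-- `v` is fixed by all permutations moving only points of `B` -/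
def Inv (B : Finset (Fin n)) (v : V) : Prop := ∀ g, InH B g → ρ g v = v

/-- the averaging operator over the permutations moving only points of `B` -/
def eB (B : Finset (Fin n)) : V →ₗ[ℝ] V := ((HB B).card : ℝ)⁻¹ • ∑ g ∈ HB B, ρ g

theorem eB_apply (B : Finset (Fin n)) (v : V) :
    eB ρ B v = ((HB B).card : ℝ)⁻¹ • ∑ g ∈ HB B, ρ g v := by
  simp [eB, LinearMap.sum_apply]

theorem mul_apply' (g h : Perm (Fin n)) (v : V) : ρ (g * h) v = ρ g (ρ h v) := by
  rw [map_mul]; rfl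

theorem one_apply' (v : V) : ρ 1 v = v := by rw [map_one]; rfl

theorem inv_eB (B : Finset (Fin n)) (v : V) : Inv ρ B (eB ρ B v) := by
  intro g hg
  rw [eB_apply, map_smul, map_sum]
  congr 1
  refine Finset.sum_bij (fun h _ => g * h) ?_ ?_ ?_ ?_
  · intro h hh
    exact mem_HB.mpr (hg.mul (mem_HB.mp hh))
  · intro a _ b _ hab
    exact mul_left_cancel hab
  · intro h hh
    exact ⟨g⁻¹ * h, mem_HB.mpr (hg.inv.mul (mem_HB.mp hh)), by simp⟩
  · intro h _
    rw [mul_apply']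

theorem eB_of_inv {B : Finset (Fin n)} {v : V} (h : Inv ρ B v) : eB ρ B v = v := by
  rw [eB_apply, Finset.sum_congr rfl fun g hg => h g (mem_HB.mp hg), Finset.sum_const,
    ← Nat.cast_smul_eq_nsmul ℝ, smul_smul, inv_mul_cancel₀, one_smul]
  exact Nat.cast_ne_zero.mpr (card_HB_pos B).ne'

theorem eB_comp {B : Finset (Fin n)} {g : Perm (Fin n)} (hg : InH B g) (v : V) :
    eB ρ B (ρ g v) = eB ρ B v := by
  rw [eB_apply, eB_apply]
  congr 1
  refine Finset.sum_bij (fun h _ => h * g) ?_ ?_ ?_ ?_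
  · intro h hh
    exact mem_HB.mpr ((mem_HB.mp hh).mul hg)
  · intro a _ b _ hab
    exact mul_right_cancel hab
  · intro h hh
    exact ⟨h * g⁻¹, mem_HB.mpr ((mem_HB.mp hh).mul hg.inv), by simp⟩
  · intro h _
    rw [mul_apply']

/-- coset lemma -/
theorem inv_sum_swap {B : Finset (Fin n)} {v : V} (h : Inv ρ B v) (a : Fin n) (ha : a ∉ B) :
    Inv ρ (insert a B) (∑ i ∈ insert a B, ρ (swap i a) v) := by
  intro g hg
  rw [map_sum]
  refine Finset.sum_bij (fun i _ => g i) ?_ ?_ ?_ ?_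
  · intro i hi; exact hg.mem hi
  · intro i _ j _ hij; exact g.injective hij
  · intro i hi
    exact ⟨g⁻¹ i, hg.inv.mem hi, by simp⟩
  · intro i hi
    have h1 : InH B (swap (g i) a * g * swap i a) := by
      intro x hx
      by_cases hxa : x = a
      · subst hxa
        simp
      · rw [Perm.mul_apply, Perm.mul_apply]
        have hx1 : x ∉ insert a B := by
          rw [Finset.mem_insert]; push Not; exact ⟨hxa, hx⟩
        have hxi : x ≠ i := by rintro rfl; exact hx1 hi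
        rw [swap_apply_of_ne_of_ne hxi hxa, hg x hx1]
        have hgi : x ≠ g i := by
          intro hgi
          have := hg.mem hi
          rw [← hgi] at this
          exact hx1 this
        rw [swap_apply_of_ne_of_ne hgi hxa]
    have h2 := h _ h1
    have h3 : g * swap i a = swap (g i) a * (swap (g i) a * g * swap i a) := by
      rw [← mul_assoc, ← mul_assoc, swap_mul_self, one_mul]
    rw [← mul_apply', h3, mul_apply', h2]

variable {ρ}

theorem sum_swap_eq_neg {B : Finset (Fin n)} {v : V} (h : Inv ρ B v) (a : Fin n) (ha : a ∉ B)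
    (h0 : eB ρ (insert a B) v = 0) : ∑ i ∈ B, ρ (swap i a) v = -v := by
  have h1 := inv_sum_swap ρ h a ha
  have h2 := eB_of_inv ρ h1
  rw [map_sum, Finset.sum_eq_zero] at h2
  · rw [Finset.sum_insert ha, swap_self] at h2
    have h3 : ρ (Equiv.refl (Fin n)) v = v := one_apply' ρ v
    rw [h3] at h2
    exact (neg_eq_of_add_eq_zero_right h2.symm).symm
  · intro i hi
    rw [eB_comp ρ (InH.swap hi (Finset.mem_insert_self a B)), h0]

/-- a vector fixed by the swaps inside `B` is fixed by `H_B` -/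
theorem inv_of_swaps {B : Finset (Fin n)} {v : V}
    (h : ∀ i ∈ B, ∀ j ∈ B, ρ (swap i j) v = v) : Inv ρ B v := by
  induction B using Finset.induction_on with
  | empty =>
    intro g hg
    have : g = 1 := by
      ext x
      rw [hg x (Finset.notMem_empty x)]
      rfl
    rw [this, one_apply']
  | insert a B ha ih =>
    have h1 : Inv ρ B v := ih fun i hi j hj =>
      h i (Finset.mem_insert_of_mem hi) j (Finset.mem_insert_of_mem hj)
    have h2 := inv_sum_swap ρ h1 a ha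
    rw [Finset.sum_congr rfl fun i hi => h i hi a (Finset.mem_insert_self a B),
      Finset.sum_const, ← Nat.cast_smul_eq_nsmul ℝ] at h2
    intro g hg
    have h3 := h2 g hg
    rw [map_smul] at h3
    have h4 : (((insert a B).card : ℕ) : ℝ) ≠ 0 :=
      Nat.cast_ne_zero.mpr (Finset.card_pos.mpr ⟨a, Finset.mem_insert_self a B⟩).ne'
    exact smul_right_injective V h4 h3

/-! ### unitary representations -/

/-- invariance of the inner product -/
def Unit (ρ : Perm (Fin n) →* (V →ₗ[ℝ] V)) : Prop :=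
  ∀ g v w, ⟪ρ g v, ρ g w⟫_ℝ = ⟪v, w⟫_ℝ

theorem Unit.norm (hρ : Unit ρ) (g : Perm (Fin n)) (v : V) : ‖ρ g v‖ = ‖v‖ := by
  rw [@norm_eq_sqrt_real_inner V _ _ (ρ g v), @norm_eq_sqrt_real_inner V _ _ v, hρ]

theorem Unit.adj (hρ : Unit ρ) (g : Perm (Fin n)) (v w : V) :
    ⟪ρ g v, w⟫_ℝ = ⟪v, ρ g⁻¹ w⟫_ℝ := by
  rw [← hρ g v (ρ g⁻¹ w), ← mul_apply', mul_inv_cancel, one_apply']

theorem Unit.swap_symm (hρ : Unit ρ) (i j : Fin n) (v w : V) :
    ⟪ρ (swap i j) v, w⟫_ℝ = ⟪v, ρ (swap i j) w⟫_ℝ := by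
  rw [hρ.adj, swap_inv]

theorem Unit.eB_symm (hρ : Unit ρ) (B : Finset (Fin n)) (v w : V) :
    ⟪eB ρ B v, w⟫_ℝ = ⟪v, eB ρ B w⟫_ℝ := by
  rw [eB_apply, eB_apply, real_inner_smul_left, real_inner_smul_right, sum_inner, inner_sum]
  congr 1
  refine Finset.sum_bij (fun g _ => g⁻¹) ?_ ?_ ?_ ?_
  · intro g hg; exact mem_HB.mpr (mem_HB.mp hg).inv
  · intro a _ b _ hab; exact inv_injective hab
  · intro g hg; exact ⟨g⁻¹, mem_HB.mpr (mem_HB.mp hg).inv, inv_inv g⟩
  · intro g _; exact hρ.adj g v w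

theorem Unit.inner_eB (hρ : Unit ρ) (B : Finset (Fin n)) (v : V) :
    ⟪eB ρ B v, v⟫_ℝ = ‖eB ρ B v‖ ^ 2 := by
  have h := eB_of_inv ρ (inv_eB ρ B v)
  rw [← real_inner_self_eq_norm_sq, ← hρ.eB_symm, h]

theorem Unit.inner_eB_nonneg (hρ : Unit ρ) (B : Finset (Fin n)) (v : V) :
    0 ≤ ⟪eB ρ B v, v⟫_ℝ := by
  rw [hρ.inner_eB]; positivity

/-- the random transposition operator -/
def KK (ρ : Perm (Fin n) →* (V →ₗ[ℝ] V)) : V →ₗ[ℝ] V :=
  ((n : ℝ) ^ 2)⁻¹ • ∑ i, ∑ j, ρ (swap i j)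

theorem KK_apply (v : V) : KK ρ v = ((n : ℝ) ^ 2)⁻¹ • ∑ i, ∑ j, ρ (swap i j) v := by
  simp [KK, LinearMap.sum_apply]

theorem Unit.KK_symm (hρ : Unit ρ) (v w : V) : ⟪KK ρ v, w⟫_ℝ = ⟪v, KK ρ w⟫_ℝ := by
  rw [KK_apply, KK_apply, real_inner_smul_left, real_inner_smul_right, sum_inner, inner_sum]
  congr 1
  refine Finset.sum_congr rfl fun i _ => ?_
  rw [sum_inner, inner_sum]
  exact Finset.sum_congr rfl fun j _ => hρ.swap_symm i j v w

theorem KK_comm (g : Perm (Fin n)) (v : V) : KK ρ (ρ g v) = ρ g (KK ρ v) := by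
  rw [KK_apply, KK_apply, map_smul, map_sum]
  congr 1
  rw [← Equiv.sum_comp g]
  refine Finset.sum_congr rfl fun i _ => ?_
  rw [map_sum, ← Equiv.sum_comp g]
  refine Finset.sum_congr rfl fun j _ => ?_
  rw [← mul_apply', ← mul_apply']
  congr 2
  rw [swap_apply_apply]
  group

theorem Unit.norm_sum_swap_le (hρ : Unit ρ) (A B : Finset (Fin n)) (v : V) :
    ‖∑ i ∈ A, ∑ j ∈ B, ρ (swap i j) v‖ ≤ A.card * B.card * ‖v‖ := by
  calc ‖∑ i ∈ A, ∑ j ∈ B, ρ (swap i j) v‖ ≤ ∑ i ∈ A, ‖∑ j ∈ B, ρ (swap i j) v‖ :=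
        norm_sum_le _ _
    _ ≤ ∑ i ∈ A, (B.card * ‖v‖) := by
        refine Finset.sum_le_sum fun i _ => ?_
        calc ‖∑ j ∈ B, ρ (swap i j) v‖ ≤ ∑ j ∈ B, ‖ρ (swap i j) v‖ := norm_sum_le _ _
          _ = B.card * ‖v‖ := by
            rw [Finset.sum_congr rfl fun j _ => hρ.norm (swap i j) v, Finset.sum_const,
              nsmul_eq_mul]
    _ = A.card * B.card * ‖v‖ := by rw [Finset.sum_const, nsmul_eq_mul]; ring

/-- The action of the random transposition operator on a vector of exact level `|A|`. -/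
theorem Unit.level (hρ : Unit ρ) (A : Finset (Fin n)) {v : V} (hv : Inv ρ Aᶜ v)
    (h0 : ∀ a ∈ A, eB ρ (A.erase a)ᶜ v = 0) {r : ℝ} (hr : KK ρ v = r • v) (hv0 : v ≠ 0)
    (hn : 0 < n) :
    |r * (n : ℝ) ^ 2 - (((n : ℝ) - A.card) ^ 2 - 2 * A.card)| ≤ (A.card : ℝ) ^ 2 := by
  have hn' : ((n : ℝ) ^ 2) ≠ 0 := by positivity
  have h1 : ∀ a ∈ A, ∑ i ∈ Aᶜ, ρ (swap i a) v = -v := by
    intro a ha
    have hnot : a ∉ Aᶜ := by simpa using ha
    apply sum_swap_eq_neg hv a hnot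
    have : insert a Aᶜ = (A.erase a)ᶜ := by
      ext x
      simp only [mem_insert, mem_compl, mem_erase, not_and, ne_eq]
      tauto
    rw [this]
    exact h0 a ha
  have h2 : ∑ i, ∑ j, ρ (swap i j) v = (((n : ℝ) - A.card) ^ 2 - 2 * A.card) • v +
      ∑ i ∈ A, ∑ j ∈ A, ρ (swap i j) v := by
    have hcard : ((Aᶜ.card : ℕ) : ℝ) = (n : ℝ) - A.card := by
      rw [Finset.card_compl, Fintype.card_fin, Nat.cast_sub]
      exact card_finset_fin_le A
    rw [← Finset.sum_add_sum_compl A]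
    have e1 : ∀ i, ∑ j, ρ (swap i j) v = ∑ j ∈ A, ρ (swap i j) v + ∑ j ∈ Aᶜ, ρ (swap i j) v :=
      fun i => (Finset.sum_add_sum_compl A _).symm
    simp_rw [e1, Finset.sum_add_distrib]
    have e2 : ∑ i ∈ A, ∑ j ∈ Aᶜ, ρ (swap i j) v = (-(A.card : ℝ)) • v := by
      rw [Finset.sum_congr rfl fun i hi => (by
        rw [← h1 i hi]
        exact Finset.sum_congr rfl fun j _ => by rw [swap_comm] :
          ∑ j ∈ Aᶜ, ρ (swap i j) v = -v), Finset.sum_const,
        ← Nat.cast_smul_eq_nsmul ℝ, smul_neg, neg_smul]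
    have e3 : ∑ i ∈ Aᶜ, ∑ j ∈ A, ρ (swap i j) v = (-(A.card : ℝ)) • v := by
      rw [Finset.sum_comm, Finset.sum_congr rfl fun j hj => h1 j hj, Finset.sum_const,
        ← Nat.cast_smul_eq_nsmul ℝ, smul_neg, neg_smul]
    have e4 : ∑ i ∈ Aᶜ, ∑ j ∈ Aᶜ, ρ (swap i j) v = (((n : ℝ) - A.card) ^ 2) • v := by
      rw [Finset.sum_congr rfl fun i hi => (by
        rw [Finset.sum_congr rfl fun j hj => hv _ (InH.swap hi hj), Finset.sum_const,
          ← Nat.cast_smul_eq_nsmul ℝ, hcard] :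
          ∑ j ∈ Aᶜ, ρ (swap i j) v = ((n : ℝ) - A.card) • v), Finset.sum_const,
          ← Nat.cast_smul_eq_nsmul ℝ, hcard, smul_smul, sq]
    rw [e2, e3, e4]
    have : (((n : ℝ) - A.card) ^ 2 - 2 * A.card) • v = (-(A.card : ℝ)) • v +
        ((-(A.card : ℝ)) • v + (((n : ℝ) - A.card) ^ 2) • v) := by
      rw [← add_smul, ← add_smul]; congr 1; ring
    rw [this]
    abel
  have h3 : (r * (n : ℝ) ^ 2 - (((n : ℝ) - A.card) ^ 2 - 2 * A.card)) • v =
      ∑ i ∈ A, ∑ j ∈ A, ρ (swap i j) v := by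
    have h4 : ((n : ℝ) ^ 2) • KK ρ v = ∑ i, ∑ j, ρ (swap i j) v := by
      rw [KK_apply, smul_smul, mul_inv_cancel₀ hn', one_smul]
    rw [hr, h2, smul_smul] at h4
    rw [sub_smul, mul_comm r, h4]
    abel
  have h5 := hρ.norm_sum_swap_le A A v
  rw [← h3, norm_smul, Real.norm_eq_abs] at h5
  have h6 : 0 < ‖v‖ := norm_pos_iff.mpr hv0
  have h7 : (A.card : ℝ) ^ 2 = A.card * A.card := sq _
  rw [h7]
  exact le_of_mul_le_mul_right h5 h6

end

/-! #### part JM -/

noncomputable section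

set_option linter.unusedSectionVars false

section spectral

variable {W : Type} [NormedAddCommGroup W] [InnerProductSpace ℝ W] [FiniteDimensional ℝ W]

/-- symmetric operators -/
def Sym (S : W →ₗ[ℝ] W) : Prop := ∀ v w, ⟪S v, w⟫_ℝ = ⟪v, S w⟫_ℝ

theorem le_of_eig {S : W →ₗ[ℝ] W} (hS : Sym S) (μ : ℝ)
    (h : ∀ c : ℝ, ∀ w : W, w ≠ 0 → S w = c • w → c ≤ μ) (v : W) : ⟪S v, v⟫_ℝ ≤ μ * ‖v‖ ^ 2 := by
  have hS' : S.IsSymmetric := hS
  let b := hS'.eigenvectorBasis rfl
  have hb : ∀ i, S (b i) = (hS'.eigenvalues rfl i) • b i := fun i =>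
    hS'.apply_eigenvectorBasis rfl i
  have hle : ∀ i, hS'.eigenvalues rfl i ≤ μ := fun i =>
    h _ (b i) (b.orthonormal.ne_zero i) (hb i)
  rw [← b.sum_inner_mul_inner, ← real_inner_self_eq_norm_sq, ← b.sum_inner_mul_inner,
    Finset.mul_sum]
  refine Finset.sum_le_sum fun i _ => ?_
  rw [hS v (b i), hb i, real_inner_smul_right, real_inner_comm v (b i), mul_assoc]
  exact mul_le_mul_of_nonneg_right (hle i) (mul_self_nonneg _)

theorem exists_eig_gt {S : W →ₗ[ℝ] W} (hS : Sym S) (E : Submodule ℝ W)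
    (hE : ∀ v ∈ E, S v ∈ E) (μ : ℝ) {v : W} (hv : v ∈ E) (hlt : μ * ‖v‖ ^ 2 < ⟪S v, v⟫_ℝ) :
    ∃ c : ℝ, μ < c ∧ ∃ w ∈ E, w ≠ 0 ∧ S w = c • w := by
  by_contra hcon
  push Not at hcon
  have hR : Sym (S.restrict hE) := fun x y => hS x y
  have h1 := le_of_eig hR μ (by
    intro c w hw hSw
    by_contra hc
    push Not at hc
    refine hcon c hc w.1 w.2 (fun h => hw (Subtype.ext h)) ?_
    have := congrArg Subtype.val hSw
    exact this) ⟨v, hv⟩
  exact absurd hlt (not_lt.mpr h1)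

theorem exists_eig {S : W →ₗ[ℝ] W} (hS : Sym S) (E : Submodule ℝ W)
    (hE : ∀ v ∈ E, S v ∈ E) (hne : E ≠ ⊥) : ∃ c : ℝ, ∃ w ∈ E, w ≠ 0 ∧ S w = c • w := by
  obtain ⟨v, hv, hv0⟩ := Submodule.exists_mem_ne_zero_of_ne_bot hne
  obtain ⟨c, _, h⟩ := exists_eig_gt hS E hE (⟪S v, v⟫_ℝ / ‖v‖ ^ 2 - 1) hv (by
    have : 0 < ‖v‖ ^ 2 := by positivity
    rw [sub_mul, div_mul_cancel₀ _ this.ne']
    linarith)
  exact ⟨c, h⟩

/-- if all eigenvalues are nonnegative then the quadratic form is nonnegative -/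
theorem nonneg_of_eig {S : W →ₗ[ℝ] W} (hS : Sym S)
    (h : ∀ c : ℝ, ∀ w : W, w ≠ 0 → S w = c • w → 0 ≤ c) (v : W) : 0 ≤ ⟪S v, v⟫_ℝ := by
  have hS' : Sym (-S) := fun x y => by
    simp only [LinearMap.neg_apply, inner_neg_left, inner_neg_right]; rw [hS]
  have := le_of_eig hS' 0 (by
    intro c w hw hc
    have : S w = (-c) • w := by
      rw [neg_smul, ← hc]; simp
    have := h _ w hw this
    linarith) v
  rw [zero_mul, LinearMap.neg_apply, inner_neg_left] at this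
  linarith

end spectral

variable {n : ℕ} {V : Type} [NormedAddCommGroup V] [InnerProductSpace ℝ V]
  [FiniteDimensional ℝ V] {ρ : Perm (Fin n) →* (V →ₗ[ℝ] V)}

/-- Jucys-Murphy operators -/
def JM (ρ : Perm (Fin n) →* (V →ₗ[ℝ] V)) (k : Fin n) : V →ₗ[ℝ] V :=
  ∑ i ∈ Iio k, ρ (swap i k)

theorem JM_apply (k : Fin n) (v : V) : JM ρ k v = ∑ i ∈ Iio k, ρ (swap i k) v := by
  simp [JM, LinearMap.sum_apply]

theorem Unit.JM_symm (hρ : Unit ρ) (k : Fin n) : Sym (JM ρ k) := by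
  intro v w
  rw [JM_apply, JM_apply, sum_inner, inner_sum]
  exact Finset.sum_congr rfl fun i _ => hρ.swap_symm i k v w

theorem JM_comm (k : Fin n) {g : Perm (Fin n)} (hg : InH (Iio k) g) (v : V) :
    JM ρ k (ρ g v) = ρ g (JM ρ k v) := by
  rw [JM_apply, JM_apply, map_sum]
  symm
  refine Finset.sum_bij (fun i _ => g i) ?_ ?_ ?_ ?_
  · intro i hi; exact hg.mem hi
  · intro i _ j _ hij; exact g.injective hij
  · intro i hi
    exact ⟨g⁻¹ i, hg.inv.mem hi, by simp⟩
  · intro i _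
    rw [← mul_apply', ← mul_apply']
    congr 2
    have hk : g k = k := hg k (by simp)
    rw [show swap (g i) k = swap (g i) (g k) by rw [hk], swap_apply_apply]
    group

theorem JM_comm_JM {i k : Fin n} (h : i < k) (v : V) : JM ρ k (JM ρ i v) = JM ρ i (JM ρ k v) := by
  rw [JM_apply i, JM_apply i, map_sum]
  refine Finset.sum_congr rfl fun j hj => ?_
  apply JM_comm
  exact InH.swap (by simpa using (Finset.mem_Iio.mp hj).trans h) (by simpa using h)

theorem JM_comm_JM' (i k : Fin n) (v : V) : JM ρ k (JM ρ i v) = JM ρ i (JM ρ k v) := by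
  rcases lt_trichotomy i k with h | h | h
  · exact JM_comm_JM h v
  · rw [h]
  · exact (JM_comm_JM h v).symm

theorem JM_swap_comm {i j k : Fin n} (hi : i < j) (hk : j < k) (v : V) :
    JM ρ i (ρ (swap j k) v) = ρ (swap j k) (JM ρ i v) := by
  rw [JM_apply, JM_apply, map_sum]
  refine Finset.sum_congr rfl fun l hl => ?_
  have hl' : l < i := Finset.mem_Iio.mp hl
  rw [← mul_apply', ← mul_apply']
  congr 2
  have h1 : swap j k * swap l i * (swap j k)⁻¹ = swap l i := by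
    rw [← swap_apply_apply, swap_apply_of_ne_of_ne (hl'.trans hi).ne (hl'.trans (hi.trans hk)).ne,
      swap_apply_of_ne_of_ne hi.ne (hi.trans hk).ne]
  rw [swap_inv] at h1
  calc swap l i * swap j k = (swap j k * swap l i * swap j k) * swap j k := by rw [h1]
    _ = swap j k * swap l i := by rw [mul_assoc, swap_mul_self, mul_one]

/-- recursion `J_k = s J_j s + s` for `k = j + 1`, `s = (j k)` -/
theorem JM_succ {j k : Fin n} (hjk : k.val = j.val + 1) (v : V) :
    JM ρ k v = ρ (swap j k) (JM ρ j (ρ (swap j k) v)) + ρ (swap j k) v := by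
  have h1 : Iio k = insert j (Iio j) := by
    ext x
    rw [Finset.mem_Iio, Finset.mem_insert, Finset.mem_Iio, Fin.lt_def, Fin.lt_def, Fin.ext_iff]
    omega
  have hjk' : j < k := by rw [Fin.lt_def]; omega
  rw [JM_apply, h1, Finset.sum_insert (by simp), JM_apply, map_sum, add_comm]
  congr 1
  refine Finset.sum_congr rfl fun i hi => ?_
  have hi' : i < j := Finset.mem_Iio.mp hi
  rw [← mul_apply', ← mul_apply']
  congr 2
  have h2 : swap j k * swap i j * (swap j k)⁻¹ = swap i k := by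
    rw [← swap_apply_apply, swap_apply_of_ne_of_ne hi'.ne (hi'.trans hjk').ne, swap_apply_left]
  rw [swap_inv] at h2
  rw [← h2, mul_assoc]

theorem JM_succ' {j k : Fin n} (hjk : k.val = j.val + 1) (v : V) :
    JM ρ j (ρ (swap j k) v) = ρ (swap j k) (JM ρ k v) - v := by
  rw [JM_succ hjk, map_add, ← mul_apply', ← mul_apply', swap_mul_self, one_apply', one_apply']
  abel

theorem swap_swap_apply (j k : Fin n) (v : V) : ρ (swap j k) (ρ (swap j k) v) = v := by
  rw [← mul_apply', swap_mul_self, one_apply']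

theorem Unit.inner_JM_le (hρ : Unit ρ) (k : Fin n) (v : V) :
    ⟪JM ρ k v, v⟫_ℝ ≤ k.val * ‖v‖ ^ 2 := by
  rw [JM_apply, sum_inner]
  calc ∑ i ∈ Iio k, ⟪ρ (swap i k) v, v⟫_ℝ ≤ ∑ i ∈ Iio k, ‖v‖ ^ 2 := by
        refine Finset.sum_le_sum fun i _ => ?_
        calc ⟪ρ (swap i k) v, v⟫_ℝ ≤ ‖ρ (swap i k) v‖ * ‖v‖ := real_inner_le_norm _ _
          _ = ‖v‖ ^ 2 := by rw [hρ.norm, sq]
    _ = k.val * ‖v‖ ^ 2 := by rw [Finset.sum_const, Fin.card_Iio, nsmul_eq_mul]

/-- If all symmetrizers on `m + 1` points vanish on `E` then `J_k ≤ m - 1` on `E`. -/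
theorem Unit.JM_le (hρ : Unit ρ) (E : Submodule ℝ V) (hE : ∀ g, ∀ v ∈ E, ρ g v ∈ E) (m : ℕ)
    (hm : 1 ≤ m) (h0 : ∀ B : Finset (Fin n), B.card = m + 1 → ∀ v ∈ E, eB ρ B v = 0)
    (k : Fin n) : ∀ v ∈ E, ⟪JM ρ k v, v⟫_ℝ ≤ ((m : ℝ) - 1) * ‖v‖ ^ 2 := by
  obtain ⟨kv, hkv⟩ : ∃ kv, k.val = kv := ⟨_, rfl⟩
  induction kv generalizing k with
  | zero =>
    intro v _
    refine (hρ.inner_JM_le k v).trans ?_
    rw [hkv]
    have : (1 : ℝ) ≤ m := by exact_mod_cast hm
    gcongr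
    push_cast; linarith
  | succ jv ih =>
    intro v hv
    by_cases hkm : jv + 1 ≤ m - 1
    · refine (hρ.inner_JM_le k v).trans ?_
      rw [hkv]
      have : ((jv + 1 : ℕ) : ℝ) ≤ (m : ℝ) - 1 := by
        have h1 : jv + 1 + 1 ≤ m := by omega
        have h2 : ((jv + 1 + 1 : ℕ) : ℝ) ≤ m := by exact_mod_cast h1
        push_cast at h2 ⊢; linarith
      gcongr
    · push Not at hkm
      have hkm' : m ≤ jv + 1 := by omega
      have hjn : jv < n := by have := k.isLt; omega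
      let j : Fin n := ⟨jv, hjn⟩
      have hjk : k.val = j.val + 1 := hkv
      have hjk' : j < k := by rw [Fin.lt_def]; omega
      have hJ : ∀ v ∈ E, ⟪JM ρ j v, v⟫_ℝ ≤ ((m : ℝ) - 1) * ‖v‖ ^ 2 := ih j rfl
      by_contra hcon
      push Not at hcon
      have hJE : ∀ i, ∀ w ∈ E, JM ρ i w ∈ E := by
        intro i w hw
        rw [JM_apply]
        exact Submodule.sum_mem _ fun l _ => hE _ w hw
      obtain ⟨c, hc, w, hwE, hw0, hw⟩ := exists_eig_gt (hρ.JM_symm k) E (hJE k) _ hv hcon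
      -- the eigenspace inside E
      have hpos : ∀ u ∈ E, (c • u - JM ρ j u = 0) → u = 0 := by
        intro u hu h
        by_contra hu0
        have h1 : JM ρ j u = c • u := (sub_eq_zero.mp h).symm
        have h2 := hJ u hu
        rw [h1, real_inner_smul_left, real_inner_self_eq_norm_sq] at h2
        have h3 : 0 < ‖u‖ ^ 2 := by positivity
        nlinarith
      let Ec : Submodule ℝ V := E ⊓ LinearMap.ker (JM ρ k - c • LinearMap.id)
      have hEc : ∀ u, u ∈ Ec ↔ u ∈ E ∧ JM ρ k u = c • u := by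
        intro u
        rw [Submodule.mem_inf, LinearMap.mem_ker, LinearMap.sub_apply, LinearMap.smul_apply,
          LinearMap.id_apply, sub_eq_zero]
      have hEcJ : ∀ u ∈ Ec, c • u - JM ρ j u ∈ Ec := by
        intro u hu
        apply Submodule.sub_mem _ (Submodule.smul_mem _ _ hu)
        rw [hEc] at hu ⊢
        refine ⟨hJE j u hu.1, ?_⟩
        rw [JM_comm_JM' j k, hu.2, map_smul]
      let F : Ec →ₗ[ℝ] Ec := LinearMap.restrict (c • LinearMap.id - JM ρ j) (by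
        intro u hu
        exact hEcJ u hu)
      have hF : ∀ u : Ec, ((F u : Ec) : V) = c • (u : V) - JM ρ j u := fun u => rfl
      have hFinj : Function.Injective F := by
        rw [← LinearMap.ker_eq_bot, LinearMap.ker_eq_bot']
        intro u hu
        have h1 : c • (u : V) - JM ρ j u = 0 := by rw [← hF, hu]; rfl
        exact Subtype.ext (hpos u ((hEc _).mp u.2).1 h1)
      have hFsurj : Function.Surjective F := LinearMap.injective_iff_surjective.mp hFinj
      -- the key relation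
      have hrel : ∀ u ∈ Ec, c • ρ (swap j k) u - JM ρ j (ρ (swap j k) u) = u := by
        intro u hu
        rw [JM_succ' hjk, ((hEc u).mp hu).2, map_smul]
        abel
      have hs : ∀ u ∈ Ec, ρ (swap j k) u ∈ Ec := by
        intro u hu
        obtain ⟨u', hu'⟩ := hFsurj ⟨u, hu⟩
        have h1 : c • (u' : V) - JM ρ j u' = u := by rw [← hF, hu']
        have h2 := hrel u hu
        have h3 : c • (ρ (swap j k) u - u') - JM ρ j (ρ (swap j k) u - u') = 0 := by
          rw [map_sub, smul_sub]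
          have : c • ρ (swap j k) u - c • (u' : V) -
              (JM ρ j (ρ (swap j k) u) - JM ρ j u') =
              (c • ρ (swap j k) u - JM ρ j (ρ (swap j k) u)) - (c • (u' : V) - JM ρ j u') := by
            abel
          rw [this, h1, h2, sub_self]
        have h4 := hpos _ (Submodule.sub_mem _ (hE _ u ((hEc u).mp hu).1)
          ((hEc _).mp u'.2).1) h3
        rw [sub_eq_zero.mp h4]
        exact u'.2
      have hfix : ∀ u ∈ Ec, ρ (swap j k) u = u := by
        intro u hu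
        have h1 : ρ (swap j k) u - u ∈ Ec := Submodule.sub_mem _ (hs u hu) hu
        have h2 : ρ (swap j k) (ρ (swap j k) u - u) = -(ρ (swap j k) u - u) := by
          rw [map_sub, swap_swap_apply]; abel
        have h3 := hrel _ h1
        rw [h2, smul_neg, map_neg] at h3
        set z := ρ (swap j k) u - u with hz
        have h4 : ⟪-(c • z) - -JM ρ j z, z⟫_ℝ = ⟪z, z⟫_ℝ := by rw [h3]
        rw [inner_sub_left, inner_neg_left, inner_neg_left, real_inner_smul_left,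
          real_inner_self_eq_norm_sq] at h4
        have h5 := hJ z ((hEc z).mp h1).1
        have h6 : ‖z‖ ^ 2 ≤ 0 := by
          have h7 : 0 ≤ ‖z‖ ^ 2 := by positivity
          have h8 : (0 : ℝ) ≤ m - 1 := by
            have : (1 : ℝ) ≤ m := by exact_mod_cast hm
            linarith
          nlinarith
        have h7 : z = 0 := by
          have : ‖z‖ ^ 2 = 0 := le_antisymm h6 (by positivity)
          exact norm_eq_zero.mp (pow_eq_zero_iff (two_ne_zero) |>.mp this)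
        exact sub_eq_zero.mp h7
      have hHE : ∀ g, InH (Iio k) g → ∀ u ∈ Ec, ρ g u ∈ Ec := by
        intro g hg u hu
        rw [hEc] at hu ⊢
        refine ⟨hE g u hu.1, ?_⟩
        rw [JM_comm k hg, hu.2, map_smul]
      have hfix2 : ∀ i, i < k → ∀ u ∈ Ec, ρ (swap i k) u = u := by
        intro i hi u hu
        by_cases hij : i = j
        · rw [hij]; exact hfix u hu
        · have h1 : swap i k = swap i j * swap j k * swap i j := by
            have h2 : swap i j * swap j k * (swap i j)⁻¹ = swap i k := by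
              rw [← swap_apply_apply, swap_apply_right,
                swap_apply_of_ne_of_ne hi.ne' hjk'.ne']
            rw [swap_inv] at h2
            exact h2.symm
          have hin : InH (Iio k) (swap i j) :=
            InH.swap (Finset.mem_Iio.mpr hi) (Finset.mem_Iio.mpr hjk')
          rw [h1, mul_apply', mul_apply', hfix _ (hHE _ hin u hu), swap_swap_apply]
      have hfix3 : ∀ i ≤ k, ∀ l ≤ k, ∀ u ∈ Ec, ρ (swap i l) u = u := by
        have hk : ∀ i ≤ k, ∀ u ∈ Ec, ρ (swap i k) u = u := by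
          intro i hi u hu
          rcases eq_or_lt_of_le hi with h | h
          · rw [h, swap_self]; exact one_apply' ρ u
          · exact hfix2 i h u hu
        intro i hi l hl u hu
        by_cases hil : i = l
        · rw [hil, swap_self]; exact one_apply' ρ u
        by_cases hik : i = k
        · rw [hik, swap_comm]; exact hk l hl u hu
        by_cases hlk : l = k
        · rw [hlk]; exact hk i hi u hu
        have h1 : swap i l = swap i k * swap k l * swap i k := by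
          have h2 : swap i k * swap k l * (swap i k)⁻¹ = swap i l := by
            rw [← swap_apply_apply, swap_apply_right,
              swap_apply_of_ne_of_ne (Ne.symm hil) hlk]
          rw [swap_inv] at h2
          exact h2.symm
        rw [h1, mul_apply', mul_apply', hk i hi u hu, swap_comm k l, hk l hl u hu, hk i hi u hu]
      -- contradiction
      obtain ⟨B, hBsub, hBcard⟩ : ∃ B ⊆ Iic k, B.card = m + 1 := by
        apply Finset.exists_subset_card_eq
        rw [Fin.card_Iic]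
        omega
      have hwEc : w ∈ Ec := (hEc w).mpr ⟨hwE, hw⟩
      have h1 : Inv ρ B w := inv_of_swaps fun i hi l hl =>
        hfix3 i (Finset.mem_Iic.mp (hBsub hi)) l (Finset.mem_Iic.mp (hBsub hl)) w hwEc
      have h2 := eB_of_inv ρ h1
      rw [h0 B hBcard w hwE] at h2
      exact hw0 h2.symm

end

/-! #### part Content -/

noncomputable section

set_option linter.unusedSectionVars false

variable {n : ℕ} {V : Type} [NormedAddCommGroup V] [InnerProductSpace ℝ V]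
  [FiniteDimensional ℝ V] {ρ : Perm (Fin n) →* (V →ₗ[ℝ] V)}

/-- `K` in terms of the Jucys-Murphy operators -/
theorem sum_swap_eq (v : V) :
    ∑ i, ∑ j, ρ (swap i j) v = (n : ℝ) • v + (2 : ℝ) • ∑ k, JM ρ k v := by
  have h1 : ∀ i : Fin n, ∑ j, ρ (swap i j) v =
      ∑ j ∈ Iio i, ρ (swap i j) v + v + ∑ j ∈ Ioi i, ρ (swap i j) v := by
    intro i
    have e : (univ : Finset (Fin n)) = (Iio i ∪ {i}) ∪ Ioi i := by
      ext x
      simp only [mem_univ, mem_union, mem_Iio, mem_singleton, mem_Ioi, true_iff]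
      rcases lt_trichotomy x i with h | h | h
      · exact Or.inl (Or.inl h)
      · exact Or.inl (Or.inr h)
      · exact Or.inr h
    rw [e, Finset.sum_union, Finset.sum_union, Finset.sum_singleton, swap_self]
    · congr 2
      exact one_apply' ρ v
    · rw [Finset.disjoint_left]
      intro x hx hx2
      rw [mem_singleton] at hx2
      rw [hx2] at hx
      simp at hx
    · rw [Finset.disjoint_left]
      intro x hx hx2
      rw [mem_union, mem_Iio, mem_singleton] at hx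
      rw [mem_Ioi] at hx2
      rcases hx with h | h
      · exact absurd (h.trans hx2) (lt_irrefl _)
      · rw [h] at hx2; exact lt_irrefl _ hx2
  simp_rw [h1, Finset.sum_add_distrib]
  have h2 : ∑ i : Fin n, ∑ j ∈ Ioi i, ρ (swap i j) v = ∑ k, JM ρ k v := by
    simp_rw [JM_apply]
    rw [Finset.sum_comm' (s' := fun i : Fin n => Iio i) (t' := univ)]
    intro x y
    simp
  have h3 : ∑ i : Fin n, ∑ j ∈ Iio i, ρ (swap i j) v = ∑ k, JM ρ k v := by
    simp_rw [JM_apply]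
    refine Finset.sum_congr rfl fun k _ => Finset.sum_congr rfl fun j _ => ?_
    rw [swap_comm]
  rw [h2, h3, Finset.sum_const, Finset.card_univ, Fintype.card_fin, ← Nat.cast_smul_eq_nsmul ℝ,
    two_smul]
  abel

theorem KK_JM (hn : 0 < n) (v : V) :
    ((n : ℝ) ^ 2) • KK ρ v = (n : ℝ) • v + (2 : ℝ) • ∑ k, JM ρ k v := by
  have hn' : ((n : ℝ) ^ 2) ≠ 0 := by positivity
  rw [KK_apply, smul_smul, mul_inv_cancel₀ hn', one_smul, sum_swap_eq]

/-- the contents of a joint eigenvector: a positive content `c` is preceded by `c - 1` -/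
theorem Unit.content_pred (hρ : Unit ρ) (k : Fin n) :
    ∀ v : V, v ≠ 0 → ∀ c : Fin n → ℝ, (∀ i ≤ k, JM ρ i v = c i • v) → 0 < c k →
      ∃ i < k, c i = c k - 1 := by
  obtain ⟨kv, hkv⟩ : ∃ kv, k.val = kv := ⟨_, rfl⟩
  induction kv using Nat.strong_induction_on generalizing k with
  | _ kv ih =>
    intro v hv c hc hpos
    rcases Nat.eq_zero_or_pos kv with h0 | h0
    · exfalso
      have h1 := hc k le_rfl
      have h2 : Iio k = ∅ := by
        ext x
        rw [Finset.mem_Iio, Fin.lt_def]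
        simp
        omega
      rw [JM_apply, h2, Finset.sum_empty] at h1
      have := (smul_eq_zero.mp h1.symm)
      rcases this with h | h
      · linarith
      · exact hv h
    · have hjn : kv - 1 < n := by have := k.isLt; omega
      let j : Fin n := ⟨kv - 1, hjn⟩
      have hjk : k.val = j.val + 1 := by
        show k.val = kv - 1 + 1
        omega
      have hjk' : j < k := by rw [Fin.lt_def]; omega
      have hjk2 : ∀ i, i ≤ j → i ≤ k := fun i hi => hi.trans hjk'.le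
      by_cases h1 : c j = c k - 1
      · exact ⟨j, hjk', h1⟩
      by_cases h2 : c j = c k + 1
      · obtain ⟨i, hij, hi⟩ := ih j.val (by omega) j rfl v hv c
          (fun i hi => hc i (hjk2 i hi)) (by linarith)
        obtain ⟨i', hi', hi2⟩ := ih i.val (by rw [Fin.lt_def] at hij; omega) i rfl v hv c
          (fun l hl => hc l (hjk2 l (hl.trans hij.le))) (by linarith)
        exact ⟨i', hi'.trans (hij.trans hjk'), by rw [hi2, hi, h2]; ring⟩
      have hJk := hc k le_rfl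
      have hJj := hc j hjk'.le
      by_cases h3 : c j = c k
      · exfalso
        have h4 := JM_succ' (ρ := ρ) hjk v
        rw [hJk, map_smul] at h4
        have h5 : ⟪JM ρ j (ρ (swap j k) v), v⟫_ℝ = ⟪ρ (swap j k) v, JM ρ j v⟫_ℝ :=
          hρ.JM_symm j _ _
        rw [h4, hJj, inner_sub_left, real_inner_smul_left, real_inner_smul_right, h3,
          real_inner_self_eq_norm_sq] at h5
        have h6 : ‖v‖ ^ 2 = 0 := by linarith
        exact hv (norm_eq_zero.mp (pow_eq_zero_iff (two_ne_zero) |>.mp h6))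
      · have hd : c k - c j ≠ 0 := fun h => h3 (by linarith)
        let v' := ρ (swap j k) v - (c k - c j)⁻¹ • v
        have hv' : v' ≠ 0 := by
          intro h
          have h4 : ρ (swap j k) v = (c k - c j)⁻¹ • v := sub_eq_zero.mp h
          have h5 : v = ((c k - c j)⁻¹ * (c k - c j)⁻¹) • v := by
            conv_lhs => rw [← swap_swap_apply (ρ := ρ) j k v, h4, map_smul, h4, smul_smul]
          have h6 : ((1 : ℝ) - (c k - c j)⁻¹ * (c k - c j)⁻¹) • v = 0 := by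
            rw [sub_smul, one_smul, ← h5, sub_self]
          rcases smul_eq_zero.mp h6 with h7 | h7
          · have h8 : (c k - c j) * (c k - c j) = 1 := by
              have h9 : (c k - c j)⁻¹ * (c k - c j)⁻¹ = 1 := by linarith
              have h10 : ((c k - c j) * (c k - c j)) * ((c k - c j)⁻¹ * (c k - c j)⁻¹) = 1 := by
                field_simp
              rw [h9, mul_one] at h10
              exact h10
            rcases mul_self_eq_one_iff.mp h8 with h9 | h9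
            · exact h1 (by linarith)
            · exact h2 (by linarith)
          · exact hv h7
        have hc' : ∀ i ≤ j, JM ρ i v' = (Function.update c j (c k)) i • v' := by
          intro i hi
          rcases eq_or_lt_of_le hi with h4 | h4
          · rw [h4, Function.update_self]
            show JM ρ j (ρ (swap j k) v - (c k - c j)⁻¹ • v) = _
            rw [map_sub, JM_succ' hjk, hJk, map_smul, map_smul, hJj]
            show _ = c k • (ρ (swap j k) v - (c k - c j)⁻¹ • v)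
            rw [smul_sub, sub_sub]
            congr 1
            rw [smul_smul, smul_smul]
            nth_rewrite 1 [← one_smul ℝ v]
            rw [← add_smul]
            congr 1
            field_simp
            ring
          · rw [Function.update_of_ne h4.ne]
            show JM ρ i (ρ (swap j k) v - (c k - c j)⁻¹ • v) =
              c i • (ρ (swap j k) v - (c k - c j)⁻¹ • v)
            rw [map_sub, JM_swap_comm h4 hjk', map_smul, hc i (hjk2 i hi), map_smul, smul_sub,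
              smul_comm (c k - c j)⁻¹]
        obtain ⟨i, hij, hi⟩ := ih j.val (by omega) j rfl v' hv' _ hc'
          (by rw [Function.update_self]; exact hpos)
        rw [Function.update_self, Function.update_of_ne hij.ne] at hi
        exact ⟨i, hij.trans hjk', hi⟩

/-- consequence for sums of contents -/
theorem sum_content_le {c : Fin n → ℝ} (hP : ∀ k, 0 < c k → ∃ i < k, c i = c k - 1) {s : ℝ}
    (hs : 0 ≤ s) :
    2 * ∑ k, c k ≤ 2 * (s * n) + ((univ.filter fun k => s < c k).card : ℝ) *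
      (((univ.filter fun k => s < c k).card : ℝ) + 1) := by
  classical
  set B : Finset (Fin n) := univ.filter fun k => s < c k with hB
  have hmem : ∀ k, k ∈ B ↔ s < c k := by intro k; simp [hB]
  have key : ∀ k ∈ B, c k ≤ s + ((B.filter fun i => i ≤ k).card : ℝ) := by
    intro k
    obtain ⟨kv, hkv⟩ : ∃ kv, k.val = kv := ⟨_, rfl⟩
    induction kv using Nat.strong_induction_on generalizing k with
    | _ kv ih =>
      intro hk
      have hk' := (hmem k).mp hk
      obtain ⟨i, hik, hi⟩ := hP k (hs.trans_lt hk')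
      by_cases hiB : i ∈ B
      · have h1 := ih i.val (by rw [Fin.lt_def] at hik; omega) i rfl hiB
        have h2 : (B.filter fun l => l ≤ i).card + 1 ≤ (B.filter fun l => l ≤ k).card := by
          have h3 : insert k (B.filter fun l => l ≤ i) ⊆ B.filter fun l => l ≤ k := by
            intro x hx
            rcases Finset.mem_insert.mp hx with h | h
            · rw [h]; exact Finset.mem_filter.mpr ⟨hk, le_rfl⟩
            · rw [Finset.mem_filter] at h ⊢
              exact ⟨h.1, h.2.trans hik.le⟩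
          have h4 : k ∉ B.filter fun l => l ≤ i := by
            rw [Finset.mem_filter]
            rintro ⟨_, h⟩
            exact absurd (hik.trans_le h) (lt_irrefl _)
          rw [← Finset.card_insert_of_notMem h4]
          exact Finset.card_le_card h3
        have h5 : (((B.filter fun l => l ≤ i).card : ℕ) : ℝ) + 1 ≤
            ((B.filter fun l => l ≤ k).card : ℝ) := by exact_mod_cast h2
        linarith
      · have h1 : c i ≤ s := by
          by_contra h
          exact hiB ((hmem i).mpr (not_le.mp h))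
        have h2 : 1 ≤ (B.filter fun l => l ≤ k).card :=
          Finset.card_pos.mpr ⟨k, Finset.mem_filter.mpr ⟨hk, le_rfl⟩⟩
        have h3 : (1 : ℝ) ≤ ((B.filter fun l => l ≤ k).card : ℝ) := by exact_mod_cast h2
        linarith
  have hcount : 2 * ∑ k ∈ B, (B.filter fun i => i ≤ k).card = B.card * (B.card + 1) := by
    have h1 : ∑ k ∈ B, (B.filter fun i => i ≤ k).card = ∑ k ∈ B, (B.filter fun i => k ≤ i).card := by
      simp_rw [Finset.card_filter]
      rw [Finset.sum_comm]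
    have h2 : ∑ k ∈ B, ((B.filter fun i => i ≤ k).card + (B.filter fun i => k ≤ i).card) =
        ∑ k ∈ B, (B.card + 1) := by
      refine Finset.sum_congr rfl fun k hk => ?_
      rw [← Finset.card_union_add_card_inter]
      congr 1
      · congr 1
        ext x
        simp only [Finset.mem_union, Finset.mem_filter]
        constructor
        · rintro (h | h) <;> exact h.1
        · intro h
          rcases le_total x k with h3 | h3
          · exact Or.inl ⟨h, h3⟩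
          · exact Or.inr ⟨h, h3⟩
      · rw [Finset.card_eq_one]
        refine ⟨k, ?_⟩
        ext x
        simp only [Finset.mem_inter, Finset.mem_filter, Finset.mem_singleton]
        constructor
        · rintro ⟨⟨_, h⟩, ⟨_, h'⟩⟩
          exact le_antisymm h h'
        · rintro rfl
          exact ⟨⟨hk, le_rfl⟩, ⟨hk, le_rfl⟩⟩
    rw [Finset.sum_add_distrib, ← h1, Finset.sum_const, smul_eq_mul] at h2
    rw [two_mul]; exact h2
  have hcount' : 2 * ∑ k ∈ B, ((B.filter fun i => i ≤ k).card : ℝ) =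
      (B.card : ℝ) * ((B.card : ℝ) + 1) := by
    exact_mod_cast hcount
  have h1 : ∑ k ∈ B, c k ≤ s * B.card + ∑ k ∈ B, ((B.filter fun i => i ≤ k).card : ℝ) := by
    calc ∑ k ∈ B, c k ≤ ∑ k ∈ B, (s + ((B.filter fun i => i ≤ k).card : ℝ)) :=
          Finset.sum_le_sum key
      _ = _ := by rw [Finset.sum_add_distrib, Finset.sum_const, nsmul_eq_mul, mul_comm]
  have h2 : ∑ k ∈ Bᶜ, c k ≤ s * Bᶜ.card := by
    calc ∑ k ∈ Bᶜ, c k ≤ ∑ k ∈ Bᶜ, s := by
          refine Finset.sum_le_sum fun k hk => ?_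
          by_contra h
          exact (Finset.mem_compl.mp hk) ((hmem k).mpr (not_le.mp h))
      _ = _ := by rw [Finset.sum_const, nsmul_eq_mul, mul_comm]
  have h3 : ((B.card : ℝ) + Bᶜ.card) = n := by
    have := Finset.card_add_card_compl B
    rw [Fintype.card_fin] at this
    exact_mod_cast this
  rw [← Finset.sum_add_sum_compl B c]
  have h4 : s * n = s * B.card + s * Bᶜ.card := by rw [← h3]; ring
  rw [h4]
  linarith

/-! ### sign twist -/

/-- the representation twisted by the sign -/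
def sgr (ρ : Perm (Fin n) →* (V →ₗ[ℝ] V)) : Perm (Fin n) →* (V →ₗ[ℝ] V) where
  toFun g := ((Perm.sign g : ℤ) : ℝ) • ρ g
  map_one' := by simp
  map_mul' g h := by
    rw [Perm.sign_mul, map_mul]
    ext v
    simp only [Units.val_mul, Int.cast_mul, LinearMap.smul_apply, Module.End.mul_apply, map_smul,
      smul_smul]
    rw [mul_comm]

theorem sgr_apply (g : Perm (Fin n)) (v : V) : sgr ρ g v = ((Perm.sign g : ℤ) : ℝ) • ρ g v := rfl

theorem sign_mul_self' (g : Perm (Fin n)) :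
    ((Perm.sign g : ℤ) : ℝ) * ((Perm.sign g : ℤ) : ℝ) = 1 := by
  rcases Int.units_eq_one_or (Perm.sign g) with h | h <;> rw [h] <;> simp

theorem Unit.sgr (hρ : Unit ρ) : Unit (sgr ρ) := by
  intro g v w
  rw [sgr_apply, sgr_apply, real_inner_smul_left, real_inner_smul_right, hρ, ← mul_assoc,
    sign_mul_self', one_mul]

theorem sgr_swap {i j : Fin n} (h : i ≠ j) (v : V) : sgr ρ (swap i j) v = -ρ (swap i j) v := by
  rw [sgr_apply, Perm.sign_swap h]
  simp

theorem JM_sgr (k : Fin n) (v : V) : JM (sgr ρ) k v = -JM ρ k v := by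
  rw [JM_apply, JM_apply, ← Finset.sum_neg_distrib]
  refine Finset.sum_congr rfl fun i hi => ?_
  exact sgr_swap (Finset.mem_Iio.mp hi).ne v

theorem KK_sgr (hn : 0 < n) (v : V) : KK (sgr ρ) v = (2 / (n : ℝ)) • v - KK ρ v := by
  have hn' : ((n : ℝ) ^ 2) ≠ 0 := by positivity
  have h1 := KK_JM (ρ := sgr ρ) hn v
  have h2 := KK_JM (ρ := ρ) hn v
  simp_rw [JM_sgr, Finset.sum_neg_distrib, smul_neg] at h1
  have h3 : ((n : ℝ) ^ 2) • KK (sgr ρ) v = ((n : ℝ) ^ 2) • ((2 / (n : ℝ)) • v - KK ρ v) := by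
    rw [smul_sub, h1, h2, smul_smul]
    have : (n : ℝ) ^ 2 * (2 / (n : ℝ)) = n + n := by field_simp; ring
    rw [this, add_smul]
    abel
  exact smul_right_injective V hn' h3

theorem sgr_mem {E : Submodule ℝ V} (hE : ∀ g, ∀ v ∈ E, ρ g v ∈ E) :
    ∀ g, ∀ v ∈ E, sgr ρ g v ∈ E := by
  intro g v hv
  rw [sgr_apply]
  exact Submodule.smul_mem _ _ (hE g v hv)

end

/-! #### part Return -/

noncomputable section

set_option linter.unusedSectionVars false

/-- the space of functions on the symmetric group -/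
abbrev L2 (n : ℕ) : Type := EuclideanSpace ℝ (Perm (Fin n))

/-- point mass -/
def dl {n : ℕ} (g : Perm (Fin n)) : L2 n := EuclideanSpace.single g 1

/-- left regular representation -/
def reg (n : ℕ) : Perm (Fin n) →* (L2 n →ₗ[ℝ] L2 n) where
  toFun g :=
    { toFun := fun f => WithLp.toLp 2 (fun h => f (g⁻¹ * h))
      map_add' := fun _ _ => rfl
      map_smul' := fun _ _ => rfl }
  map_one' := by
    ext f h
    simp
  map_mul' g g' := by
    ext f h
    simp only [mul_inv_rev, mul_assoc]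
    rfl

variable {n : ℕ}

theorem reg_apply (g h : Perm (Fin n)) (f : L2 n) : reg n g f h = f (g⁻¹ * h) := rfl

theorem inner_L2 (f g : L2 n) : ⟪f, g⟫_ℝ = ∑ σ, f σ * g σ := by
  rw [PiLp.inner_apply]
  refine Finset.sum_congr rfl fun σ _ => ?_
  simp only [RCLike.inner_apply, conj_trivial]
  ring

theorem inner_dl (g : Perm (Fin n)) (f : L2 n) : ⟪dl g, f⟫_ℝ = f g := by
  rw [dl, EuclideanSpace.inner_single_left]; simp

theorem inner_dl' (g : Perm (Fin n)) (f : L2 n) : ⟪f, dl g⟫_ℝ = f g := by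
  rw [real_inner_comm, inner_dl]

theorem unit_reg (n : ℕ) : Unit (reg n) := by
  intro g v w
  rw [inner_L2, inner_L2]
  simp_rw [reg_apply]
  exact Equiv.sum_comp (Equiv.mulLeft g⁻¹) fun σ => v σ * w σ

theorem dl_apply (g h : Perm (Fin n)) : dl g h = if h = g then 1 else 0 := by
  rw [dl, EuclideanSpace.single, PiLp.single_apply]

/-- law of the random transposition walk at time `t` started from the identity -/
def law (n : ℕ) : ℕ → Perm (Fin n) → ℝ
  | 0 => fun σ => if σ = 1 then 1 else 0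
  | t + 1 => fun σ => (∑ i, ∑ j, law n t (swap i j * σ)) / (n : ℝ) ^ 2

theorem sum_apply' {ι : Type} (s : Finset ι) (f : ι → L2 n) (σ : Perm (Fin n)) :
    (∑ i ∈ s, f i) σ = ∑ i ∈ s, f i σ := by
  classical
  induction s using Finset.induction_on with
  | empty => simp
  | insert a s ha ih => rw [Finset.sum_insert ha, Finset.sum_insert ha, PiLp.add_apply, ih]

theorem KK_reg_apply (f : L2 n) (σ : Perm (Fin n)) :
    KK (reg n) f σ = (∑ i, ∑ j, f (swap i j * σ)) / (n : ℝ) ^ 2 := by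
  rw [KK_apply, PiLp.smul_apply, sum_apply', smul_eq_mul, div_eq_inv_mul]
  congr 1
  refine Finset.sum_congr rfl fun i _ => ?_
  rw [sum_apply']
  refine Finset.sum_congr rfl fun j _ => ?_
  rw [reg_apply, swap_inv]

theorem law_eq (t : ℕ) (σ : Perm (Fin n)) : law n t σ = ((KK (reg n)) ^ t) (dl 1) σ := by
  induction t generalizing σ with
  | zero =>
    show (if σ = 1 then (1 : ℝ) else 0) = _
    rw [pow_zero, Module.End.one_apply, dl_apply]
  | succ t ih =>
    rw [pow_succ', Module.End.mul_apply, KK_reg_apply]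
    show (∑ i, ∑ j, law n t (swap i j * σ)) / (n : ℝ) ^ 2 = _
    congr 1
    exact Finset.sum_congr rfl fun i _ => Finset.sum_congr rfl fun j _ => ih _

/-! ### the product of `n + J_k^2` -/

variable {V : Type} [NormedAddCommGroup V] [InnerProductSpace ℝ V]
  [FiniteDimensional ℝ V] {ρ : Perm (Fin n) →* (V →ₗ[ℝ] V)}

/-- the product of the operators `n + J_i^2` over `i < k` -/
def PP (ρ : Perm (Fin n) →* (V →ₗ[ℝ] V)) : ℕ → (V →ₗ[ℝ] V)
  | 0 => LinearMap.id
  | k + 1 => if h : k < n then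
      ((n : ℝ) • LinearMap.id + JM ρ ⟨k, h⟩ ∘ₗ JM ρ ⟨k, h⟩) ∘ₗ PP ρ k else PP ρ k

theorem PP_succ {k : ℕ} (h : k < n) (v : V) :
    PP ρ (k + 1) v = (n : ℝ) • PP ρ k v + JM ρ ⟨k, h⟩ (JM ρ ⟨k, h⟩ (PP ρ k v)) := by
  rw [PP, dif_pos h]; rfl

theorem PP_comm (k : ℕ) (i : Fin n) (v : V) : JM ρ i (PP ρ k v) = PP ρ k (JM ρ i v) := by
  induction k with
  | zero => rfl
  | succ k ih =>
    by_cases h : k < n
    · rw [PP_succ h, PP_succ h, map_add, map_smul, ih, ← ih, JM_comm_JM' _ i, JM_comm_JM' _ i]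
    · rw [PP, dif_neg h]; exact ih

theorem Unit.PP_symm (hρ : Unit ρ) (k : ℕ) : Sym (PP ρ k) := by
  induction k with
  | zero => intro v w; rfl
  | succ k ih =>
    intro v w
    by_cases h : k < n
    · rw [PP_succ h, PP_succ h, inner_add_left, inner_add_right, real_inner_smul_left,
        real_inner_smul_right, ih v w, hρ.JM_symm, hρ.JM_symm, ih, PP_comm, PP_comm]
    · rw [PP, dif_neg h]; exact ih v w

theorem PP_eig {v : V} {c : Fin n → ℝ} (hc : ∀ k, JM ρ k v = c k • v) (k : ℕ) (hk : k ≤ n) :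
    PP ρ k v = (∏ i : Fin k, ((n : ℝ) + c (Fin.castLE hk i) ^ 2)) • v := by
  induction k with
  | zero => simp [PP]
  | succ k ih =>
    have h : k < n := hk
    rw [PP_succ h, ih h.le, map_smul, map_smul, hc, map_smul, hc, Fin.prod_univ_castSucc]
    simp only [smul_smul]
    rw [← add_smul]
    congr 1
    have e1 : Fin.castLE hk (Fin.last k) = ⟨k, h⟩ := rfl
    rw [e1]
    have e2 : ∀ i : Fin k, Fin.castLE hk i.castSucc = Fin.castLE h.le i := fun i => rfl
    simp_rw [e2]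
    ring

theorem PP_dl_support (k : ℕ) (hk : k ≤ n) (σ : Perm (Fin n))
    (h : PP (reg n) k (dl 1) σ ≠ 0) : ∀ x : Fin n, k ≤ x.val → σ x = x := by
  induction k generalizing σ with
  | zero =>
    intro x _
    have : σ = 1 := by
      by_contra hσ
      apply h
      show dl 1 σ = 0
      rw [dl_apply, if_neg hσ]
    rw [this]; rfl
  | succ k ih =>
    have hkn : k < n := hk
    intro x hx
    by_contra hσx
    apply h
    rw [PP_succ hkn, PiLp.add_apply, PiLp.smul_apply]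
    have h0 : ∀ τ : Perm (Fin n), InH (Iic ⟨k, hkn⟩) τ → PP (reg n) k (dl 1) (τ * σ) = 0 := by
      intro τ hτ
      by_contra hne
      have h1 := ih hkn.le _ hne x (by omega)
      rw [Perm.mul_apply] at h1
      have h2 : σ x = τ⁻¹ x := Perm.eq_inv_iff_eq.mpr h1
      have h3 : τ⁻¹ x = x := hτ.inv x (by
        rw [Finset.mem_Iic, Fin.le_def]; simp; omega)
      rw [h3] at h2
      exact hσx h2
    have h1 := h0 1 (InH.one _)
    rw [one_mul] at h1
    rw [h1, smul_zero, zero_add, JM_apply, sum_apply']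
    refine Finset.sum_eq_zero fun i hi => ?_
    rw [reg_apply, swap_inv, JM_apply, sum_apply']
    refine Finset.sum_eq_zero fun j hj => ?_
    rw [reg_apply, swap_inv, ← mul_assoc]
    apply h0
    have hi' : i ∈ Iic (⟨k, hkn⟩ : Fin n) := Finset.mem_Iic.mpr (Finset.mem_Iio.mp hi).le
    have hj' : j ∈ Iic (⟨k, hkn⟩ : Fin n) := Finset.mem_Iic.mpr (Finset.mem_Iio.mp hj).le
    exact (InH.swap hj' (by simp)).mul (InH.swap hi' (by simp))

theorem PP_dl_one (k : ℕ) (hk : k ≤ n) :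
    PP (reg n) k (dl 1) 1 = ∏ i ∈ range k, ((n : ℝ) + i) := by
  induction k with
  | zero =>
    show dl 1 1 = _
    rw [dl_apply]; simp
  | succ k ih =>
    have hkn : k < n := hk
    rw [PP_succ hkn, PiLp.add_apply, PiLp.smul_apply, Finset.prod_range_succ, ← ih hkn.le,
      JM_apply, sum_apply']
    have h1 : ∀ i ∈ Iio (⟨k, hkn⟩ : Fin n),
        reg n (swap i ⟨k, hkn⟩) (JM (reg n) ⟨k, hkn⟩ (PP (reg n) k (dl 1))) 1 =
          PP (reg n) k (dl 1) 1 := by
      intro i hi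
      rw [reg_apply, swap_inv, mul_one, JM_apply, sum_apply']
      rw [Finset.sum_eq_single i]
      · rw [reg_apply, swap_inv, swap_mul_self]
      · intro j hj hji
        rw [reg_apply, swap_inv]
        by_contra hne
        have h2 := PP_dl_support k hkn.le _ hne ⟨k, hkn⟩ le_rfl
        rw [Perm.mul_apply, swap_apply_right] at h2
        have hik : i ≠ ⟨k, hkn⟩ := (Finset.mem_Iio.mp hi).ne
        rw [swap_apply_of_ne_of_ne (Ne.symm hji) hik] at h2
        exact hik h2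
      · intro h; exact absurd hi h
    rw [Finset.sum_congr rfl h1, Finset.sum_const, Fin.card_Iio, nsmul_eq_mul, smul_eq_mul]
    ring

/-! ### joint eigenvectors -/

theorem Unit.exists_joint (hρ : Unit ρ) (E : Submodule ℝ V)
    (hE : ∀ k, ∀ v ∈ E, JM ρ k v ∈ E) (hne : E ≠ ⊥) :
    ∃ v ∈ E, v ≠ 0 ∧ ∃ c : Fin n → ℝ, ∀ k, JM ρ k v = c k • v := by
  have key : ∀ m : ℕ, m ≤ n → ∃ F : Submodule ℝ V, F ≤ E ∧ F ≠ ⊥ ∧
      (∀ k, ∀ v ∈ F, JM ρ k v ∈ F) ∧
      ∃ c : Fin n → ℝ, ∀ k : Fin n, k.val < m → ∀ v ∈ F, JM ρ k v = c k • v := by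
    intro m
    induction m with
    | zero =>
      intro _
      exact ⟨E, le_rfl, hne, hE, fun _ => 0, fun k hk => absurd hk (Nat.not_lt_zero _)⟩
    | succ m ih =>
      intro hm
      obtain ⟨F, hFE, hF0, hFJ, c, hc⟩ := ih (by omega)
      let k₀ : Fin n := ⟨m, hm⟩
      obtain ⟨a, w, hwF, hw0, hw⟩ := exists_eig (hρ.JM_symm k₀) F (hFJ k₀) hF0
      let F' : Submodule ℝ V := F ⊓ LinearMap.ker (JM ρ k₀ - a • LinearMap.id)
      have hF' : ∀ u, u ∈ F' ↔ u ∈ F ∧ JM ρ k₀ u = a • u := by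
        intro u
        rw [Submodule.mem_inf, LinearMap.mem_ker, LinearMap.sub_apply, LinearMap.smul_apply,
          LinearMap.id_apply, sub_eq_zero]
      refine ⟨F', inf_le_left.trans hFE, ?_, ?_, Function.update c k₀ a, ?_⟩
      · intro h
        have : w ∈ F' := (hF' w).mpr ⟨hwF, hw⟩
        rw [h, Submodule.mem_bot] at this
        exact hw0 this
      · intro k v hv
        rw [hF'] at hv ⊢
        refine ⟨hFJ k v hv.1, ?_⟩
        rw [JM_comm_JM' k k₀, hv.2, map_smul]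
      · intro k hk v hv
        rw [hF'] at hv
        by_cases hkk : k = k₀
        · rw [hkk, Function.update_self]; exact hv.2
        · rw [Function.update_of_ne hkk]
          refine hc k ?_ v hv.1
          have : k.val ≠ m := fun h => hkk (Fin.ext h)
          omega
  obtain ⟨F, hFE, hF0, _, c, hc⟩ := key n le_rfl
  obtain ⟨v, hv, hv0⟩ := Submodule.exists_mem_ne_zero_of_ne_bot hF0
  exact ⟨v, hFE hv, hv0, c, fun k => hc k k.isLt v hv⟩

theorem Unit.norm_KK_le (hρ : Unit ρ) (hn : 0 < n) (v : V) : ‖KK ρ v‖ ≤ ‖v‖ := by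
  rw [KK_apply, norm_smul, norm_inv, norm_pow, Real.norm_natCast]
  have h1 := hρ.norm_sum_swap_le univ univ v
  rw [Finset.card_univ, Fintype.card_fin] at h1
  have hn' : (0 : ℝ) < (n : ℝ) ^ 2 := by positivity
  rw [inv_mul_le_iff₀ hn', sq]
  exact h1

theorem Unit.abs_eig_le (hρ : Unit ρ) (hn : 0 < n) {v : V} (hv : v ≠ 0) {r : ℝ}
    (h : KK ρ v = r • v) : |r| ≤ 1 := by
  have h1 := hρ.norm_KK_le hn v
  rw [h, norm_smul, Real.norm_eq_abs] at h1
  have h2 : 0 < ‖v‖ := norm_pos_iff.mpr hv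
  exact le_of_mul_le_mul_right (by rwa [one_mul]) h2

theorem pow_eig {S : V →ₗ[ℝ] V} {v : V} {r : ℝ} (h : S v = r • v) (t : ℕ) :
    (S ^ t) v = (r ^ t) • v := by
  induction t with
  | zero => simp
  | succ t ih => rw [pow_succ, Module.End.mul_apply, h, map_smul, ih, smul_smul, pow_succ, mul_comm]

theorem Sym.pow {S : V →ₗ[ℝ] V} (h : Sym S) (t : ℕ) : Sym (S ^ t) := by
  induction t with
  | zero => intro v w; rfl
  | succ t ih =>
    intro v w
    rw [pow_succ, Module.End.mul_apply, ih, h, ← Module.End.mul_apply, ← pow_succ', pow_succ]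

theorem KK_JM_comm (k : Fin n) (v : V) : KK ρ (JM ρ k v) = JM ρ k (KK ρ v) := by
  rw [JM_apply, JM_apply, map_sum]
  exact Finset.sum_congr rfl fun i _ => KK_comm _ _

theorem pow_comm' {S T : V →ₗ[ℝ] V} (h : ∀ v, S (T v) = T (S v)) (t : ℕ) (v : V) :
    (S ^ t) (T v) = T ((S ^ t) v) := by
  induction t generalizing v with
  | zero => rfl
  | succ t ih => rw [pow_succ, Module.End.mul_apply, Module.End.mul_apply, h, ih]

/-- operator inequality from a scalar inequality on joint eigenvectors -/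
theorem Unit.pow_le_PP (hρ : Unit ρ) (t : ℕ) (C : ℝ)
    (h : ∀ v : V, v ≠ 0 → ∀ c : Fin n → ℝ, (∀ k, JM ρ k v = c k • v) → ∀ r : ℝ,
      KK ρ v = r • v → r ^ t ≤ C * ∏ k, ((n : ℝ) + c k ^ 2)) (hn : 0 < n) (v : V) :
    ⟪((KK ρ) ^ t) v, v⟫_ℝ ≤ C * ⟪PP ρ n v, v⟫_ℝ := by
  let X : V →ₗ[ℝ] V := C • PP ρ n - (KK ρ) ^ t
  have hKs : Sym (KK ρ) := fun v w => hρ.KK_symm v w
  have hX : Sym X := by
    intro a b
    show ⟪C • PP ρ n a - ((KK ρ) ^ t) a, b⟫_ℝ = ⟪a, C • PP ρ n b - ((KK ρ) ^ t) b⟫_ℝ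
    rw [inner_sub_left, inner_sub_right, real_inner_smul_left, real_inner_smul_right,
      hρ.PP_symm, hKs.pow]
  have hXJ : ∀ k w, X (JM ρ k w) = JM ρ k (X w) := by
    intro k w
    show C • PP ρ n (JM ρ k w) - ((KK ρ) ^ t) (JM ρ k w) =
      JM ρ k (C • PP ρ n w - ((KK ρ) ^ t) w)
    rw [map_sub, map_smul, PP_comm, pow_comm' (fun v => KK_JM_comm k v)]
  have h1 := nonneg_of_eig hX (by
    intro a w hw hXw
    let E : Submodule ℝ V := LinearMap.ker (X - a • LinearMap.id)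
    have hE : ∀ u, u ∈ E ↔ X u = a • u := by
      intro u
      rw [LinearMap.mem_ker, LinearMap.sub_apply, LinearMap.smul_apply,
          LinearMap.id_apply, sub_eq_zero]
    have hEJ : ∀ k, ∀ u ∈ E, JM ρ k u ∈ E := by
      intro k u hu
      rw [hE] at hu ⊢
      rw [hXJ, hu, map_smul]
    have hne : E ≠ ⊥ := by
      intro h0
      have : w ∈ E := (hE w).mpr hXw
      rw [h0, Submodule.mem_bot] at this
      exact hw this
    obtain ⟨u, huE, hu0, c, hc⟩ := hρ.exists_joint E hEJ hne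
    have hKu : KK ρ u = ((((n : ℝ) + 2 * ∑ k, c k)) / (n : ℝ) ^ 2) • u := by
      have h2 := KK_JM (ρ := ρ) hn u
      have hn' : ((n : ℝ) ^ 2) ≠ 0 := by positivity
      simp_rw [hc] at h2
      rw [← Finset.sum_smul, smul_smul, ← add_smul] at h2
      have h3 : KK ρ u = ((n : ℝ) ^ 2)⁻¹ • (((n : ℝ) ^ 2) • KK ρ u) := by
        rw [smul_smul, inv_mul_cancel₀ hn', one_smul]
      rw [h3, h2, smul_smul, div_eq_inv_mul]
    have hPu := PP_eig hc n le_rfl
    have hXu : X u = (C * ∏ k, ((n : ℝ) + c k ^ 2) -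
        ((((n : ℝ) + 2 * ∑ k, c k)) / (n : ℝ) ^ 2) ^ t) • u := by
      show C • PP ρ n u - ((KK ρ) ^ t) u = _
      rw [hPu, pow_eig hKu, smul_smul, sub_smul]
      rfl
    have h4 : a = C * ∏ k, ((n : ℝ) + c k ^ 2) -
        ((((n : ℝ) + 2 * ∑ k, c k)) / (n : ℝ) ^ 2) ^ t := by
      have h5 := (hE u).mp huE
      rw [hXu] at h5
      have h6 := sub_eq_zero.mpr h5
      rw [← sub_smul] at h6
      rcases smul_eq_zero.mp h6 with h7 | h7
      · linarith
      · exact absurd h7 hu0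
    rw [h4]
    have := h u hu0 c hc _ hKu
    linarith) v
  have h2 : ⟪X v, v⟫_ℝ = C * ⟪PP ρ n v, v⟫_ℝ - ⟪((KK ρ) ^ t) v, v⟫_ℝ := by
    show ⟪C • PP ρ n v - ((KK ρ) ^ t) v, v⟫_ℝ = _
    rw [inner_sub_left, real_inner_smul_left]
  rw [h2] at h1
  linarith

end

/-! #### part Bound -/

noncomputable section

set_option linter.unusedSectionVars false

variable {n : ℕ}

theorem natPow_eq_exp (hn : 0 < n) (m : ℕ) : (n : ℝ) ^ m = Real.exp (m * Real.log n) := by
  have hn' : (0 : ℝ) < n := by exact_mod_cast hn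
  rw [Real.exp_nat_mul, Real.exp_log hn']

theorem scalar_bound (hn : 0 < n) {θ : ℝ} (hθ0 : 0 < θ) (hθ1 : θ ≤ 1) {t : ℕ}
    (ht : (n : ℝ) * Real.log n ≤ 2 * t) {c : Fin n → ℝ}
    (hP : ∀ k, 0 < c k → ∃ i < k, c i = c k - 1) {R : ℝ} (hR0 : 0 ≤ R) (hR1 : R ≤ 1)
    (hR : R * (n : ℝ) ^ 2 ≤ n + 2 * ∑ k, c k) :
    R ^ t ≤ (Real.exp ((Real.sqrt (2 * θ + 2 / n) - 2) * (n * Real.log n)) * ((θ ^ 2)⁻¹) ^ n) *
      ∏ k, ((n : ℝ) + c k ^ 2) := by
  classical
  have hn' : (0 : ℝ) < n := by exact_mod_cast hn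
  have hlog : 0 ≤ Real.log n := Real.log_nonneg (by exact_mod_cast hn)
  set κ : ℝ := 2 * θ + 2 / n with hκ
  have hκ0 : 0 ≤ κ := by positivity
  set s : ℝ := θ * n with hs
  have hs0 : 0 ≤ s := by positivity
  have h1 := sum_content_le hP hs0
  set B : Finset (Fin n) := univ.filter fun k => s < c k with hB
  set b : ℕ := B.card with hb
  have hbn : b ≤ n := by
    rw [hb]; exact card_finset_fin_le B
  have hbn' : (b : ℝ) ≤ n := by exact_mod_cast hbn
  have hb0 : (0 : ℝ) ≤ b := Nat.cast_nonneg b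
  set y : ℝ := b / n + Real.sqrt κ with hy
  have hy0 : 0 ≤ y := by positivity
  have hRy : R ≤ y ^ 2 := by
    have h2 : R * (n : ℝ) ^ 2 ≤ ((b / n) ^ 2 + κ) * (n : ℝ) ^ 2 := by
      have e : ((b / n) ^ 2 + κ) * (n : ℝ) ^ 2 = b ^ 2 + 2 * θ * n ^ 2 + 2 * n := by
        rw [hκ]; field_simp; ring
      rw [e]
      have h3 : 2 * (s * n) = 2 * θ * n ^ 2 := by rw [hs]; ring
      rw [h3] at h1
      nlinarith
    have h3 : R ≤ (b / n) ^ 2 + κ := le_of_mul_le_mul_right h2 (by positivity)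
    have h4 : Real.sqrt κ ^ 2 = κ := Real.sq_sqrt hκ0
    have h5 : 0 ≤ (b : ℝ) / n := by positivity
    have h6 : 0 ≤ Real.sqrt κ := Real.sqrt_nonneg _
    nlinarith
  have hlow : Real.exp (b * Real.log n) * (θ ^ 2) ^ b * Real.exp (n * Real.log n) ≤
      ∏ k, ((n : ℝ) + c k ^ 2) := by
    have h2 : ∏ k, ((n : ℝ) + c k ^ 2) =
        (∏ k ∈ B, ((n : ℝ) + c k ^ 2)) * ∏ k ∈ Bᶜ, ((n : ℝ) + c k ^ 2) :=
      (Finset.prod_mul_prod_compl B _).symm
    have h3 : (θ ^ 2 * n ^ 2) ^ b ≤ ∏ k ∈ B, ((n : ℝ) + c k ^ 2) := by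
      rw [hb, ← Finset.prod_const]
      refine Finset.prod_le_prod (fun k _ => by positivity) fun k hk => ?_
      have hk' : s < c k := (Finset.mem_filter.mp hk).2
      have : s ^ 2 ≤ c k ^ 2 := pow_le_pow_left₀ hs0 hk'.le 2
      rw [hs, mul_pow] at this
      linarith
    have h4 : (n : ℝ) ^ (n - b) ≤ ∏ k ∈ Bᶜ, ((n : ℝ) + c k ^ 2) := by
      have h5 : Bᶜ.card = n - b := by rw [Finset.card_compl, Fintype.card_fin]
      rw [← h5, ← Finset.prod_const]
      refine Finset.prod_le_prod (fun k _ => by positivity) fun k _ => ?_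
      have : 0 ≤ c k ^ 2 := sq_nonneg _
      linarith
    rw [h2]
    refine le_trans (le_of_eq ?_) (mul_le_mul h3 h4 (by positivity) (by
      refine Finset.prod_nonneg fun k _ => ?_
      positivity))
    rw [mul_pow, ← natPow_eq_exp hn, ← natPow_eq_exp hn]
    have h6 : (n : ℝ) ^ n = n ^ (n - b) * n ^ b := by
      rw [← pow_add, Nat.sub_add_cancel hbn]
    rw [h6]
    ring
  have hθb : 1 ≤ ((θ ^ 2)⁻¹) ^ n * (θ ^ 2) ^ b := by
    have h2 : ((θ ^ 2)⁻¹) ^ n = ((θ ^ 2)⁻¹) ^ (n - b) * ((θ ^ 2)⁻¹) ^ b := by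
      rw [← pow_add, Nat.sub_add_cancel hbn]
    have h3 : ((θ ^ 2)⁻¹) ^ b * (θ ^ 2) ^ b = 1 := by
      rw [← mul_pow, inv_mul_cancel₀ (by positivity), one_pow]
    rw [h2, mul_assoc, h3, mul_one]
    apply one_le_pow₀
    rw [one_le_inv₀ (by positivity)]
    exact pow_le_one₀ hθ0.le hθ1
  have hmain : R ^ t ≤ Real.exp ((y - 1) * (n * Real.log n)) := by
    rcases le_or_gt y 1 with h | h
    · calc R ^ t ≤ (y ^ 2) ^ t := pow_le_pow_left₀ hR0 hRy t
        _ = y ^ (2 * t) := by rw [pow_mul]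
        _ ≤ (Real.exp (y - 1)) ^ (2 * t) := by
            refine pow_le_pow_left₀ hy0 ?_ _
            have := Real.add_one_le_exp (y - 1)
            linarith
        _ = Real.exp ((2 * t : ℕ) * (y - 1)) := by rw [Real.exp_nat_mul]
        _ ≤ Real.exp ((y - 1) * (n * Real.log n)) := by
            apply Real.exp_le_exp.mpr
            push_cast
            nlinarith
    · calc R ^ t ≤ 1 := pow_le_one₀ hR0 hR1
        _ ≤ _ := by
            apply Real.one_le_exp
            have : 0 ≤ y - 1 := by linarith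
            positivity
  refine hmain.trans ?_
  calc Real.exp ((y - 1) * (n * Real.log n))
      ≤ Real.exp ((y - 1) * (n * Real.log n)) * (((θ ^ 2)⁻¹) ^ n * (θ ^ 2) ^ b) :=
        le_mul_of_one_le_right (Real.exp_pos _).le hθb
    _ = (Real.exp ((Real.sqrt κ - 2) * (n * Real.log n)) * ((θ ^ 2)⁻¹) ^ n) *
        (Real.exp (b * Real.log n) * (θ ^ 2) ^ b * Real.exp (n * Real.log n)) := by
        have h2 : Real.exp ((y - 1) * (n * Real.log n)) =
            Real.exp ((Real.sqrt κ - 2) * (n * Real.log n)) * Real.exp (b * Real.log n) *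
              Real.exp (n * Real.log n) := by
          rw [← Real.exp_add, ← Real.exp_add]
          congr 1
          rw [hy]
          field_simp
          ring
        rw [h2]; ring
    _ ≤ _ := mul_le_mul_of_nonneg_left hlow (by positivity)

/-- return probability bound -/
theorem law_one_le (hn : 0 < n) {θ : ℝ} (hθ0 : 0 < θ) (hθ1 : θ ≤ 1) {t : ℕ} (hte : Even t)
    (ht : (n : ℝ) * Real.log n ≤ 2 * t) :
    (n.factorial : ℝ) * law n t 1 ≤
      Real.exp (Real.sqrt (2 * θ + 2 / n) * (n * Real.log n)) * (2 / θ ^ 2) ^ n := by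
  have hn' : (0 : ℝ) < n := by exact_mod_cast hn
  set C : ℝ := Real.exp ((Real.sqrt (2 * θ + 2 / n) - 2) * (n * Real.log n)) *
    ((θ ^ 2)⁻¹) ^ n with hC
  have hρ := unit_reg n
  have h1 : law n t 1 ≤ C * ∏ i ∈ range n, ((n : ℝ) + i) := by
    have h2 := hρ.pow_le_PP t C (by
      intro v hv c hc r hr
      have hP : ∀ k, 0 < c k → ∃ i < k, c i = c k - 1 := fun k =>
        hρ.content_pred k v hv c fun i _ => hc i
      have hN : ∀ k, 0 < (fun i => -c i) k → ∃ i < k, (fun i => -c i) i = (fun i => -c i) k - 1 :=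
        fun k => hρ.sgr.content_pred k v hv (fun i => -c i) fun i _ => by
          rw [JM_sgr, hc, neg_smul]
      have hr1 := hρ.abs_eig_le hn hv hr
      have hrn : r * (n : ℝ) ^ 2 = n + 2 * ∑ k, c k := by
        have h3 := KK_JM (ρ := reg n) hn v
        simp_rw [hc] at h3
        rw [hr, ← Finset.sum_smul, smul_smul, smul_smul, ← add_smul] at h3
        have h4 := sub_eq_zero.mpr h3
        rw [← sub_smul] at h4
        rcases smul_eq_zero.mp h4 with h5 | h5
        · linarith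
        · exact absurd h5 hv
      rcases le_or_gt 0 r with h0 | h0
      · exact scalar_bound hn hθ0 hθ1 ht hP h0 (le_of_abs_le hr1) hrn.le
      · have h3 := scalar_bound hn hθ0 hθ1 ht hN (R := -r) (by linarith)
          (by rw [abs_of_neg h0] at hr1; exact hr1) (by
            have e : ∑ k, (fun i => -c i) k = -∑ k, c k := by
              rw [← Finset.sum_neg_distrib]
            rw [e]
            nlinarith)
        rw [hte.neg_pow] at h3
        simp only [neg_sq] at h3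
        exact h3) hn (dl 1)
    rw [inner_dl', inner_dl', PP_dl_one n le_rfl, ← law_eq] at h2
    exact h2
  have h2 : ∏ i ∈ range n, ((n : ℝ) + i) ≤ (2 * (n : ℝ)) ^ n := by
    calc ∏ i ∈ range n, ((n : ℝ) + i) ≤ ∏ i ∈ range n, (2 * (n : ℝ)) := by
          refine Finset.prod_le_prod (fun i _ => by positivity) fun i hi => ?_
          have : (i : ℝ) ≤ n := by exact_mod_cast (Finset.mem_range.mp hi).le
          linarith
      _ = _ := by rw [Finset.prod_const, Finset.card_range]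
  have h3 : (n.factorial : ℝ) ≤ (n : ℝ) ^ n := by
    exact_mod_cast Nat.factorial_le_pow n
  have hC0 : 0 ≤ C := by rw [hC]; positivity
  calc (n.factorial : ℝ) * law n t 1 ≤ (n : ℝ) ^ n * (C * (2 * (n : ℝ)) ^ n) := by
        have h4 : law n t 1 ≤ C * (2 * (n : ℝ)) ^ n :=
          h1.trans (mul_le_mul_of_nonneg_left h2 hC0)
        calc (n.factorial : ℝ) * law n t 1 ≤ n.factorial * (C * (2 * (n : ℝ)) ^ n) :=
              mul_le_mul_of_nonneg_left h4 (by positivity)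
          _ ≤ _ := mul_le_mul_of_nonneg_right h3 (by positivity)
    _ = _ := by
        rw [hC, mul_pow, natPow_eq_exp hn, div_pow, inv_pow]
        have h5 : Real.exp (Real.sqrt (2 * θ + 2 / n) * (n * Real.log n)) =
            Real.exp (n * Real.log n) *
            (Real.exp ((Real.sqrt (2 * θ + 2 / n) - 2) * (n * Real.log n)) *
              Real.exp (n * Real.log n)) := by
          rw [← Real.exp_add, ← Real.exp_add]
          congr 1
          ring
        rw [h5]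
        ring

end

/-! #### part Major -/

noncomputable section

set_option linter.unusedSectionVars false

variable {n : ℕ}

/-! ### convolution operators and the majorant principle -/

/-- operators commuting with right translations -/
def RC (S : L2 n →ₗ[ℝ] L2 n) : Prop := ∀ g h, S (dl g) h = S (dl 1) (h * g⁻¹)

/-- right translation -/
def rt (k : Perm (Fin n)) : L2 n →ₗ[ℝ] L2 n where
  toFun f := WithLp.toLp 2 (fun h => f (h * k))
  map_add' := fun _ _ => rfl
  map_smul' := fun _ _ => rfl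

theorem rt_apply (k h : Perm (Fin n)) (f : L2 n) : rt k f h = f (h * k) := rfl

theorem dl_eq_rt (g : Perm (Fin n)) : dl g = rt g⁻¹ (dl 1) := by
  ext h
  rw [rt_apply, dl_apply, dl_apply]
  congr 1
  rw [mul_inv_eq_one]

/-- commutation with right translations -/
def RC' (S : L2 n →ₗ[ℝ] L2 n) : Prop := ∀ k f, S (rt k f) = rt k (S f)

theorem RC'.rc {S : L2 n →ₗ[ℝ] L2 n} (h : RC' S) : RC S := by
  intro g x
  rw [dl_eq_rt g, h, rt_apply]

theorem RC'.reg (g : Perm (Fin n)) : RC' (reg n g) := by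
  intro k f
  ext h
  rw [reg_apply, rt_apply, rt_apply, reg_apply, mul_assoc]

theorem RC'.smul {S : L2 n →ₗ[ℝ] L2 n} (h : RC' S) (c : ℝ) : RC' (c • S) := by
  intro k f
  rw [LinearMap.smul_apply, LinearMap.smul_apply, h, map_smul]

theorem RC'.add {S T : L2 n →ₗ[ℝ] L2 n} (h : RC' S) (h' : RC' T) : RC' (S + T) := by
  intro k f
  rw [LinearMap.add_apply, LinearMap.add_apply, h, h', map_add]

theorem RC'.sub {S T : L2 n →ₗ[ℝ] L2 n} (h : RC' S) (h' : RC' T) : RC' (S - T) := by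
  intro k f
  rw [LinearMap.sub_apply, LinearMap.sub_apply, h, h', map_sub]

theorem RC'.sum {ι : Type} (s : Finset ι) {S : ι → L2 n →ₗ[ℝ] L2 n} (h : ∀ i ∈ s, RC' (S i)) :
    RC' (∑ i ∈ s, S i) := by
  intro k f
  rw [LinearMap.sum_apply, LinearMap.sum_apply, map_sum]
  exact Finset.sum_congr rfl fun i hi => h i hi k f

theorem RC'.pow {S : L2 n →ₗ[ℝ] L2 n} (h : RC' S) (t : ℕ) : RC' (S ^ t) := by
  induction t with
  | zero => intro k f; rfl
  | succ t ih =>
    intro k f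
    rw [pow_succ, Module.End.mul_apply, Module.End.mul_apply, h, ih]

/-- matrix of an operator -/
def mat (S : L2 n →ₗ[ℝ] L2 n) : Matrix (Perm (Fin n)) (Perm (Fin n)) ℝ := fun h g => S (dl g) h

theorem toLp_eq_sum (x : Perm (Fin n) → ℝ) : (WithLp.toLp 2 x : L2 n) = ∑ g, x g • dl g := by
  ext h
  rw [sum_apply']
  simp_rw [PiLp.smul_apply, dl_apply, smul_eq_mul, mul_ite, mul_one, mul_zero]
  rw [Finset.sum_ite_eq]
  simp

theorem psd_mat {S : L2 n →ₗ[ℝ] L2 n} (hS : Sym S) (h0 : ∀ v, 0 ≤ ⟪S v, v⟫_ℝ) :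
    (mat S).PosSemidef := by
  rw [Matrix.posSemidef_iff_dotProduct_mulVec]
  constructor
  · ext g h
    rw [Matrix.conjTranspose_apply, star_trivial]
    show S (dl g) h = S (dl h) g
    rw [← inner_dl h, ← inner_dl g, ← hS, real_inner_comm]
  · intro x
    have h1 := h0 (WithLp.toLp 2 x)
    have h2 : ⟪S (WithLp.toLp 2 x), (WithLp.toLp 2 x : L2 n)⟫_ℝ =
        star x ⬝ᵥ (mat S).mulVec x := by
      rw [inner_L2, star_trivial, dotProduct]
      refine Finset.sum_congr rfl fun h _ => ?_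
      rw [Matrix.mulVec, dotProduct]
      have e : S (WithLp.toLp 2 x) h = ∑ g, mat S h g * x g := by
        rw [toLp_eq_sum x, map_sum, sum_apply']
        refine Finset.sum_congr rfl fun g _ => ?_
        rw [map_smul, PiLp.smul_apply, smul_eq_mul, mul_comm]; rfl
      rw [e, mul_comm]
    rw [← h2]; exact h1

theorem psd_hpow {M : Matrix (Perm (Fin n)) (Perm (Fin n)) ℝ} (hM : M.PosSemidef) (q : ℕ) :
    (Matrix.of fun h g => M h g ^ q : Matrix (Perm (Fin n)) (Perm (Fin n)) ℝ).PosSemidef := by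
  induction q with
  | zero =>
    rw [Matrix.posSemidef_iff_dotProduct_mulVec]
    constructor
    · ext g h; simp
    · intro x
      have : star x ⬝ᵥ (Matrix.of fun h g => M h g ^ 0 :
          Matrix (Perm (Fin n)) (Perm (Fin n)) ℝ).mulVec x = (∑ g, x g) * (∑ g, x g) := by
        rw [dotProduct, Finset.sum_mul]
        refine Finset.sum_congr rfl fun h _ => ?_
        rw [Matrix.mulVec, dotProduct]
        simp
      rw [this]; exact mul_self_nonneg _
  | succ q ih =>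
    have h1 := ih.hadamard hM
    have h2 : (Matrix.of fun h g => M h g ^ (q + 1) : Matrix (Perm (Fin n)) (Perm (Fin n)) ℝ) =
        Matrix.hadamard (Matrix.of fun h g => M h g ^ q) M := by
      ext h g
      rw [Matrix.hadamard_apply, Matrix.of_apply, Matrix.of_apply, pow_succ]
    rw [h2]; exact h1

theorem sum_nonneg_of_psd {M : Matrix (Perm (Fin n)) (Perm (Fin n)) ℝ} (hM : M.PosSemidef) :
    0 ≤ ∑ h, ∑ g, M h g := by
  rw [Matrix.posSemidef_iff_dotProduct_mulVec] at hM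
  have h1 := hM.2 (fun _ => 1)
  have h2 : star (fun _ : Perm (Fin n) => (1 : ℝ)) ⬝ᵥ M.mulVec (fun _ => 1) =
      ∑ h, ∑ g, M h g := by
    rw [dotProduct]
    refine Finset.sum_congr rfl fun h _ => ?_
    rw [Matrix.mulVec, dotProduct]
    simp
  rw [h2] at h1
  exact h1

/-- The majorant principle. -/
theorem majorant {A B : L2 n →ₗ[ℝ] L2 n} (hA : Sym A) (hB : Sym B) (hA' : RC A) (hB' : RC B)
    (h0 : ∀ v, 0 ≤ ⟪A v, v⟫_ℝ) (hle : ∀ v, ⟪A v, v⟫_ℝ ≤ ⟪B v, v⟫_ℝ) (q : ℕ) :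
    ∑ σ, (A (dl 1) σ) ^ q ≤ ∑ σ, (B (dl 1) σ) ^ q := by
  have hMA := psd_mat hA h0
  have hMB := psd_mat hB fun v => (h0 v).trans (hle v)
  have hSub : Sym (B - A) := by
    intro v w
    rw [LinearMap.sub_apply, LinearMap.sub_apply, inner_sub_left, inner_sub_right, hA, hB]
  have hMD := psd_mat hSub fun v => by
    rw [LinearMap.sub_apply, inner_sub_left]
    linarith [hle v]
  have h1 : ∀ i j : ℕ, 0 ≤ ∑ h, ∑ g, (mat B h g - mat A h g) * (mat B h g ^ i * mat A h g ^ j) := by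
    intro i j
    have h2 := sum_nonneg_of_psd (hMD.hadamard ((psd_hpow hMB i).hadamard (psd_hpow hMA j)))
    exact h2
  have h2 : 0 ≤ ∑ h, ∑ g, (mat B h g ^ q - mat A h g ^ q) := by
    have h3 : ∀ h g, mat B h g ^ q - mat A h g ^ q =
        ∑ i ∈ range q, (mat B h g - mat A h g) * (mat B h g ^ i * mat A h g ^ (q - 1 - i)) := by
      intro h g
      rw [← Finset.mul_sum, (Commute.all _ _).mul_geom_sum₂]
    simp_rw [h3]
    have h4 : ∑ h, ∑ g, ∑ i ∈ range q,
        (mat B h g - mat A h g) * (mat B h g ^ i * mat A h g ^ (q - 1 - i)) =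
        ∑ i ∈ range q, ∑ h, ∑ g,
        (mat B h g - mat A h g) * (mat B h g ^ i * mat A h g ^ (q - 1 - i)) := by
      calc _ = ∑ h, ∑ i ∈ range q, ∑ g,
            (mat B h g - mat A h g) * (mat B h g ^ i * mat A h g ^ (q - 1 - i)) :=
            Finset.sum_congr rfl fun h _ => Finset.sum_comm
        _ = _ := Finset.sum_comm
    rw [h4]
    exact Finset.sum_nonneg fun i _ => h1 i _
  have h3 : ∀ g, ∑ h, (mat B h g ^ q - mat A h g ^ q) =
      ∑ σ, (B (dl 1) σ ^ q - A (dl 1) σ ^ q) := by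
    intro g
    have h4 : ∀ h, mat B h g ^ q - mat A h g ^ q =
        (fun σ => B (dl 1) σ ^ q - A (dl 1) σ ^ q) (h * g⁻¹) := by
      intro h
      show B (dl g) h ^ q - A (dl g) h ^ q = _
      rw [hA' g h, hB' g h]
    simp_rw [h4]
    exact Equiv.sum_comp (Equiv.mulRight g⁻¹) fun σ => B (dl 1) σ ^ q - A (dl 1) σ ^ q
  rw [Finset.sum_comm] at h2
  simp_rw [h3] at h2
  rw [Finset.sum_const, Finset.card_univ, nsmul_eq_mul, Finset.sum_sub_distrib] at h2
  have h4 : (0 : ℝ) < Fintype.card (Perm (Fin n)) := by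
    exact_mod_cast Fintype.card_pos
  have h5 := nonneg_of_mul_nonneg_right h2 h4
  linarith

end

/-! #### part Gp -/

noncomputable section

set_option linter.unusedSectionVars false

variable {n : ℕ} {V : Type} [NormedAddCommGroup V] [InnerProductSpace ℝ V]
  [FiniteDimensional ℝ V] {ρ : Perm (Fin n) →* (V →ₗ[ℝ] V)}

theorem InH_conj (B : Finset (Fin n)) (g h : Perm (Fin n)) :
    InH (B.map g.toEmbedding) (g * h * g⁻¹) ↔ InH B h := by
  constructor
  · intro H x hx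
    have h1 := H (g x) (by simpa using hx)
    have e : g⁻¹ (g x) = x := by simp
    rw [Perm.mul_apply, Perm.mul_apply, e] at h1
    exact g.injective h1
  · intro H x hx
    have h1 := H (g⁻¹ x) (by
      intro h2
      apply hx
      rw [Finset.mem_map]
      exact ⟨g⁻¹ x, h2, by simp⟩)
    have e : g (g⁻¹ x) = x := by simp
    rw [Perm.mul_apply, Perm.mul_apply, h1, e]

theorem HB_map_card (B : Finset (Fin n)) (g : Perm (Fin n)) :
    (HB (B.map g.toEmbedding)).card = (HB B).card := by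
  symm
  refine Finset.card_bij (fun h _ => g * h * g⁻¹) ?_ ?_ ?_
  · intro h hh
    exact mem_HB.mpr ((InH_conj B g h).mpr (mem_HB.mp hh))
  · intro a _ b _ hab
    simpa using hab
  · intro h hh
    refine ⟨g⁻¹ * h * g, ?_, by group⟩
    rw [mem_HB, ← InH_conj B g]
    have : g * (g⁻¹ * h * g) * g⁻¹ = h := by group
    rw [this]; exact mem_HB.mp hh

theorem eB_conj (B : Finset (Fin n)) (g : Perm (Fin n)) (v : V) :
    eB ρ (B.map g.toEmbedding) (ρ g v) = ρ g (eB ρ B v) := by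
  rw [eB_apply, eB_apply, HB_map_card, map_smul, map_sum]
  congr 1
  symm
  refine Finset.sum_bij (fun h _ => g * h * g⁻¹) ?_ ?_ ?_ ?_
  · intro h hh
    exact mem_HB.mpr ((InH_conj B g h).mpr (mem_HB.mp hh))
  · intro a _ b _ hab
    simpa using hab
  · intro h hh
    refine ⟨g⁻¹ * h * g, ?_, by group⟩
    rw [mem_HB, ← InH_conj B g]
    have : g * (g⁻¹ * h * g) * g⁻¹ = h := by group
    rw [this]; exact mem_HB.mp hh
  · intro h _
    rw [← mul_apply', ← mul_apply']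
    congr 2
    group

theorem eB_univ_comm (g : Perm (Fin n)) (v : V) :
    eB ρ univ (ρ g v) = ρ g (eB ρ univ v) := by
  have h := eB_conj (ρ := ρ) univ g v
  rwa [Finset.map_univ_equiv] at h

/-- the operator `∑_A p^|A| (1-p)^(n-|A|) e_{A^c}` -/
def Gp (ρ : Perm (Fin n) →* (V →ₗ[ℝ] V)) (p : ℝ) : V →ₗ[ℝ] V :=
  ∑ A : Finset (Fin n), (p ^ A.card * (1 - p) ^ (n - A.card)) • eB ρ Aᶜ

theorem Gp_apply (p : ℝ) (v : V) :
    Gp ρ p v = ∑ A : Finset (Fin n), (p ^ A.card * (1 - p) ^ (n - A.card)) • eB ρ Aᶜ v := by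
  simp [Gp, LinearMap.sum_apply]

theorem Gp_comm (p : ℝ) (g : Perm (Fin n)) (v : V) : Gp ρ p (ρ g v) = ρ g (Gp ρ p v) := by
  rw [Gp_apply, Gp_apply, map_sum]
  symm
  refine Finset.sum_bij (fun A _ => A.map g.toEmbedding) ?_ ?_ ?_ ?_
  · intro A _; exact mem_univ _
  · intro A _ B _ hab
    exact Finset.map_injective _ hab
  · intro A _
    refine ⟨A.map g⁻¹.toEmbedding, mem_univ _, ?_⟩
    ext x
    simp only [mem_map_equiv]
    have e : (Equiv.symm g⁻¹) ((Equiv.symm g) x) = x := g.apply_symm_apply x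
    rw [e]
  · intro A _
    rw [map_smul, Finset.card_map]
    congr 1
    rw [← eB_conj]
    congr 2
    ext x
    simp

theorem Unit.Gp_symm (hρ : Unit ρ) (p : ℝ) : Sym (Gp ρ p) := by
  intro v w
  rw [Gp_apply, Gp_apply, sum_inner, inner_sum]
  refine Finset.sum_congr rfl fun A _ => ?_
  rw [real_inner_smul_left, real_inner_smul_right, hρ.eB_symm]

theorem Unit.Gp_ge (hρ : Unit ρ) {p : ℝ} (hp0 : 0 ≤ p) (hp1 : p ≤ 1) (A : Finset (Fin n))
    {v : V} (hv : Inv ρ Aᶜ v) :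
    p ^ A.card * (1 - p) ^ (n - A.card) * ‖v‖ ^ 2 ≤ ⟪Gp ρ p v, v⟫_ℝ := by
  have hq : 0 ≤ 1 - p := by linarith
  rw [Gp_apply, sum_inner]
  have h1 : p ^ A.card * (1 - p) ^ (n - A.card) * ‖v‖ ^ 2 =
      ⟪(p ^ A.card * (1 - p) ^ (n - A.card)) • eB ρ Aᶜ v, v⟫_ℝ := by
    rw [real_inner_smul_left, eB_of_inv ρ hv, real_inner_self_eq_norm_sq]
  rw [h1]
  refine Finset.single_le_sum (f := fun A : Finset (Fin n) =>
    ⟪(p ^ A.card * (1 - p) ^ (n - A.card)) • eB ρ Aᶜ v, v⟫_ℝ) (fun B _ => ?_) (mem_univ A)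
  rw [real_inner_smul_left]
  exact mul_nonneg (by positivity) (hρ.inner_eB_nonneg _ _)

theorem Unit.Gp_nonneg (hρ : Unit ρ) {p : ℝ} (hp0 : 0 ≤ p) (hp1 : p ≤ 1) (v : V) :
    0 ≤ ⟪Gp ρ p v, v⟫_ℝ := by
  have hq : 0 ≤ 1 - p := by linarith
  rw [Gp_apply, sum_inner]
  refine Finset.sum_nonneg fun B _ => ?_
  rw [real_inner_smul_left]
  exact mul_nonneg (by positivity) (hρ.inner_eB_nonneg _ _)

theorem Gp_inv (p : ℝ) {v : V} (hv : Inv ρ univ v) : Gp ρ p v = v := by
  rw [Gp_apply]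
  have h1 : ∀ A : Finset (Fin n), eB ρ Aᶜ v = v := fun A =>
    eB_of_inv ρ fun g _ => hv g fun x hx => absurd (mem_univ x) hx
  simp_rw [h1]
  rw [← Finset.sum_smul]
  have h2 : ∑ A : Finset (Fin n), p ^ A.card * (1 - p) ^ (n - A.card) = 1 := by
    have h3 := Finset.sum_pow_mul_eq_add_pow p (1 - p) (univ : Finset (Fin n))
    rw [Finset.powerset_univ, Finset.card_univ, Fintype.card_fin] at h3
    rw [h3]
    ring
  rw [h2, one_smul]

/-! ### levels -/

theorem eB_mem {E : Submodule ℝ V} (hE : ∀ g, ∀ v ∈ E, ρ g v ∈ E) (B : Finset (Fin n)) {v : V}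
    (hv : v ∈ E) : eB ρ B v ∈ E := by
  rw [eB_apply]
  exact Submodule.smul_mem _ _ (Submodule.sum_mem _ fun g _ => hE g v hv)

theorem exists_level (E : Submodule ℝ V) (hE : ∀ g, ∀ v ∈ E, ρ g v ∈ E) (hne : E ≠ ⊥) :
    ∃ A : Finset (Fin n), (∃ v ∈ E, v ≠ 0 ∧ Inv ρ Aᶜ v) ∧
      ∀ A' : Finset (Fin n), A'.card < A.card → ∀ v ∈ E, eB ρ A'ᶜ v = 0 := by
  classical
  let P : Finset (Fin n) → Prop := fun A => ∃ v ∈ E, eB ρ Aᶜ v ≠ 0
  have hP : (univ.filter P).Nonempty := by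
    refine ⟨univ, Finset.mem_filter.mpr ⟨mem_univ _, ?_⟩⟩
    obtain ⟨v, hv, hv0⟩ := Submodule.exists_mem_ne_zero_of_ne_bot hne
    refine ⟨v, hv, ?_⟩
    rw [Finset.compl_univ, eB_of_inv]
    · exact hv0
    · apply inv_of_swaps
      intro i hi; exact absurd hi (Finset.notMem_empty i)
  obtain ⟨A, hA, hmin⟩ := Finset.exists_min_image (univ.filter P) Finset.card hP
  obtain ⟨v, hv, hv0⟩ := (Finset.mem_filter.mp hA).2
  refine ⟨A, ⟨eB ρ Aᶜ v, eB_mem hE _ hv, hv0, inv_eB ρ _ v⟩, ?_⟩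
  intro A' hA' w hw
  by_contra hne'
  have := hmin A' (Finset.mem_filter.mpr ⟨mem_univ _, w, hw, hne'⟩)
  omega

/-- bound for the eigenvalue of `K` on a subrepresentation of exact level `l` -/
theorem Unit.level_bound (hρ : Unit ρ) (E : Submodule ℝ V) (A : Finset (Fin n)) {v : V}
    (hvE : v ∈ E) (hv0 : v ≠ 0) (hv : Inv ρ Aᶜ v)
    (hA : ∀ A' : Finset (Fin n), A'.card < A.card → ∀ v ∈ E, eB ρ A'ᶜ v = 0) {r : ℝ}
    (hr : KK ρ v = r • v) (hn : 0 < n) :
    1 - 2 * A.card * (n + 1) / (n : ℝ) ^ 2 ≤ r ∧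
      r ≤ 1 - 2 * A.card * (n - A.card + 1) / (n : ℝ) ^ 2 := by
  have h1 := hρ.level A hv (fun a ha => hA _ (Finset.card_erase_lt_of_mem ha) v hvE) hr hv0 hn
  have hn' : (0 : ℝ) < (n : ℝ) ^ 2 := by positivity
  rw [abs_le] at h1
  constructor
  · rw [sub_le_iff_le_add, ← sub_le_iff_le_add', le_div_iff₀ hn']
    nlinarith [h1.1]
  · rw [le_sub_iff_add_le, ← le_sub_iff_add_le', div_le_iff₀ hn']
    nlinarith [h1.2]

theorem sum_min_le (m n : ℕ) (_hm : 1 ≤ m) (hmn : m ≤ n) :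
    2 * ∑ k ∈ range n, (min (k : ℝ) ((m : ℝ) - 1)) ≤ (n : ℝ) * (n - 1) - (n - m) * (n - m + 1) := by
  obtain ⟨d, rfl⟩ := Nat.exists_eq_add_of_le hmn
  clear hmn
  induction d with
  | zero =>
    have h1 : ∑ k ∈ range (m + 0), (min (k : ℝ) ((m : ℝ) - 1)) ≤ ∑ k ∈ range m, (k : ℝ) :=
      Finset.sum_le_sum fun k _ => min_le_left _ _
    have h2 : ∀ N : ℕ, 2 * ∑ k ∈ range N, (k : ℝ) = N * (N - 1) := by
      intro N
      induction N with
      | zero => simp
      | succ N ih => rw [Finset.sum_range_succ, mul_add, ih]; push_cast; ring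
    have h3 := h2 m
    push_cast
    nlinarith
  | succ d ih =>
    rw [← add_assoc, Finset.sum_range_succ, mul_add]
    have h1 : min (((m + d : ℕ) : ℝ)) ((m : ℝ) - 1) ≤ (m : ℝ) - 1 := min_le_right _ _
    push_cast at ih h1 ⊢
    nlinarith

/-- bound for the eigenvalue of `K` on a subrepresentation without large symmetric vectors -/
theorem Unit.high_bound (hρ : Unit ρ) (E : Submodule ℝ V) (hE : ∀ g, ∀ v ∈ E, ρ g v ∈ E)
    {m : ℕ} (hm : 1 ≤ m) (hmn : m ≤ n)
    (h0 : ∀ B : Finset (Fin n), B.card = m + 1 → ∀ v ∈ E, eB ρ B v = 0)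
    {v : V} (hvE : v ∈ E) (hv0 : v ≠ 0) {r : ℝ} (hr : KK ρ v = r • v) (hn : 0 < n) :
    r ≤ 1 - ((n : ℝ) - m) * (n - m + 1) / (n : ℝ) ^ 2 := by
  have hn' : (0 : ℝ) < (n : ℝ) ^ 2 := by positivity
  have hv2 : 0 < ‖v‖ ^ 2 := by positivity
  have h1 := KK_JM (ρ := ρ) hn v
  have h2 : r * (n : ℝ) ^ 2 * ‖v‖ ^ 2 = n * ‖v‖ ^ 2 + 2 * ∑ k, ⟪JM ρ k v, v⟫_ℝ := by
    have h3 : ⟪((n : ℝ) ^ 2) • KK ρ v, v⟫_ℝ = ⟪(n : ℝ) • v + (2 : ℝ) • ∑ k, JM ρ k v, v⟫_ℝ := by
      rw [h1]
    rw [hr, real_inner_smul_left, real_inner_smul_left, inner_add_left, real_inner_smul_left,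
      real_inner_smul_left, sum_inner, real_inner_self_eq_norm_sq] at h3
    linarith
  have h3 : ∑ k, ⟪JM ρ k v, v⟫_ℝ ≤ ∑ k : Fin n, min ((k.val : ℝ)) ((m : ℝ) - 1) * ‖v‖ ^ 2 := by
    refine Finset.sum_le_sum fun k _ => ?_
    have h4 := hρ.inner_JM_le k v
    have h5 := hρ.JM_le E hE m hm h0 k v hvE
    rcases min_choice ((k.val : ℝ)) ((m : ℝ) - 1) with h | h
    · rw [h]; exact h4
    · rw [h]; exact h5
  rw [← Finset.sum_mul, Fin.sum_univ_eq_sum_range (fun k => min ((k : ℝ)) ((m : ℝ) - 1)) n] at h3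
  have h4 := sum_min_le m n hm hmn
  have h5 : r * (n : ℝ) ^ 2 * ‖v‖ ^ 2 ≤
      (n + ((n : ℝ) * (n - 1) - (n - m) * (n - m + 1))) * ‖v‖ ^ 2 := by
    rw [h2]; nlinarith
  have h6 : r * (n : ℝ) ^ 2 ≤ n + ((n : ℝ) * (n - 1) - (n - m) * (n - m + 1)) :=
    le_of_mul_le_mul_right h5 hv2
  rw [le_sub_iff_add_le, ← le_sub_iff_add_le', div_le_iff₀ hn']
  nlinarith

end

/-! #### part X -/

noncomputable section

set_option linter.unusedSectionVars false

variable {n : ℕ} {V : Type} [NormedAddCommGroup V] [InnerProductSpace ℝ V]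
  [FiniteDimensional ℝ V] {ρ : Perm (Fin n) →* (V →ₗ[ℝ] V)}

theorem Sym.add {S T : V →ₗ[ℝ] V} (hS : Sym S) (hT : Sym T) : Sym (S + T) := by
  intro v w
  rw [LinearMap.add_apply, LinearMap.add_apply, inner_add_left, inner_add_right, hS, hT]

theorem Sym.sub {S T : V →ₗ[ℝ] V} (hS : Sym S) (hT : Sym T) : Sym (S - T) := by
  intro v w
  rw [LinearMap.sub_apply, LinearMap.sub_apply, inner_sub_left, inner_sub_right, hS, hT]

theorem Sym.smul {S : V →ₗ[ℝ] V} (hS : Sym S) (c : ℝ) : Sym (c • S) := by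
  intro v w
  rw [LinearMap.smul_apply, LinearMap.smul_apply, real_inner_smul_left, real_inner_smul_right, hS]

/-- operators commuting with the representation -/
def Cen (ρ : Perm (Fin n) →* (V →ₗ[ℝ] V)) (S : V →ₗ[ℝ] V) : Prop :=
  ∀ g v, S (ρ g v) = ρ g (S v)

theorem Cen.add {S T : V →ₗ[ℝ] V} (hS : Cen ρ S) (hT : Cen ρ T) : Cen ρ (S + T) := by
  intro g v
  rw [LinearMap.add_apply, LinearMap.add_apply, hS, hT, map_add]

theorem Cen.sub {S T : V →ₗ[ℝ] V} (hS : Cen ρ S) (hT : Cen ρ T) : Cen ρ (S - T) := by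
  intro g v
  rw [LinearMap.sub_apply, LinearMap.sub_apply, hS, hT, map_sub]

theorem Cen.smul {S : V →ₗ[ℝ] V} (hS : Cen ρ S) (c : ℝ) : Cen ρ (c • S) := by
  intro g v
  rw [LinearMap.smul_apply, LinearMap.smul_apply, hS, map_smul]

theorem Cen.pow {S : V →ₗ[ℝ] V} (hS : Cen ρ S) (t : ℕ) : Cen ρ (S ^ t) := by
  intro g v
  exact pow_comm' (fun v => hS g v) t v

theorem cen_KK : Cen ρ (KK ρ) := fun g v => KK_comm g v

theorem cen_Gp (p : ℝ) : Cen ρ (Gp ρ p) := fun g v => Gp_comm p g v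

theorem cen_eB_univ : Cen ρ (eB ρ univ) := fun g v => eB_univ_comm g v

theorem sign_ne_zero' (g : Perm (Fin n)) : ((Perm.sign g : ℤ) : ℝ) ≠ 0 := by
  intro h
  have := sign_mul_self' g
  rw [h] at this
  norm_num at this

theorem cen_Gp_sgr (p : ℝ) : Cen ρ (Gp (sgr ρ) p) := by
  intro g v
  have h := Gp_comm (ρ := sgr ρ) p g v
  rw [sgr_apply, sgr_apply, map_smul] at h
  exact smul_right_injective V (sign_ne_zero' g) h

theorem Cen.comm_KK {S : V →ₗ[ℝ] V} (hS : Cen ρ S) (v : V) : S (KK ρ v) = KK ρ (S v) := by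
  rw [KK_apply, KK_apply, map_smul, map_sum]
  congr 1
  refine Finset.sum_congr rfl fun i _ => ?_
  rw [map_sum]
  exact Finset.sum_congr rfl fun j _ => hS _ _

/-- The main operator inequality. -/
theorem main_ineq (hρ : Unit ρ) (hn : 0 < n) {p β γ : ℝ} (hp0 : 0 ≤ p) (hp1 : p ≤ 1)
    (hβ : 1 ≤ β * (1 - p) ^ n) (hβ0 : 0 ≤ β) {t t0 : ℕ} (hte : Even t) (ht0e : Even t0)
    (htt : t0 ≤ t) {L : ℕ} (hL : L + 2 ≤ n)
    (h1 : ∀ l : ℕ, 1 ≤ l → l ≤ L →
      (1 - 2 * (l : ℝ) * (n - l + 1) / (n : ℝ) ^ 2) ^ t ≤ p ^ l)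
    (h1' : ∀ l : ℕ, l ≤ L → 0 ≤ 1 - 2 * (l : ℝ) * (n + 1) / (n : ℝ) ^ 2)
    (h2 : ∀ l : ℕ, l ≤ L →
      (1 - 2 / n - 2 * (l : ℝ) * (n - l + 1) / (n : ℝ) ^ 2) ^ t ≤ p ^ (l + 1))
    (h2' : ∀ l : ℕ, l ≤ L → 2 / (n : ℝ) ≤ 1 - 2 / n - 2 * (l : ℝ) * (n - l + 1) / (n : ℝ) ^ 2)
    (h3 : 0 ≤ γ) (h3' : (1 - ((L : ℝ) / n) ^ 2) ^ (t - t0) ≤ γ) (v : V) :
    ⟪((KK ρ) ^ t - eB ρ univ) v, v⟫_ℝ ≤
      ⟪(β • (Gp ρ p - eB ρ univ) + (β * p) • Gp (sgr ρ) p + γ • (KK ρ) ^ t0) v, v⟫_ℝ := by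
  have hn' : (0 : ℝ) < n := by exact_mod_cast hn
  set A₀ : V →ₗ[ℝ] V := (KK ρ) ^ t - eB ρ univ with hA₀
  set B₀ : V →ₗ[ℝ] V := β • (Gp ρ p - eB ρ univ) + (β * p) • Gp (sgr ρ) p + γ • (KK ρ) ^ t0
    with hB₀
  have hK : Sym (KK ρ) := fun v w => hρ.KK_symm v w
  have he : Sym (eB ρ univ) := fun v w => hρ.eB_symm univ v w
  have hXs : Sym (B₀ - A₀) := by
    apply Sym.sub
    · exact ((((hρ.Gp_symm p).sub he).smul β).add ((hρ.sgr.Gp_symm p).smul (β * p))).add
        ((hK.pow t0).smul γ)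
    · exact (hK.pow t).sub he
  have hXc : Cen ρ (B₀ - A₀) := by
    apply Cen.sub
    · exact ((((cen_Gp p).sub cen_eB_univ).smul β).add ((cen_Gp_sgr p).smul (β * p))).add
        ((cen_KK.pow t0).smul γ)
    · exact (cen_KK.pow t).sub cen_eB_univ
  have hform : ∀ u : V, ∀ r : ℝ, KK ρ u = r • u → ⟪(B₀ - A₀) u, u⟫_ℝ =
      β * (⟪Gp ρ p u, u⟫_ℝ - ⟪eB ρ univ u, u⟫_ℝ) + β * p * ⟪Gp (sgr ρ) p u, u⟫_ℝ +
        γ * (r ^ t0 * ‖u‖ ^ 2) - (r ^ t * ‖u‖ ^ 2 - ⟪eB ρ univ u, u⟫_ℝ) := by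
    intro u r hr
    rw [hA₀, hB₀]
    simp only [LinearMap.sub_apply, LinearMap.add_apply, LinearMap.smul_apply, inner_sub_left,
      inner_add_left, real_inner_smul_left, pow_eig hr, real_inner_self_eq_norm_sq]
  suffices h : 0 ≤ ⟪(B₀ - A₀) v, v⟫_ℝ by
    rw [LinearMap.sub_apply, inner_sub_left] at h
    linarith
  refine nonneg_of_eig hXs ?_ v
  intro a w hw haw
  let E : Submodule ℝ V := LinearMap.ker ((B₀ - A₀) - a • LinearMap.id)
  have hE : ∀ u, u ∈ E ↔ (B₀ - A₀) u = a • u := by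
    intro u
    rw [LinearMap.mem_ker, LinearMap.sub_apply, LinearMap.smul_apply,
        LinearMap.id_apply, sub_eq_zero]
  have hEK : ∀ u ∈ E, KK ρ u ∈ E := by
    intro u hu
    rw [hE] at hu ⊢
    rw [hXc.comm_KK, hu, map_smul]
  have hne : E ≠ ⊥ := by
    intro h0
    have : w ∈ E := (hE w).mpr haw
    rw [h0, Submodule.mem_bot] at this
    exact hw this
  obtain ⟨r, w', hw'E, hw'0, hrw'⟩ := exists_eig hK E hEK hne
  let F : Submodule ℝ V := E ⊓ LinearMap.ker (KK ρ - r • LinearMap.id)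
  have hF : ∀ u, u ∈ F ↔ (B₀ - A₀) u = a • u ∧ KK ρ u = r • u := by
    intro u
    have h0 : u ∈ LinearMap.ker (KK ρ - r • LinearMap.id) ↔ KK ρ u = r • u := by
      rw [LinearMap.mem_ker, LinearMap.sub_apply, LinearMap.smul_apply,
        LinearMap.id_apply, sub_eq_zero]
    rw [Submodule.mem_inf, hE, h0]
  have hFρ : ∀ g, ∀ u ∈ F, ρ g u ∈ F := by
    intro g u hu
    rw [hF] at hu ⊢
    exact ⟨by rw [hXc, hu.1, map_smul], by rw [KK_comm, hu.2, map_smul]⟩
  have hFne : F ≠ ⊥ := by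
    intro h0
    have : w' ∈ F := (hF w').mpr ⟨(hE w').mp hw'E, hrw'⟩
    rw [h0, Submodule.mem_bot] at this
    exact hw'0 this
  -- it suffices to find a vector with nonnegative form
  have hsuff : ∀ u ∈ F, u ≠ 0 → 0 ≤ ⟪(B₀ - A₀) u, u⟫_ℝ → 0 ≤ a := by
    intro u hu hu0 h
    rw [((hF u).mp hu).1, real_inner_smul_left, real_inner_self_eq_norm_sq] at h
    have : 0 < ‖u‖ ^ 2 := by positivity
    exact nonneg_of_mul_nonneg_left h this
  have hrt0 : 0 ≤ r ^ t0 := ht0e.pow_nonneg r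
  obtain ⟨A, ⟨u, huF, hu0, hu⟩, hA⟩ := exists_level F hFρ hFne
  have hKu : KK ρ u = r • u := ((hF u).mp huF).2
  have hlev := hρ.level_bound F A huF hu0 hu hA hKu hn
  have hu2 : 0 ≤ ‖u‖ ^ 2 := by positivity
  rcases Nat.eq_zero_or_pos A.card with hl0 | hl0
  · -- level zero
    apply hsuff u huF hu0
    have hA0 : A = ∅ := Finset.card_eq_zero.mp hl0
    rw [hA0, Finset.compl_empty] at hu
    have hr1 : r = 1 := by
      rw [hl0] at hlev
      norm_num at hlev
      exact le_antisymm hlev.2 hlev.1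
    rw [hform u r hKu, Gp_inv p hu, eB_of_inv ρ hu, real_inner_self_eq_norm_sq, hr1, one_pow,
      one_pow]
    have h4 := hρ.sgr.Gp_nonneg hp0 hp1 u
    have h5 : 0 ≤ β * p * ⟪Gp (sgr ρ) p u, u⟫_ℝ := by positivity
    nlinarith
  have huniv : ∀ u ∈ F, eB ρ univ u = 0 := by
    intro u hu
    have := hA ∅ (by rw [Finset.card_empty]; exact hl0) u hu
    rwa [Finset.compl_empty] at this
  rcases le_or_gt A.card L with hlL | hlL
  · -- low level
    apply hsuff u huF hu0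
    have h4 := hρ.Gp_ge hp0 hp1 A hu
    have h5 := hρ.sgr.Gp_nonneg hp0 hp1 u
    have hr0 : 0 ≤ r := (h1' A.card hlL).trans hlev.1
    have hrt : r ^ t ≤ p ^ A.card :=
      (pow_le_pow_left₀ hr0 hlev.2 t).trans (h1 A.card hl0 hlL)
    have hq : 0 ≤ 1 - p := by linarith
    have h6 : 1 ≤ β * (1 - p) ^ (n - A.card) := by
      refine hβ.trans (mul_le_mul_of_nonneg_left ?_ hβ0)
      exact pow_le_pow_of_le_one hq (by linarith) (Nat.sub_le _ _)
    have h7 : p ^ A.card * ‖u‖ ^ 2 ≤ β * ⟪Gp ρ p u, u⟫_ℝ := by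
      calc p ^ A.card * ‖u‖ ^ 2 ≤ (p ^ A.card * ‖u‖ ^ 2) * (β * (1 - p) ^ (n - A.card)) :=
            le_mul_of_one_le_right (by positivity) h6
        _ = β * (p ^ A.card * (1 - p) ^ (n - A.card) * ‖u‖ ^ 2) := by ring
        _ ≤ _ := mul_le_mul_of_nonneg_left h4 hβ0
    rw [hform u r hKu, huniv u huF, inner_zero_left]
    have h8 : 0 ≤ β * p * ⟪Gp (sgr ρ) p u, u⟫_ℝ := by positivity
    have h9 : 0 ≤ γ * (r ^ t0 * ‖u‖ ^ 2) := by positivity
    have h10 : r ^ t * ‖u‖ ^ 2 ≤ p ^ A.card * ‖u‖ ^ 2 := mul_le_mul_of_nonneg_right hrt hu2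
    linarith
  -- high level; look at the sign-twisted level
  obtain ⟨A', ⟨u', hu'F, hu'0, hu'⟩, hA'⟩ := exists_level (ρ := sgr ρ) F (sgr_mem hFρ) hFne
  have hKu' : KK ρ u' = r • u' := ((hF u').mp hu'F).2
  have hKs : ∀ z ∈ F, KK (sgr ρ) z = (2 / (n : ℝ) - r) • z := by
    intro z hz
    rw [KK_sgr hn, ((hF z).mp hz).2, sub_smul]
  have hlev' := hρ.sgr.level_bound F A' hu'F hu'0 hu' hA' (hKs u' hu'F) hn
  have hu2' : 0 ≤ ‖u'‖ ^ 2 := by positivity
  rcases le_or_gt A'.card L with hlL' | hlL'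
  · apply hsuff u' hu'F hu'0
    have h4 := hρ.sgr.Gp_ge hp0 hp1 A' hu'
    have h5 := hρ.Gp_nonneg hp0 hp1 u'
    set y : ℝ := 1 - 2 / n - 2 * (A'.card : ℝ) * (n - A'.card + 1) / (n : ℝ) ^ 2 with hy
    have hry : |r| ≤ y := by
      rw [abs_le]
      constructor
      · linarith [hlev'.2]
      · have := h1' A'.card hlL'
        have h6 := h2' A'.card hlL'
        linarith [hlev'.1]
    have hrt : r ^ t ≤ p ^ (A'.card + 1) := by
      calc r ^ t = |r| ^ t := (hte.pow_abs r).symm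
        _ ≤ y ^ t := pow_le_pow_left₀ (abs_nonneg r) hry t
        _ ≤ _ := h2 A'.card hlL'
    have hq : 0 ≤ 1 - p := by linarith
    have h6 : 1 ≤ β * (1 - p) ^ (n - A'.card) := by
      refine hβ.trans (mul_le_mul_of_nonneg_left ?_ hβ0)
      exact pow_le_pow_of_le_one hq (by linarith) (Nat.sub_le _ _)
    have h7 : p ^ (A'.card + 1) * ‖u'‖ ^ 2 ≤ β * p * ⟪Gp (sgr ρ) p u', u'⟫_ℝ := by
      calc p ^ (A'.card + 1) * ‖u'‖ ^ 2
          ≤ (p ^ (A'.card + 1) * ‖u'‖ ^ 2) * (β * (1 - p) ^ (n - A'.card)) :=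
            le_mul_of_one_le_right (by positivity) h6
        _ = β * p * (p ^ A'.card * (1 - p) ^ (n - A'.card) * ‖u'‖ ^ 2) := by ring
        _ ≤ _ := mul_le_mul_of_nonneg_left h4 (by positivity)
    rw [hform u' r hKu', huniv u' hu'F, inner_zero_left]
    have h8 : 0 ≤ β * ⟪Gp ρ p u', u'⟫_ℝ := by positivity
    have h9 : 0 ≤ γ * (r ^ t0 * ‖u'‖ ^ 2) := by positivity
    have h10 : r ^ t * ‖u'‖ ^ 2 ≤ p ^ (A'.card + 1) * ‖u'‖ ^ 2 :=
      mul_le_mul_of_nonneg_right hrt hu2'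
    linarith
  · apply hsuff u huF hu0
    have hm : 1 ≤ n - L - 1 := by omega
    have hmn : n - L - 1 ≤ n := by omega
    have hcast : ((n - L - 1 : ℕ) : ℝ) = (n : ℝ) - L - 1 := by
      rw [Nat.cast_sub (by omega), Nat.cast_sub (by omega)]; norm_num
    have h4 := hρ.high_bound F hFρ hm hmn (by
      intro B hB z hz
      have h5 := hA Bᶜ (by rw [Finset.card_compl, Fintype.card_fin]; omega) z hz
      rwa [compl_compl] at h5) huF hu0 hKu hn
    have h5 := hρ.sgr.high_bound F (sgr_mem hFρ) hm hmn (by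
      intro B hB z hz
      have h5 := hA' Bᶜ (by rw [Finset.card_compl, Fintype.card_fin]; omega) z hz
      rwa [compl_compl] at h5) huF hu0 (hKs u huF) hn
    rw [hcast] at h4 h5
    have h6 : ((L : ℝ) / n) ^ 2 ≤
        ((n : ℝ) - ((n : ℝ) - L - 1)) * (n - ((n : ℝ) - L - 1) + 1) / (n : ℝ) ^ 2 := by
      rw [div_pow]
      gcongr
      nlinarith [(Nat.cast_nonneg L : (0 : ℝ) ≤ L)]
    have hrz : |r| ≤ 1 - ((L : ℝ) / n) ^ 2 := by
      rw [abs_le]
      have h7 : 0 ≤ 2 / (n : ℝ) := by positivity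
      constructor <;> linarith
    have hrt : r ^ t ≤ γ * r ^ t0 := by
      have h7 : r ^ t = r ^ t0 * r ^ (t - t0) := by rw [← pow_add, Nat.add_sub_cancel' htt]
      have h8 : r ^ (t - t0) ≤ γ := by
        calc r ^ (t - t0) ≤ |r ^ (t - t0)| := le_abs_self _
          _ = |r| ^ (t - t0) := abs_pow _ _
          _ ≤ (1 - ((L : ℝ) / n) ^ 2) ^ (t - t0) := pow_le_pow_left₀ (abs_nonneg r) hrz _
          _ ≤ γ := h3'
      rw [h7, mul_comm γ]
      exact mul_le_mul_of_nonneg_left h8 hrt0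
    rw [hform u r hKu, huniv u huF, inner_zero_left]
    have h7 := hρ.Gp_nonneg hp0 hp1 u
    have h8 := hρ.sgr.Gp_nonneg hp0 hp1 u
    have h9 : 0 ≤ β * ⟪Gp ρ p u, u⟫_ℝ := by positivity
    have h10 : 0 ≤ β * p * ⟪Gp (sgr ρ) p u, u⟫_ℝ := by positivity
    have h11 : r ^ t * ‖u‖ ^ 2 ≤ γ * r ^ t0 * ‖u‖ ^ 2 := mul_le_mul_of_nonneg_right hrt hu2
    nlinarith

/-- `K^t - e` is positive semidefinite for even `t` -/
theorem A_nonneg (hρ : Unit ρ) (hn : 0 < n) {t : ℕ} (hte : Even t) (v : V) :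
    0 ≤ ⟪((KK ρ) ^ t - eB ρ univ) v, v⟫_ℝ := by
  have hK : Sym (KK ρ) := fun v w => hρ.KK_symm v w
  have he : Sym (eB ρ univ) := fun v w => hρ.eB_symm univ v w
  have hKe : ∀ w : V, KK ρ (eB ρ univ w) = eB ρ univ w := by
    intro w
    have h1 := inv_eB ρ univ w
    have hn' : ((n : ℝ) ^ 2) ≠ 0 := by positivity
    rw [KK_apply]
    have h2 : ∀ i j, ρ (swap i j) (eB ρ univ w) = eB ρ univ w := fun i j =>
      h1 _ fun x hx => absurd (mem_univ x) hx
    simp_rw [h2]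
    rw [Finset.sum_const, Finset.sum_const, Finset.card_univ, Fintype.card_fin,
      ← Nat.cast_smul_eq_nsmul ℝ, ← Nat.cast_smul_eq_nsmul ℝ, smul_smul, smul_smul]
    have : ((n : ℝ) ^ 2)⁻¹ * (n * n) = 1 := by
      rw [← sq, inv_mul_cancel₀ hn']
    rw [mul_assoc, this, one_smul]
  obtain ⟨s, hs⟩ := hte
  have hpe : ∀ s : ℕ, ∀ w : V, ((KK ρ) ^ s) (eB ρ univ w) = eB ρ univ w := by
    intro s
    induction s with
    | zero => intro w; rfl
    | succ s ih => intro w; rw [pow_succ, Module.End.mul_apply, hKe, ih]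
  have hee : ∀ w : V, eB ρ univ (eB ρ univ w) = eB ρ univ w := fun w =>
    eB_of_inv ρ (inv_eB ρ univ w)
  have hcomm : ∀ w : V, eB ρ univ (((KK ρ) ^ s) w) = eB ρ univ w := by
    intro w
    rw [← pow_comm' (fun v => (cen_eB_univ.comm_KK v).symm) s w, hpe]
  have h1 : ((KK ρ) ^ t - eB ρ univ) v = ((KK ρ) ^ s - eB ρ univ) (((KK ρ) ^ s - eB ρ univ) v) := by
    simp only [LinearMap.sub_apply, map_sub, hpe, hee, hcomm]
    rw [hs, pow_add, Module.End.mul_apply]
    abel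
  have h2 : Sym ((KK ρ) ^ s - eB ρ univ) := (hK.pow s).sub he
  rw [h1, h2, real_inner_self_eq_norm_sq]
  positivity

end

/-! #### part Ker -/

noncomputable section

set_option linter.unusedSectionVars false

variable {n : ℕ}

/-! ### kernels of the operators in the regular representation -/

theorem reg_dl (g σ : Perm (Fin n)) : reg n g (dl 1) σ = if g = σ then 1 else 0 := by
  rw [reg_apply, dl_apply]
  congr 1
  rw [inv_mul_eq_one]

theorem eB_reg_dl (B : Finset (Fin n)) (σ : Perm (Fin n)) :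
    eB (reg n) B (dl 1) σ = if InH B σ then ((HB B).card : ℝ)⁻¹ else 0 := by
  rw [eB_apply, PiLp.smul_apply, sum_apply']
  simp_rw [reg_dl]
  rw [Finset.sum_ite_eq', smul_eq_mul]
  by_cases h : InH B σ
  · rw [if_pos h, if_pos (mem_HB.mpr h), mul_one]
  · rw [if_neg h, if_neg (fun h' => h (mem_HB.mp h')), mul_zero]

theorem eB_sgr_dl (B : Finset (Fin n)) (σ : Perm (Fin n)) :
    eB (RT.sgr (reg n)) B (dl 1) σ =
      ((Perm.sign σ : ℤ) : ℝ) * eB (reg n) B (dl 1) σ := by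
  rw [eB_apply, eB_apply, PiLp.smul_apply, sum_apply', PiLp.smul_apply, sum_apply']
  simp_rw [sgr_apply, PiLp.smul_apply, reg_dl, smul_eq_mul]
  rw [mul_left_comm]
  congr 1
  rw [Finset.mul_sum]
  refine Finset.sum_congr rfl fun g _ => ?_
  by_cases h : g = σ
  · rw [h]
  · rw [if_neg h, mul_zero, mul_zero]

theorem card_HB (B : Finset (Fin n)) : (HB B).card = (B.card)! := by
  have h1 := Fintype.card_congr (Equiv.Perm.subtypeEquivSubtypePerm (fun x : Fin n => x ∈ B))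
  rw [Fintype.card_perm, Fintype.card_coe] at h1
  rw [h1, HB, Fintype.card_subtype]
  congr 1

/-- the set of fixed points -/
def Fx (σ : Perm (Fin n)) : Finset (Fin n) := univ.filter fun x => σ x = x

theorem mem_Fx {σ : Perm (Fin n)} {x : Fin n} : x ∈ Fx σ ↔ σ x = x := by simp [Fx]

theorem InH_compl {A : Finset (Fin n)} {σ : Perm (Fin n)} : InH Aᶜ σ ↔ A ⊆ Fx σ := by
  constructor
  · intro h x hx
    exact mem_Fx.mpr (h x (by rw [Finset.mem_compl]; exact fun h' => h' hx))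
  · intro h x hx
    rw [Finset.mem_compl, not_not] at hx
    exact mem_Fx.mp (h hx)

theorem card_compl' (A : Finset (Fin n)) : Aᶜ.card = n - A.card := by
  rw [Finset.card_compl, Fintype.card_fin]

theorem card_le' (A : Finset (Fin n)) : A.card ≤ n := by
  have := Finset.card_le_univ A
  rwa [Fintype.card_fin] at this

/-- kernel of `Gp` -/
theorem Gp_dl (p : ℝ) (σ : Perm (Fin n)) :
    (n ! : ℝ) * Gp (reg n) p (dl 1) σ =
      ∑ A ∈ (Fx σ).powerset, p ^ A.card * (1 - p) ^ (n - A.card) * (n.descFactorial A.card) := by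
  rw [Gp_apply, sum_apply', Finset.mul_sum]
  simp_rw [PiLp.smul_apply, eB_reg_dl, InH_compl, card_HB, card_compl', smul_eq_mul]
  rw [← Finset.sum_filter_add_sum_filter_not univ (fun A : Finset (Fin n) => A ⊆ Fx σ)]
  have h1 : (univ.filter fun A : Finset (Fin n) => A ⊆ Fx σ) = (Fx σ).powerset := by
    ext A; simp
  rw [h1]
  have h2 : ∑ A ∈ univ.filter (fun A : Finset (Fin n) => ¬ A ⊆ Fx σ),
      (n ! : ℝ) * (p ^ A.card * (1 - p) ^ (n - A.card) *
        (if A ⊆ Fx σ then (((n - A.card)! : ℕ) : ℝ)⁻¹ else 0)) = 0 := by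
    refine Finset.sum_eq_zero fun A hA => ?_
    rw [if_neg (Finset.mem_filter.mp hA).2, mul_zero, mul_zero]
  rw [h2, add_zero]
  refine Finset.sum_congr rfl fun A hA => ?_
  rw [if_pos (Finset.mem_powerset.mp hA)]
  have h3 := Nat.factorial_mul_descFactorial (card_le' A)
  have h4 : ((n - A.card)! : ℝ) ≠ 0 := by exact_mod_cast (Nat.factorial_pos _).ne'
  rw [← h3]
  push_cast
  field_simp

theorem Gp_sgr_dl (p : ℝ) (σ : Perm (Fin n)) :
    Gp (RT.sgr (reg n)) p (dl 1) σ = ((Perm.sign σ : ℤ) : ℝ) * Gp (reg n) p (dl 1) σ := by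
  rw [Gp_apply, sum_apply', Gp_apply, sum_apply', Finset.mul_sum]
  refine Finset.sum_congr rfl fun A _ => ?_
  rw [PiLp.smul_apply, PiLp.smul_apply, eB_sgr_dl, smul_eq_mul, smul_eq_mul]
  ring

theorem Gp_dl_le {p : ℝ} (hp0 : 0 ≤ p) (hp1 : p ≤ 1) (σ : Perm (Fin n)) :
    (n ! : ℝ) * Gp (reg n) p (dl 1) σ ≤ (1 + n * p) ^ (Fx σ).card := by
  rw [Gp_dl]
  have h0 := Finset.sum_pow_mul_eq_add_pow ((n : ℝ) * p) 1 (Fx σ)
  rw [add_comm 1 ((n : ℝ) * p), ← h0]
  refine Finset.sum_le_sum fun A _ => ?_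
  have hq : 0 ≤ 1 - p := by linarith
  have h1 : (1 - p) ^ (n - A.card) ≤ 1 := pow_le_one₀ hq (by linarith)
  have h2 : (n.descFactorial A.card : ℝ) ≤ (n : ℝ) ^ A.card := by
    exact_mod_cast Nat.descFactorial_le_pow n A.card
  rw [one_pow, mul_one, mul_pow]
  calc p ^ A.card * (1 - p) ^ (n - A.card) * (n.descFactorial A.card)
      ≤ p ^ A.card * 1 * (n : ℝ) ^ A.card := by gcongr
    _ = _ := by ring

theorem le_Gp_dl {p : ℝ} (hp0 : 0 ≤ p) (hp1 : p ≤ 1) (σ : Perm (Fin n)) :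
    (1 - p) ^ n ≤ (n ! : ℝ) * Gp (reg n) p (dl 1) σ := by
  rw [Gp_dl]
  have hq : 0 ≤ 1 - p := by linarith
  have h1 := Finset.single_le_sum (f := fun A : Finset (Fin n) =>
    p ^ A.card * (1 - p) ^ (n - A.card) * (n.descFactorial A.card : ℝ))
    (s := (Fx σ).powerset) (fun A _ => by positivity) (Finset.empty_mem_powerset (Fx σ))
  simpa using h1

theorem eB_univ_dl (σ : Perm (Fin n)) : (n ! : ℝ) * eB (reg n) univ (dl 1) σ = 1 := by
  have h0 : InH univ σ := fun x hx => absurd (mem_univ x) hx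
  rw [eB_reg_dl, if_pos h0, card_HB, Finset.card_univ,
    Fintype.card_fin, mul_inv_cancel₀]
  exact_mod_cast (Nat.factorial_pos _).ne'

/-! ### moments of the number of fixed points -/

theorem sum_pow_Fx (y : ℝ) :
    ∑ σ : Perm (Fin n), (1 + y) ^ (Fx σ).card = (n ! : ℝ) * ∑ k ∈ range (n + 1), y ^ k / k ! := by
  have h1 : ∀ σ : Perm (Fin n), (1 + y) ^ (Fx σ).card =
      ∑ A : Finset (Fin n), if InH Aᶜ σ then y ^ A.card else 0 := by
    intro σ
    have h0 := Finset.sum_pow_mul_eq_add_pow y 1 (Fx σ)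
    rw [add_comm, ← h0, ← Finset.sum_filter]
    have h2 : (univ.filter fun A : Finset (Fin n) => InH Aᶜ σ) = (Fx σ).powerset := by
      ext A; simp [InH_compl]
    rw [h2]
    exact Finset.sum_congr rfl fun A _ => by rw [one_pow, mul_one]
  simp_rw [h1]
  rw [Finset.sum_comm]
  have h2 : ∀ A : Finset (Fin n), ∑ σ : Perm (Fin n), (if InH Aᶜ σ then y ^ A.card else 0) =
      ((n - A.card)! : ℝ) * y ^ A.card := by
    intro A
    rw [← Finset.sum_filter, Finset.sum_const, nsmul_eq_mul]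
    congr 1
    have h3 : (univ.filter fun σ : Perm (Fin n) => InH Aᶜ σ) = HB Aᶜ := by
      ext σ; simp [mem_HB]
    rw [h3, card_HB, card_compl']
  simp_rw [h2]
  have h3 := Finset.sum_powerset_apply_card (x := (univ : Finset (Fin n)))
    (fun k => ((n - k)! : ℝ) * y ^ k)
  rw [Finset.powerset_univ, Finset.card_univ, Fintype.card_fin] at h3
  rw [h3, Finset.mul_sum]
  refine Finset.sum_congr rfl fun k hk => ?_
  have hk' : k ≤ n := Nat.lt_succ_iff.mp (Finset.mem_range.mp hk)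
  have h4 := Nat.choose_mul_factorial_mul_factorial hk'
  have h5 : (k ! : ℝ) ≠ 0 := by exact_mod_cast (Nat.factorial_pos _).ne'
  rw [nsmul_eq_mul, ← h4]
  push_cast
  field_simp

theorem mean_pow_Fx {y : ℝ} (hy : 1 ≤ y) :
    (n ! : ℝ)⁻¹ * ∑ σ : Perm (Fin n), y ^ (Fx σ).card ≤ Real.exp (y - 1) := by
  have h1 := sum_pow_Fx (n := n) (y - 1)
  rw [add_sub_cancel] at h1
  have h2 : (n ! : ℝ) ≠ 0 := by exact_mod_cast (Nat.factorial_pos _).ne'
  rw [h1, ← mul_assoc, inv_mul_cancel₀ h2, one_mul]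
  exact Real.sum_le_exp_of_nonneg (by linarith) _

theorem sub_one_pow_le {z : ℝ} (hz : 1 ≤ z) {q : ℕ} (hq : 1 ≤ q) : (z - 1) ^ q ≤ z ^ q - 1 := by
  obtain ⟨r, rfl⟩ := Nat.exists_eq_add_of_le hq
  have h0 : 0 ≤ z - 1 := by linarith
  have h1 : (z - 1) ^ r ≤ z ^ r := pow_le_pow_left₀ h0 (by linarith) r
  have h2 : 1 ≤ z ^ r := one_le_pow₀ hz
  calc (z - 1) ^ (1 + r) = (z - 1) * (z - 1) ^ r := by rw [pow_add, pow_one]
    _ ≤ (z - 1) * z ^ r := mul_le_mul_of_nonneg_left h1 h0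
    _ = z ^ (1 + r) - z ^ r := by rw [pow_add, pow_one]; ring
    _ ≤ _ := by linarith

theorem mean_const (c : ℝ) : (n ! : ℝ)⁻¹ * ∑ _σ : Perm (Fin n), c = c := by
  rw [Finset.sum_const, Finset.card_univ, Fintype.card_perm, Fintype.card_fin, nsmul_eq_mul,
    ← mul_assoc, inv_mul_cancel₀, one_mul]
  exact_mod_cast (Nat.factorial_pos _).ne'

theorem mean_mono {f g : Perm (Fin n) → ℝ} (h : ∀ σ, f σ ≤ g σ) :
    (n ! : ℝ)⁻¹ * ∑ σ, f σ ≤ (n ! : ℝ)⁻¹ * ∑ σ, g σ :=
  mul_le_mul_of_nonneg_left (Finset.sum_le_sum fun σ _ => h σ) (by positivity)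

theorem mean_Gp_sub_one {p : ℝ} (hp0 : 0 ≤ p) (hp1 : p ≤ 1) {q : ℕ} (hq : 1 ≤ q)
    (hqe : Even q) :
    (n ! : ℝ)⁻¹ * ∑ σ : Perm (Fin n), ((n ! : ℝ) * Gp (reg n) p (dl 1) σ - 1) ^ q ≤
      (n * p) ^ q + (Real.exp ((1 + n * p) ^ q - 1) - 1) := by
  have hnp : 0 ≤ (n : ℝ) * p := by positivity
  have h1 : ∀ σ : Perm (Fin n), ((n ! : ℝ) * Gp (reg n) p (dl 1) σ - 1) ^ q ≤
      (n * p) ^ q + (((1 + n * p) ^ q) ^ (Fx σ).card - 1) := by
    intro σ
    have h2 := Gp_dl_le hp0 hp1 σ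
    have h3 := le_Gp_dl hp0 hp1 σ
    have h4 : 1 - n * p ≤ (1 - p) ^ n := by
      have := one_add_mul_le_pow (a := -p) (by linarith) n
      have e : (1 : ℝ) + -p = 1 - p := by ring
      rw [e] at this
      linarith
    set z := (1 + (n : ℝ) * p) ^ (Fx σ).card with hz
    have hz1 : 1 ≤ z := one_le_pow₀ (by linarith)
    have h5 : ((1 + (n : ℝ) * p) ^ q) ^ (Fx σ).card = z ^ q := by
      rw [hz]; exact pow_right_comm _ _ _
    rw [h5]
    have h6 := sub_one_pow_le hz1 hq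
    set x := (n ! : ℝ) * Gp (reg n) p (dl 1) σ with hx
    rcases le_total 1 x with h | h
    · have h7 : (x - 1) ^ q ≤ (z - 1) ^ q := pow_le_pow_left₀ (by linarith) (by linarith) q
      have h8 : 0 ≤ ((n : ℝ) * p) ^ q := by positivity
      linarith
    · have h7 : (1 - x) ^ q ≤ (n * p) ^ q := pow_le_pow_left₀ (by linarith) (by linarith) q
      have h8 : (x - 1) ^ q = (1 - x) ^ q := by
        rw [← hqe.neg_pow]; congr 1; ring
      have h9 : 1 ≤ z ^ q := one_le_pow₀ hz1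
      rw [h8]; linarith
  refine (mean_mono h1).trans ?_
  rw [Finset.sum_add_distrib, Finset.sum_sub_distrib, mul_add, mul_sub, mean_const, mean_const]
  have h2 := mean_pow_Fx (n := n) (y := (1 + (n : ℝ) * p) ^ q) (one_le_pow₀ (by linarith))
  linarith

theorem mean_Gp_pow {p : ℝ} (hp0 : 0 ≤ p) (hp1 : p ≤ 1) (q : ℕ) :
    (n ! : ℝ)⁻¹ * ∑ σ : Perm (Fin n), ((n ! : ℝ) * Gp (reg n) p (dl 1) σ) ^ q ≤
      Real.exp ((1 + n * p) ^ q - 1) := by
  have hnp : 0 ≤ (n : ℝ) * p := by positivity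
  refine (mean_mono (g := fun σ => ((1 + n * p) ^ q) ^ (Fx σ).card) fun σ => ?_).trans
    (mean_pow_Fx (one_le_pow₀ (by linarith)))
  have h2 := Gp_dl_le hp0 hp1 σ
  have h3 := le_Gp_dl hp0 hp1 σ
  have hq : 0 ≤ 1 - p := by linarith
  have h4 : 0 ≤ (1 - p) ^ n := by positivity
  calc ((n ! : ℝ) * Gp (reg n) p (dl 1) σ) ^ q ≤ ((1 + (n : ℝ) * p) ^ (Fx σ).card) ^ q :=
        pow_le_pow_left₀ (h4.trans h3) h2 q
    _ = _ := pow_right_comm _ _ _

end

/-! #### part Even -/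

noncomputable section

set_option linter.unusedSectionVars false

variable {n : ℕ}

theorem law_nonneg (t : ℕ) (σ : Perm (Fin n)) : 0 ≤ law n t σ := by
  induction t generalizing σ with
  | zero =>
    show 0 ≤ if σ = 1 then (1 : ℝ) else 0
    split_ifs <;> norm_num
  | succ t ih =>
    show 0 ≤ (∑ i, ∑ j, law n t (swap i j * σ)) / (n : ℝ) ^ 2
    exact div_nonneg (Finset.sum_nonneg fun i _ => Finset.sum_nonneg fun j _ => ih _)
      (by positivity)

theorem rc'_KK : RC' (KK (reg n)) := by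
  unfold KK
  exact (RC'.sum _ fun i _ => RC'.sum _ fun j _ => RC'.reg _).smul _

theorem rc'_eB (B : Finset (Fin n)) : RC' (eB (reg n) B) := by
  unfold eB
  exact (RC'.sum _ fun i _ => RC'.reg _).smul _

theorem rc'_eB_sgr (B : Finset (Fin n)) : RC' (eB (RT.sgr (reg n)) B) := by
  unfold eB
  exact (RC'.sum _ fun i _ => (RC'.reg _).smul _).smul _

theorem rc'_Gp (p : ℝ) : RC' (Gp (reg n) p) := by
  unfold Gp
  exact RC'.sum _ fun A _ => (rc'_eB _).smul _

theorem rc'_Gp_sgr (p : ℝ) : RC' (Gp (RT.sgr (reg n)) p) := by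
  unfold Gp
  exact RC'.sum _ fun A _ => (rc'_eB_sgr _).smul _

theorem law_le_one {t : ℕ} (hte : Even t) (σ : Perm (Fin n)) : law n t σ ≤ law n t 1 := by
  obtain ⟨s, rfl⟩ := hte
  have hK : Sym (KK (reg n)) := fun v w => (unit_reg n).KK_symm v w
  have h1 : ∀ g : Perm (Fin n), ‖((KK (reg n)) ^ s) (dl g)‖ ^ 2 = law n (s + s) 1 := by
    intro g
    rw [← real_inner_self_eq_norm_sq, hK.pow s, ← Module.End.mul_apply, ← pow_add, inner_dl,
      (rc'_KK.pow (s + s)).rc, mul_inv_cancel, law_eq]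
  have h2 : law n (s + s) σ = ⟪((KK (reg n)) ^ s) (dl 1), ((KK (reg n)) ^ s) (dl σ)⟫_ℝ := by
    rw [hK.pow s, ← Module.End.mul_apply, ← pow_add, ← (hK.pow (s + s)), inner_dl', law_eq]
  rw [h2]
  have h3 := real_inner_le_norm (((KK (reg n)) ^ s) (dl 1)) (((KK (reg n)) ^ s) (dl σ))
  have h4 : ‖((KK (reg n)) ^ s) (dl σ)‖ = ‖((KK (reg n)) ^ s) (dl 1)‖ := by
    have := (h1 σ).trans (h1 1).symm
    exact (pow_left_inj₀ (norm_nonneg _) (norm_nonneg _) two_ne_zero).mp this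
  rw [h4, ← sq, h1] at h3
  exact h3

theorem add_three_pow_le {q : ℕ} (hq : Even q) (x y z : ℝ) :
    (x + y + z) ^ q ≤ 3 ^ q * (x ^ q + y ^ q + z ^ q) := by
  have hx := hq.pow_nonneg x
  have hy := hq.pow_nonneg y
  have hz := hq.pow_nonneg z
  have key : ∀ M : ℝ, 0 ≤ M → |x| ≤ M → |y| ≤ M → |z| ≤ M → M ^ q ≤ x ^ q + y ^ q + z ^ q →
      (x + y + z) ^ q ≤ 3 ^ q * (x ^ q + y ^ q + z ^ q) := by
    intro M hM h1 h2 h3 h4
    have h5 : |x + y + z| ≤ 3 * M := by
      have := abs_add_three x y z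
      linarith
    calc (x + y + z) ^ q = |x + y + z| ^ q := (hq.pow_abs _).symm
      _ ≤ (3 * M) ^ q := pow_le_pow_left₀ (abs_nonneg _) h5 q
      _ = 3 ^ q * M ^ q := mul_pow _ _ _
      _ ≤ _ := mul_le_mul_of_nonneg_left h4 (by positivity)
  rcases le_total |x| |y| with h | h
  · rcases le_total |y| |z| with h' | h'
    · exact key |z| (abs_nonneg _) (h.trans h') h' le_rfl (by rw [hq.pow_abs]; linarith)
    · exact key |y| (abs_nonneg _) h le_rfl h' (by rw [hq.pow_abs]; linarith)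
  · rcases le_total |x| |z| with h' | h'
    · exact key |z| (abs_nonneg _) h' (h.trans h') le_rfl (by rw [hq.pow_abs]; linarith)
    · exact key |x| (abs_nonneg _) le_rfl h h' (by rw [hq.pow_abs]; linarith)

/-- the finite bound at even times -/
theorem even_bound (hn : 0 < n) {p γ : ℝ} (hp0 : 0 ≤ p) (hp1 : p ≤ 1)
    (hβ : 1 ≤ 2 * (1 - p) ^ n) {t t0 : ℕ} (hte : Even t) (ht0e : Even t0)
    (htt : t0 ≤ t) {L : ℕ} (hL : L + 2 ≤ n)
    (h1 : ∀ l : ℕ, 1 ≤ l → l ≤ L →
      (1 - 2 * (l : ℝ) * (n - l + 1) / (n : ℝ) ^ 2) ^ t ≤ p ^ l)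
    (h1' : ∀ l : ℕ, l ≤ L → 0 ≤ 1 - 2 * (l : ℝ) * (n + 1) / (n : ℝ) ^ 2)
    (h2 : ∀ l : ℕ, l ≤ L →
      (1 - 2 / n - 2 * (l : ℝ) * (n - l + 1) / (n : ℝ) ^ 2) ^ t ≤ p ^ (l + 1))
    (h2' : ∀ l : ℕ, l ≤ L → 2 / (n : ℝ) ≤ 1 - 2 / n - 2 * (l : ℝ) * (n - l + 1) / (n : ℝ) ^ 2)
    (h3 : 0 ≤ γ) (h3' : (1 - ((L : ℝ) / n) ^ 2) ^ (t - t0) ≤ γ) {q : ℕ} (hq : Even q)
    (hq1 : 1 ≤ q) :
    (n ! : ℝ)⁻¹ * ∑ σ : Perm (Fin n), ((n ! : ℝ) * law n t σ - 1) ^ q ≤
      3 ^ q * (2 ^ q * ((n * p) ^ q + (Real.exp ((1 + n * p) ^ q - 1) - 1)) +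
        (2 * p) ^ q * Real.exp ((1 + n * p) ^ q - 1) + (γ * ((n ! : ℝ) * law n t0 1)) ^ q) := by
  have hu := unit_reg n
  have hK : Sym (KK (reg n)) := fun v w => hu.KK_symm v w
  have he : Sym (eB (reg n) univ) := fun v w => hu.eB_symm univ v w
  have hA : Sym ((KK (reg n)) ^ t - eB (reg n) univ) := (hK.pow t).sub he
  have hB : Sym ((2 : ℝ) • (Gp (reg n) p - eB (reg n) univ) + ((2 : ℝ) * p) • Gp (RT.sgr (reg n)) p
      + γ • (KK (reg n)) ^ t0) :=
    ((((hu.Gp_symm p).sub he).smul 2).add ((hu.sgr.Gp_symm p).smul (2 * p))).add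
        ((hK.pow t0).smul γ)
  have hA' : RC ((KK (reg n)) ^ t - eB (reg n) univ) := ((rc'_KK.pow t).sub (rc'_eB _)).rc
  have hB' : RC ((2 : ℝ) • (Gp (reg n) p - eB (reg n) univ) +
      ((2 : ℝ) * p) • Gp (RT.sgr (reg n)) p + γ • (KK (reg n)) ^ t0) :=
    (((((rc'_Gp p).sub (rc'_eB _)).smul 2).add ((rc'_Gp_sgr p).smul (2 * p))).add
      ((rc'_KK.pow t0).smul γ)).rc
  have hmaj := majorant hA hB hA' hB' (fun v => A_nonneg hu hn hte v)
    (fun v => main_ineq hu hn hp0 hp1 hβ (by norm_num) hte ht0e htt hL h1 h1' h2 h2' h3 h3' v) q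
  have hN : (0 : ℝ) < (n ! : ℝ) := by exact_mod_cast Nat.factorial_pos n
  -- left side
  have hl : ∀ σ : Perm (Fin n), ((n ! : ℝ) * law n t σ - 1) ^ q =
      (n ! : ℝ) ^ q * ((((KK (reg n)) ^ t - eB (reg n) univ) (dl 1)) σ) ^ q := by
    intro σ
    rw [← mul_pow]
    congr 1
    rw [LinearMap.sub_apply, PiLp.sub_apply, mul_sub, eB_univ_dl, law_eq]
  have hr : ∀ σ : Perm (Fin n), (n ! : ℝ) ^ q * ((((2 : ℝ) • (Gp (reg n) p - eB (reg n) univ) +
      ((2 : ℝ) * p) • Gp (RT.sgr (reg n)) p + γ • (KK (reg n)) ^ t0) (dl 1)) σ) ^ q ≤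
      3 ^ q * (2 ^ q * ((n ! : ℝ) * Gp (reg n) p (dl 1) σ - 1) ^ q +
        (2 * p) ^ q * ((n ! : ℝ) * Gp (reg n) p (dl 1) σ) ^ q +
          (γ * ((n ! : ℝ) * law n t0 1)) ^ q) := by
    intro σ
    have e : (n ! : ℝ) * ((((2 : ℝ) • (Gp (reg n) p - eB (reg n) univ) +
      ((2 : ℝ) * p) • Gp (RT.sgr (reg n)) p + γ • (KK (reg n)) ^ t0) (dl 1)) σ) =
      2 * ((n ! : ℝ) * Gp (reg n) p (dl 1) σ - 1) +
        ((Perm.sign σ : ℤ) : ℝ) * ((2 * p) * ((n ! : ℝ) * Gp (reg n) p (dl 1) σ)) +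
          γ * ((n ! : ℝ) * law n t0 σ) := by
      simp only [LinearMap.add_apply, LinearMap.sub_apply, LinearMap.smul_apply, PiLp.add_apply,
        PiLp.sub_apply, PiLp.smul_apply, smul_eq_mul, Gp_sgr_dl]
      rw [law_eq]
      have h4 := eB_univ_dl σ
      linear_combination (-2) * h4
    rw [← mul_pow, e]
    refine (add_three_pow_le hq _ _ _).trans ?_
    have h4 : (((Perm.sign σ : ℤ) : ℝ) * ((2 * p) * ((n ! : ℝ) * Gp (reg n) p (dl 1) σ))) ^ q =
        (2 * p) ^ q * ((n ! : ℝ) * Gp (reg n) p (dl 1) σ) ^ q := by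
      rw [mul_pow, mul_pow (2 * p)]
      obtain ⟨r, hr⟩ := hq
      have h5 : (((Perm.sign σ : ℤ) : ℝ)) ^ q = 1 := by
        rw [hr, pow_add, ← mul_pow, sign_mul_self', one_pow]
      rw [h5, one_mul]
    have h5 : (γ * ((n ! : ℝ) * law n t0 σ)) ^ q ≤ (γ * ((n ! : ℝ) * law n t0 1)) ^ q := by
      have := law_nonneg t0 σ
      have h6 := law_le_one ht0e σ
      gcongr
    rw [h4, mul_pow 2]
    gcongr
  have hfin : (n ! : ℝ)⁻¹ * ∑ σ : Perm (Fin n), ((n ! : ℝ) * law n t σ - 1) ^ q ≤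
      (n ! : ℝ)⁻¹ * ∑ σ : Perm (Fin n),
      3 ^ q * (2 ^ q * ((n ! : ℝ) * Gp (reg n) p (dl 1) σ - 1) ^ q +
        (2 * p) ^ q * ((n ! : ℝ) * Gp (reg n) p (dl 1) σ) ^ q +
          (γ * ((n ! : ℝ) * law n t0 1)) ^ q) := by
    apply mul_le_mul_of_nonneg_left _ (by positivity)
    simp_rw [hl]
    rw [← Finset.mul_sum]
    refine (mul_le_mul_of_nonneg_left hmaj (by positivity)).trans ?_
    rw [Finset.mul_sum]
    exact Finset.sum_le_sum fun σ _ => hr σ
  refine hfin.trans ?_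
  rw [← Finset.mul_sum, Finset.sum_add_distrib, Finset.sum_add_distrib, ← Finset.mul_sum,
    ← Finset.mul_sum]
  have e1 := mean_Gp_sub_one (n := n) hp0 hp1 hq1 hq
  have e2 := mean_Gp_pow (n := n) hp0 hp1 q
  have e3 := mean_const (n := n) ((γ * ((n ! : ℝ) * law n t0 1)) ^ q)
  have e4 : ∀ a b c : ℝ, (n ! : ℝ)⁻¹ * (3 ^ q * (2 ^ q * a + (2 * p) ^ q * b + c)) =
      3 ^ q * (2 ^ q * ((n ! : ℝ)⁻¹ * a) + (2 * p) ^ q * ((n ! : ℝ)⁻¹ * b) + (n ! : ℝ)⁻¹ * c) := by
    intro a b c; ring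
  rw [e4, e3]
  gcongr

end

/-! #### part Asy -/

noncomputable section

set_option linter.unusedSectionVars false

/-- the bound for one large `n` -/
theorem even_bound_asy {ε : ℝ} (hε : 0 < ε) {n : ℕ} (hn9 : 9 ≤ n)
    (hnδ : 2 / (ε / (4 * (1 + ε))) ≤ n) (hlog : 16 / ε ≤ Real.log n)
    (hhalf : (n : ℝ) * Real.exp (-(1 + ε / 2) * Real.log n) ≤ 1 / 2)
    {t t0 : ℕ} (hte : Even t) (ht0e : Even t0)
    (ht : (1 + ε) * (1 / 2 * (n * Real.log n)) - 2 ≤ t)
    (ht0 : (t0 : ℝ) ≤ 1 / 2 * (n * Real.log n) + 2) {q : ℕ} (hq : Even q) (hq1 : 1 ≤ q) :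
    (n ! : ℝ)⁻¹ * ∑ σ : Perm (Fin n), ((n ! : ℝ) * law n t σ - 1) ^ q ≤
      3 ^ q * (2 ^ q * ((n * Real.exp (-(1 + ε / 2) * Real.log n)) ^ q +
        (Real.exp ((1 + n * Real.exp (-(1 + ε / 2) * Real.log n)) ^ q - 1) - 1)) +
        (2 * Real.exp (-(1 + ε / 2) * Real.log n)) ^ q *
          Real.exp ((1 + n * Real.exp (-(1 + ε / 2) * Real.log n)) ^ q - 1) +
        (Real.exp (-(ε / (4 * (1 + ε)) / 2) ^ 2 * (ε / 2 * (n * Real.log n) - 4)) *
          ((n ! : ℝ) * law n t0 1)) ^ q) := by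
  set δ : ℝ := ε / (4 * (1 + ε)) with hδ
  have h1ε : 0 < 1 + ε := by linarith
  have hδ0 : 0 < δ := by positivity
  have hδ1 : δ ≤ 1 / 4 := by
    rw [hδ, div_le_iff₀ (by positivity)]; linarith
  have hδε : (1 - δ) * (1 + ε) = 1 + 3 * ε / 4 := by
    rw [hδ]; field_simp; ring
  have hn9' : (9 : ℝ) ≤ n := by exact_mod_cast hn9
  have hn0 : 0 < n := by omega
  have hn' : (0 : ℝ) < n := by linarith
  have hlog0 : 0 < Real.log n := lt_of_lt_of_le (by positivity) hlog
  have hεlog : 16 ≤ ε * Real.log n := by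
    rw [div_le_iff₀ hε] at hlog; linarith
  have hnδ' : 2 ≤ δ * n := by
    rw [div_le_iff₀ hδ0] at hnδ; linarith
  have hnlog : 144 ≤ ε * (n * Real.log n) := by nlinarith
  set p : ℝ := Real.exp (-(1 + ε / 2) * Real.log n) with hp
  have hp0 : 0 ≤ p := (Real.exp_pos _).le
  have hp1 : p ≤ 1 := by
    rw [hp, Real.exp_le_one_iff]
    have : 0 ≤ (1 + ε / 2) * Real.log n := by positivity
    linarith
  set L : ℕ := ⌊δ * n⌋₊ with hL
  have hL1 : (L : ℝ) ≤ δ * n := Nat.floor_le (by positivity)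
  have hL2 : δ * n / 2 ≤ L := by
    have := Nat.lt_floor_add_one (δ * n)
    rw [← hL] at this
    linarith
  have hLn : (L : ℝ) + 2 ≤ n := by nlinarith
  have hLn' : L + 2 ≤ n := by exact_mod_cast hLn
  have htt : t0 ≤ t := by
    have : (t0 : ℝ) ≤ t := by nlinarith
    exact_mod_cast this
  have hn2 : (0 : ℝ) < (n : ℝ) ^ 2 := by positivity
  have hkey : (1 + ε / 2) * Real.log n ≤ (1 - δ) * 2 * t / n := by
    rw [le_div_iff₀ hn']
    have h1 : (1 - δ) * 2 * ((1 + ε) * (1 / 2 * (n * Real.log n)) - 2) ≤ (1 - δ) * 2 * t :=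
      mul_le_mul_of_nonneg_left ht (by linarith)
    have h2 : (1 - δ) * 2 * ((1 + ε) * (1 / 2 * (n * Real.log n)) - 2) =
        (1 + 3 * ε / 4) * (n * Real.log n) - 4 * (1 - δ) := by
      rw [← hδε]; ring
    nlinarith
  have hbase : ∀ l : ℕ, l ≤ L → 2 * (l : ℝ) * (1 - δ) / n ≤ 2 * (l : ℝ) * (n - l + 1) / (n : ℝ) ^ 2 := by
    intro l hl
    have hl' : (l : ℝ) ≤ L := by exact_mod_cast hl
    rw [div_le_div_iff₀ hn' hn2]
    have h1 : (1 - δ) * n ≤ n - l + 1 := by linarith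
    have h2 : 0 ≤ 2 * (l : ℝ) * n := by positivity
    calc 2 * (l : ℝ) * (1 - δ) * (n : ℝ) ^ 2 = 2 * (l : ℝ) * n * ((1 - δ) * n) := by ring
      _ ≤ 2 * (l : ℝ) * n * (n - l + 1) := mul_le_mul_of_nonneg_left h1 h2
      _ = _ := by ring
  have hupper : ∀ l : ℕ, l ≤ L → 2 * (l : ℝ) * (n - l + 1) / (n : ℝ) ^ 2 ≤ 5 / 9 := by
    intro l hl
    have hl' : (l : ℝ) ≤ L := by exact_mod_cast hl
    have hl0 : (0 : ℝ) ≤ l := by positivity
    rw [div_le_iff₀ hn2]
    nlinarith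
  have hupper' : ∀ l : ℕ, l ≤ L → 2 * (l : ℝ) * (n + 1) / (n : ℝ) ^ 2 ≤ 1 := by
    intro l hl
    have hl' : (l : ℝ) ≤ L := by exact_mod_cast hl
    have hl0 : (0 : ℝ) ≤ l := by positivity
    rw [div_le_iff₀ hn2]
    nlinarith
  have hexp : ∀ k : ℕ, ∀ b : ℝ, 0 ≤ b → b ≤ Real.exp (-(2 * (k : ℝ) * (1 - δ) / n)) →
      b ^ t ≤ p ^ k := by
    intro k b hb hb'
    calc b ^ t ≤ Real.exp (-(2 * (k : ℝ) * (1 - δ) / n)) ^ t := pow_le_pow_left₀ hb hb' t
      _ = Real.exp (t * (-(2 * (k : ℝ) * (1 - δ) / n))) := (Real.exp_nat_mul _ _).symm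
      _ ≤ Real.exp (k * (-(1 + ε / 2) * Real.log n)) := by
          rw [Real.exp_le_exp]
          have h1 : (k : ℝ) * ((1 + ε / 2) * Real.log n) ≤ k * ((1 - δ) * 2 * t / n) :=
            mul_le_mul_of_nonneg_left hkey (by positivity)
          have h2 : (t : ℝ) * (-(2 * (k : ℝ) * (1 - δ) / n)) = -(k * ((1 - δ) * 2 * t / n)) := by
            ring
          rw [h2]; linarith
      _ = p ^ k := Real.exp_nat_mul _ _
  refine even_bound hn0 hp0 hp1 ?_ hte ht0e htt hLn' ?_ ?_ ?_ ?_ (Real.exp_pos _).le ?_ hq hq1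
  · have h4 : 1 - n * p ≤ (1 - p) ^ n := by
      have := one_add_mul_le_pow (a := -p) (by linarith) n
      have e : (1 : ℝ) + -p = 1 - p := by ring
      rw [e] at this
      linarith
    linarith
  · intro l _ hl
    apply hexp
    · linarith [hupper l hl]
    · have h1 := Real.one_sub_le_exp_neg (2 * (l : ℝ) * (n - l + 1) / (n : ℝ) ^ 2)
      refine h1.trans ?_
      rw [Real.exp_le_exp]
      linarith [hbase l hl]
  · intro l hl
    linarith [hupper' l hl]
  · intro l hl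
    have h5 : 2 / (n : ℝ) ≤ 2 / 9 := by
      rw [div_le_div_iff₀ hn' (by norm_num)]; linarith
    apply hexp
    · linarith [hupper l hl]
    · have h1 := Real.one_sub_le_exp_neg (2 / (n : ℝ) + 2 * (l : ℝ) * (n - l + 1) / (n : ℝ) ^ 2)
      have e : 1 - (2 / (n : ℝ) + 2 * (l : ℝ) * (n - l + 1) / (n : ℝ) ^ 2) =
        1 - 2 / (n : ℝ) - 2 * (l : ℝ) * (n - l + 1) / (n : ℝ) ^ 2 := by ring
      rw [e] at h1
      refine h1.trans ?_
      rw [Real.exp_le_exp, neg_le_neg_iff]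
      have h2 := hbase l hl
      have h3 : 2 * ((l + 1 : ℕ) : ℝ) * (1 - δ) / n =
          2 * (l : ℝ) * (1 - δ) / n + 2 / n - 2 * δ / n := by
        push_cast; ring
      rw [h3]
      have h4 : 0 ≤ 2 * δ / n := by positivity
      linarith
  · intro l hl
    have h5 : 2 / (n : ℝ) ≤ 2 / 9 := by
      rw [div_le_div_iff₀ hn' (by norm_num)]; linarith
    linarith [hupper l hl]
  · have h1 : (δ / 2) ^ 2 ≤ ((L : ℝ) / n) ^ 2 := by
      have : δ / 2 ≤ (L : ℝ) / n := by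
        rw [le_div_iff₀ hn']; linarith
      exact pow_le_pow_left₀ (by positivity) this 2
    have h2 : ((L : ℝ) / n) ^ 2 ≤ 1 := by
      have : (L : ℝ) / n ≤ 1 := by
        rw [div_le_one hn']; linarith
      exact pow_le_one₀ (by positivity) this
    have h3 := Real.one_sub_le_exp_neg (((L : ℝ) / n) ^ 2)
    have h4 : ((t - t0 : ℕ) : ℝ) = (t : ℝ) - t0 := Nat.cast_sub htt
    have h5 : ε / 2 * (n * Real.log n) - 4 ≤ (t : ℝ) - t0 := by linarith
    have h6 : 0 ≤ (t : ℝ) - t0 := by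
      have : (t0 : ℝ) ≤ t := by exact_mod_cast htt
      linarith
    calc (1 - ((L : ℝ) / n) ^ 2) ^ (t - t0)
        ≤ Real.exp (-(((L : ℝ) / n) ^ 2)) ^ (t - t0) :=
          pow_le_pow_left₀ (by linarith) h3 _
      _ = Real.exp (((t - t0 : ℕ) : ℝ) * (-(((L : ℝ) / n) ^ 2))) := (Real.exp_nat_mul _ _).symm
      _ ≤ _ := by
          rw [Real.exp_le_exp, h4]
          have h7 : (δ / 2) ^ 2 * (ε / 2 * (n * Real.log n) - 4) ≤
              (δ / 2) ^ 2 * ((t : ℝ) - t0) := mul_le_mul_of_nonneg_left h5 (by positivity)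
          have h8 : (δ / 2) ^ 2 * ((t : ℝ) - t0) ≤ ((L : ℝ) / n) ^ 2 * ((t : ℝ) - t0) :=
            mul_le_mul_of_nonneg_right h1 h6
          linarith

end

/-! #### part Lim -/

noncomputable section

set_option linter.unusedSectionVars false

theorem tendsto_natCast' : Tendsto (fun n : ℕ => (n : ℝ)) atTop atTop := tendsto_natCast_atTop_atTop

theorem tendsto_log_nat : Tendsto (fun n : ℕ => Real.log n) atTop atTop :=
  Real.tendsto_log_atTop.comp tendsto_natCast_atTop_atTop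

theorem gamma_law_tendsto {D E θ : ℝ} (hD : 0 < D) (hE : 0 < E) (hθ : 0 < θ)
    (hθ' : θ ≤ (D * E) ^ 2 / 16) :
    Tendsto (fun n : ℕ => Real.exp (-D * (E * (n * Real.log n) - 4)) *
      (Real.exp (Real.sqrt (2 * θ + 2 / n) * (n * Real.log n)) * (2 / θ ^ 2) ^ n))
      atTop (𝓝 0) := by
  set c : ℝ := D * E with hc
  have hc0 : 0 < c := by positivity
  have h1 : Tendsto (fun n : ℕ => Real.exp (-(n : ℝ) + 4 * D)) atTop (𝓝 0) := by
    apply Real.tendsto_exp_atBot.comp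
    exact tendsto_atBot_add_const_right _ _ (tendsto_neg_atTop_atBot.comp tendsto_natCast')
  refine squeeze_zero' (Eventually.of_forall fun n => by positivity) ?_ h1
  have hlogθ : ∀ᶠ n : ℕ in atTop, 2 / c * (Real.log (2 / θ ^ 2) + 1) ≤ Real.log n :=
    tendsto_log_nat.eventually_ge_atTop _
  have hnc : ∀ᶠ n : ℕ in atTop, 16 / c ^ 2 ≤ (n : ℝ) := tendsto_natCast'.eventually_ge_atTop _
  have hn1 : ∀ᶠ n : ℕ in atTop, 1 ≤ n := eventually_ge_atTop 1
  filter_upwards [hlogθ, hnc, hn1] with n h2 h3 h4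
  have hn' : (0 : ℝ) < n := by exact_mod_cast h4
  have hlog0 : 0 ≤ Real.log n := Real.log_natCast_nonneg n
  have h5 : Real.sqrt (2 * θ + 2 / n) ≤ c / 2 := by
    rw [Real.sqrt_le_left (by positivity)]
    rw [div_le_iff₀ (by positivity)] at h3
    have : 2 / (n : ℝ) ≤ c ^ 2 / 8 := by
      rw [div_le_div_iff₀ hn' (by norm_num)]; linarith
    nlinarith
  have h6 : (2 / θ ^ 2) ^ n = Real.exp (n * Real.log (2 / θ ^ 2)) := by
    rw [Real.exp_nat_mul, Real.exp_log (by positivity)]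
  rw [h6, ← Real.exp_add, ← Real.exp_add, Real.exp_le_exp]
  have h7 : Real.sqrt (2 * θ + 2 / n) * (n * Real.log n) ≤ c / 2 * (n * Real.log n) :=
    mul_le_mul_of_nonneg_right h5 (by positivity)
  have h8 : (n : ℝ) * (Real.log (2 / θ ^ 2) + 1) ≤ c / 2 * (n * Real.log n) := by
    have h9 : Real.log (2 / θ ^ 2) + 1 ≤ c / 2 * Real.log n := by
      have := mul_le_mul_of_nonneg_left h2 (by positivity : 0 ≤ c / 2)
      have e : c / 2 * (2 / c * (Real.log (2 / θ ^ 2) + 1)) = Real.log (2 / θ ^ 2) + 1 := by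
        field_simp
      rw [e] at this; exact this
    calc (n : ℝ) * (Real.log (2 / θ ^ 2) + 1) ≤ n * (c / 2 * Real.log n) :=
          mul_le_mul_of_nonneg_left h9 hn'.le
      _ = _ := by ring
  have h9 : -D * (E * (n * Real.log n) - 4) = -(c * (n * Real.log n)) + 4 * D := by
    rw [hc]; ring
  rw [h9]
  linarith

theorem np_tendsto {ε : ℝ} (hε : 0 < ε) :
    Tendsto (fun n : ℕ => (n : ℝ) * Real.exp (-(1 + ε / 2) * Real.log n)) atTop (𝓝 0) := by
  have h1 : Tendsto (fun n : ℕ => Real.exp (-(ε / 2 * Real.log n))) atTop (𝓝 0) := by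
    apply Real.tendsto_exp_atBot.comp
    exact tendsto_neg_atTop_atBot.comp (tendsto_log_nat.const_mul_atTop (by positivity))
  refine h1.congr' ?_
  filter_upwards [eventually_ge_atTop 1] with n hn
  have hn' : (0 : ℝ) < n := by exact_mod_cast hn
  have h2 : (n : ℝ) = Real.exp (Real.log n) := (Real.exp_log hn').symm
  calc Real.exp (-(ε / 2 * Real.log n))
      = Real.exp (Real.log n) * Real.exp (-(1 + ε / 2) * Real.log n) := by
        rw [← Real.exp_add]; congr 1; ring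
    _ = _ := by rw [Real.exp_log hn']

theorem p_tendsto {ε : ℝ} (hε : 0 < ε) :
    Tendsto (fun n : ℕ => Real.exp (-(1 + ε / 2) * Real.log n)) atTop (𝓝 0) := by
  apply Real.tendsto_exp_atBot.comp
  exact tendsto_log_nat.const_mul_atTop_of_neg (by linarith)

/-- an even time close to `(1 + ε) n log n / 2` -/
def tE (ε : ℝ) (n : ℕ) : ℕ := 2 * (⌊(1 + ε) * (1 / 2 * (n * Real.log n))⌋₊ / 2)

theorem even_tendsto {ε : ℝ} (hε : 0 < ε) {q : ℕ} (hq : Even q) (hq1 : 1 ≤ q) :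
    Tendsto (fun n : ℕ => (n ! : ℝ)⁻¹ *
      ∑ σ : Perm (Fin n), ((n ! : ℝ) * law n (tE ε n) σ - 1) ^ q) atTop (𝓝 0) := by
  set D : ℝ := (ε / (4 * (1 + ε)) / 2) ^ 2 with hD
  have hD0 : 0 < D := by positivity
  have hE0 : 0 < ε / 2 := by positivity
  set θ : ℝ := min 1 ((D * (ε / 2)) ^ 2 / 16) with hθ
  have hθ0 : 0 < θ := lt_min one_pos (by positivity)
  have hθ1 : θ ≤ 1 := min_le_left _ _
  have hθ2 : θ ≤ (D * (ε / 2)) ^ 2 / 16 := min_le_right _ _
  have hc := gamma_law_tendsto hD0 hE0 hθ0 hθ2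
  have ha := np_tendsto hε
  have hb := p_tendsto hε
  -- the limit of the bound
  let F : ℝ × ℝ × ℝ → ℝ := fun x => 3 ^ q * (2 ^ q * (x.1 ^ q + (Real.exp ((1 + x.1) ^ q - 1) - 1)) +
    (2 * x.2.1) ^ q * Real.exp ((1 + x.1) ^ q - 1) + x.2.2 ^ q)
  have hF : Continuous F := by
    show Continuous fun x : ℝ × ℝ × ℝ =>
      3 ^ q * (2 ^ q * (x.1 ^ q + (Real.exp ((1 + x.1) ^ q - 1) - 1)) +
        (2 * x.2.1) ^ q * Real.exp ((1 + x.1) ^ q - 1) + x.2.2 ^ q)
    fun_prop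
  have hF0 : F (0, 0, 0) = 0 := by
    have hq0 : q ≠ 0 := by omega
    simp [F, hq0]
  have hlim := (hF.tendsto (0, 0, 0)).comp (ha.prodMk_nhds (hb.prodMk_nhds hc))
  rw [hF0] at hlim
  refine squeeze_zero' (Eventually.of_forall fun n => ?_) ?_ hlim
  · exact mul_nonneg (by positivity) (Finset.sum_nonneg fun σ _ => hq.pow_nonneg _)
  · have e1 : ∀ᶠ n : ℕ in atTop, 2 / (ε / (4 * (1 + ε))) ≤ (n : ℝ) :=
      tendsto_natCast'.eventually_ge_atTop _
    have e2 : ∀ᶠ n : ℕ in atTop, 16 / ε ≤ Real.log n := tendsto_log_nat.eventually_ge_atTop _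
    have e3 : ∀ᶠ n : ℕ in atTop, (n : ℝ) * Real.exp (-(1 + ε / 2) * Real.log n) ≤ 1 / 2 :=
      ha.eventually_le_const (by norm_num)
    filter_upwards [eventually_ge_atTop 9, e1, e2, e3] with n h9 h1 h2 h3
    have hlog0 : 0 ≤ Real.log n := Real.log_natCast_nonneg n
    have hn0 : 0 < n := by omega
    set t0 : ℕ := 2 * ⌈(n : ℝ) * Real.log n / 4⌉₊ with ht0
    have hfl : (1 + ε) * (1 / 2 * (n * Real.log n)) - 2 ≤ (tE ε n : ℕ) := by
      have h4 := Nat.lt_floor_add_one ((1 + ε) * (1 / 2 * (n * Real.log n)))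
      have h5 : ⌊(1 + ε) * (1 / 2 * (n * Real.log n))⌋₊ ≤ tE ε n + 1 := by
        unfold tE; omega
      have h6 : ((⌊(1 + ε) * (1 / 2 * (n * Real.log n))⌋₊ : ℕ) : ℝ) ≤ (tE ε n : ℕ) + 1 := by
        exact_mod_cast h5
      linarith
    have hce := Nat.ceil_lt_add_one (show 0 ≤ (n : ℝ) * Real.log n / 4 by positivity)
    have hce' := Nat.le_ceil ((n : ℝ) * Real.log n / 4)
    have h4 := even_bound_asy hε h9 h1 h2 h3 (t := tE ε n) (t0 := t0) (even_two_mul _)
      (even_two_mul _) hfl (by rw [ht0]; push_cast; linarith) hq hq1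
    refine h4.trans ?_
    show _ ≤ F _
    have h5 := law_one_le hn0 hθ0 hθ1 (t := t0) (even_two_mul _) (by
      rw [ht0]; push_cast; linarith)
    have h6 : 0 ≤ law n t0 1 := law_nonneg _ _
    simp only [F]
    gcongr

end

/-! #### part Final -/

noncomputable section

set_option linter.unusedSectionVars false

variable {n : ℕ}

/-! ### contractivity -/

theorem law_succ (t : ℕ) (σ : Perm (Fin n)) :
    law n (t + 1) σ = (∑ i, ∑ j, law n t (swap i j * σ)) / (n : ℝ) ^ 2 := rfl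

theorem sum_mean_swap (hn : 0 < n) (c : ℝ) :
    ∑ _ij : Fin n × Fin n, ((n : ℝ) ^ 2)⁻¹ * c = c := by
  have hn' : (n : ℝ) ≠ 0 := by exact_mod_cast hn.ne'
  rw [Finset.sum_const, Finset.card_univ, Fintype.card_prod, Fintype.card_fin, nsmul_eq_mul]
  push_cast
  field_simp

theorem law_succ' (t : ℕ) (σ : Perm (Fin n)) :
    law n (t + 1) σ = ∑ ij : Fin n × Fin n, ((n : ℝ) ^ 2)⁻¹ * law n t (swap ij.1 ij.2 * σ) := by
  rw [law_succ, Fintype.sum_prod_type, div_eq_inv_mul, Finset.mul_sum]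
  exact Finset.sum_congr rfl fun i _ => Finset.mul_sum _ _ _

theorem contract (hn : 0 < n) (t : ℕ) {q : ℕ} (hq : Even q) :
    ∑ σ : Perm (Fin n), ((n ! : ℝ) * law n (t + 1) σ - 1) ^ q ≤
      ∑ σ : Perm (Fin n), ((n ! : ℝ) * law n t σ - 1) ^ q := by
  have h1 : ∀ σ : Perm (Fin n), ((n ! : ℝ) * law n (t + 1) σ - 1) ^ q ≤
      ∑ ij : Fin n × Fin n, ((n : ℝ) ^ 2)⁻¹ *
        ((n ! : ℝ) * law n t (swap ij.1 ij.2 * σ) - 1) ^ q := by
    intro σ
    have e : (n ! : ℝ) * law n (t + 1) σ - 1 = ∑ ij : Fin n × Fin n, ((n : ℝ) ^ 2)⁻¹ *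
        ((n ! : ℝ) * law n t (swap ij.1 ij.2 * σ) - 1) := by
      simp_rw [mul_sub]
      rw [Finset.sum_sub_distrib, sum_mean_swap hn, law_succ', Finset.mul_sum]
      congr 1
      exact Finset.sum_congr rfl fun ij _ => by ring
    rw [e]
    exact Real.pow_arith_mean_le_arith_mean_pow_of_even _ _ _ (fun _ _ => by positivity)
      (by simpa using sum_mean_swap hn (1 : ℝ)) hq
  refine (Finset.sum_le_sum fun σ _ => h1 σ).trans ?_
  rw [Finset.sum_comm]
  have h2 : ∀ ij : Fin n × Fin n, ∑ σ : Perm (Fin n), ((n : ℝ) ^ 2)⁻¹ *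
      ((n ! : ℝ) * law n t (swap ij.1 ij.2 * σ) - 1) ^ q =
      ((n : ℝ) ^ 2)⁻¹ * ∑ σ : Perm (Fin n), ((n ! : ℝ) * law n t σ - 1) ^ q := by
    intro ij
    rw [← Finset.mul_sum]
    congr 1
    exact Equiv.sum_comp (Equiv.mulLeft (swap ij.1 ij.2))
      fun σ => ((n ! : ℝ) * law n t σ - 1) ^ q
  simp_rw [h2]
  rw [sum_mean_swap hn]

theorem moment_tendsto {ε : ℝ} (hε : 0 < ε) {q : ℕ} (hq : Even q) (hq1 : 1 ≤ q) :
    Tendsto (fun n : ℕ => (n ! : ℝ)⁻¹ * ∑ σ : Perm (Fin n),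
      ((n ! : ℝ) * law n ⌊(1 + ε) * (1 / 2 * (n * Real.log n))⌋₊ σ - 1) ^ q) atTop (𝓝 0) := by
  refine squeeze_zero' (Eventually.of_forall fun n => ?_) ?_ (even_tendsto hε hq hq1)
  · exact mul_nonneg (by positivity) (Finset.sum_nonneg fun σ _ => hq.pow_nonneg _)
  · filter_upwards [eventually_ge_atTop 1] with n hn
    apply mul_le_mul_of_nonneg_left _ (by positivity)
    have h5 : ⌊(1 + ε) * (1 / 2 * (n * Real.log n))⌋₊ = tE ε n ∨
        ⌊(1 + ε) * (1 / 2 * (n * Real.log n))⌋₊ = tE ε n + 1 := by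
      unfold tE; omega
    rcases h5 with h5 | h5
    · rw [h5]
    · rw [h5]; exact contract hn _ hq

/-! ### power means -/

/-- mean of the `p`-th power -/
def mom (p : ℝ) (n t : ℕ) : ℝ :=
  (n ! : ℝ)⁻¹ * ∑ σ : Perm (Fin n), |(n ! : ℝ) * law n t σ - 1| ^ p

theorem mom_nonneg (p : ℝ) (n t : ℕ) : 0 ≤ mom p n t :=
  mul_nonneg (by positivity) (Finset.sum_nonneg fun σ _ => Real.rpow_nonneg (abs_nonneg _) _)

theorem mom_mono {p q : ℝ} (hp : 0 < p) (hpq : p ≤ q) (n t : ℕ) :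
    (mom p n t) ^ (q / p) ≤ mom q n t := by
  have h1 := Real.rpow_arith_mean_le_arith_mean_rpow (univ : Finset (Perm (Fin n)))
    (fun _ => (n ! : ℝ)⁻¹) (fun σ => |(n ! : ℝ) * law n t σ - 1| ^ p)
    (fun _ _ => by positivity) (by
      rw [Finset.sum_const, Finset.card_univ, Fintype.card_perm, Fintype.card_fin, nsmul_eq_mul,
        mul_inv_cancel₀ (by exact_mod_cast (Nat.factorial_pos _).ne')])
    (fun σ _ => Real.rpow_nonneg (abs_nonneg _) _)
    (p := q / p) (by rw [one_le_div hp]; exact hpq)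
  unfold mom
  rw [Finset.mul_sum, Finset.mul_sum]
  refine h1.trans (le_of_eq ?_)
  refine Finset.sum_congr rfl fun σ _ => ?_
  rw [← Real.rpow_mul (abs_nonneg _), mul_div_cancel₀ _ hp.ne']

theorem mom_nat {q : ℕ} (hq : Even q) (n t : ℕ) :
    mom (q : ℝ) n t = (n ! : ℝ)⁻¹ * ∑ σ : Perm (Fin n), ((n ! : ℝ) * law n t σ - 1) ^ q := by
  unfold mom
  congr 1
  refine Finset.sum_congr rfl fun σ _ => ?_
  rw [Real.rpow_natCast, hq.pow_abs]

theorem mom_root_le {p q : ℝ} (hp : 0 < p) (hpq : p ≤ q) (n t : ℕ) :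
    (mom p n t) ^ (1 / p) ≤ (mom q n t) ^ (1 / q) := by
  have hq : 0 < q := lt_of_lt_of_le hp hpq
  have h1 := mom_mono hp hpq n t
  have h2 := Real.rpow_le_rpow (Real.rpow_nonneg (mom_nonneg p n t) _) h1
    (by positivity : 0 ≤ 1 / q)
  rw [← Real.rpow_mul (mom_nonneg p n t)] at h2
  have e : q / p * (1 / q) = 1 / p := by field_simp
  rw [e] at h2
  exact h2

theorem upper {p ε : ℝ} (hp : 0 < p) (hε : 0 < ε) :
    Tendsto (fun n : ℕ => (mom p n ⌊(1 + ε) * (1 / 2 * (n * Real.log n))⌋₊) ^ (1 / p))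
      atTop (𝓝 0) := by
  obtain ⟨m, hm⟩ := exists_nat_ge p
  have hm1 : 1 ≤ m := by
    have : (0 : ℝ) < m := lt_of_lt_of_le hp hm
    exact_mod_cast this
  have hq : Even (2 * m) := even_two_mul m
  have hpq : p ≤ ((2 * m : ℕ) : ℝ) := by
    push_cast; linarith
  have h1 := moment_tendsto hε hq (by omega)
  have h2 : Tendsto (fun n : ℕ => (mom ((2 * m : ℕ) : ℝ) n
      ⌊(1 + ε) * (1 / 2 * (n * Real.log n))⌋₊) ^ (1 / ((2 * m : ℕ) : ℝ))) atTop (𝓝 0) := by
    have h3 : 0 < 1 / ((2 * m : ℕ) : ℝ) := by positivity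
    have h4 := (Real.continuousAt_rpow_const 0 (1 / ((2 * m : ℕ) : ℝ)) (Or.inr h3.le)).tendsto.comp h1
    rw [Real.zero_rpow h3.ne'] at h4
    refine h4.congr fun n => ?_
    simp only [Function.comp]
    rw [mom_nat hq]
  exact squeeze_zero (fun n => Real.rpow_nonneg (mom_nonneg _ _ _) _)
    (fun n => mom_root_le hp hpq _ _) h2

/-! ### lower bound by the number of fixed points -/

theorem sum_swap_apply (x y : Fin n) :
    ∑ i : Fin n, ∑ j : Fin n, (if swap i j y = x then (1 : ℝ) else 0) =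
      2 + (if y = x then (n : ℝ) ^ 2 - 2 * n else 0) := by
  have hn : 0 < n := x.pos
  have h1 : ∀ i : Fin n, ∑ j : Fin n, (if swap i j y = x then (1 : ℝ) else 0) =
      if i = y then 1 else (if i = x then 1 else 0) + (if y = x then (n : ℝ) - 1 else 0) := by
    intro i
    by_cases hi : i = y
    · rw [if_pos hi]
      subst hi
      simp_rw [swap_apply_left]
      rw [Finset.sum_ite_eq' univ x]
      simp
    · rw [if_neg hi, ← Finset.add_sum_erase univ _ (mem_univ y), swap_apply_right]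
      congr 1
      have h2 : ∀ j ∈ univ.erase y, (if swap i j y = x then (1 : ℝ) else 0) =
          if y = x then 1 else 0 := by
        intro j hj
        rw [swap_apply_of_ne_of_ne (Ne.symm hi) (Finset.ne_of_mem_erase hj).symm]
      rw [Finset.sum_congr rfl h2, Finset.sum_const, Finset.card_erase_of_mem (mem_univ _),
        Finset.card_univ, Fintype.card_fin, nsmul_eq_mul, Nat.cast_sub hn]
      split_ifs <;> simp
  simp_rw [h1]
  rw [← Finset.add_sum_erase univ _ (mem_univ y), if_pos rfl]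
  have h2 : ∀ i ∈ univ.erase y, (if i = y then (1 : ℝ) else
      (if i = x then 1 else 0) + (if y = x then (n : ℝ) - 1 else 0)) =
      (if i = x then 1 else 0) + (if y = x then (n : ℝ) - 1 else 0) := fun i hi =>
    if_neg (Finset.ne_of_mem_erase hi)
  rw [Finset.sum_congr rfl h2, Finset.sum_add_distrib, Finset.sum_const,
    Finset.card_erase_of_mem (mem_univ _), Finset.card_univ, Fintype.card_fin, nsmul_eq_mul,
    Nat.cast_sub hn, Finset.sum_ite_eq' (univ.erase y) x]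
  by_cases hxy : y = x
  · subst hxy
    simp
    ring
  · have h3 : x ∈ univ.erase y := Finset.mem_erase.mpr ⟨fun h => hxy h.symm, mem_univ _⟩
    rw [if_pos h3, if_neg hxy, if_neg hxy]
    ring

/-- number of fixed points minus one -/
def ff (σ : Perm (Fin n)) : ℝ := ((Fx σ).card : ℝ) - 1

theorem Fx_card (σ : Perm (Fin n)) :
    ((Fx σ).card : ℝ) = ∑ x, if σ x = x then (1 : ℝ) else 0 := by
  rw [Fx, Finset.card_filter]; push_cast; rfl

theorem sum_ff_swap (σ : Perm (Fin n)) :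
    ∑ i : Fin n, ∑ j : Fin n, ff (swap i j * σ) = ((n : ℝ) ^ 2 - 2 * n) * ff σ := by
  have h1 : ∑ i : Fin n, ∑ j : Fin n, (((Fx (swap i j * σ)).card : ℝ)) =
      ∑ x : Fin n, (2 + (if σ x = x then (n : ℝ) ^ 2 - 2 * n else 0)) := by
    simp_rw [Fx_card, Perm.mul_apply]
    calc ∑ i : Fin n, ∑ j : Fin n, ∑ x, (if swap i j (σ x) = x then (1 : ℝ) else 0)
        = ∑ i : Fin n, ∑ x, ∑ j : Fin n, (if swap i j (σ x) = x then (1 : ℝ) else 0) :=
          Finset.sum_congr rfl fun i _ => Finset.sum_comm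
      _ = ∑ x, ∑ i : Fin n, ∑ j : Fin n, (if swap i j (σ x) = x then (1 : ℝ) else 0) :=
          Finset.sum_comm
      _ = _ := Finset.sum_congr rfl fun x _ => sum_swap_apply _ _
  have h2 : ∑ x : Fin n, (if σ x = x then (n : ℝ) ^ 2 - 2 * n else 0) =
      ((n : ℝ) ^ 2 - 2 * n) * (Fx σ).card := by
    rw [Fx_card, Finset.mul_sum]
    exact Finset.sum_congr rfl fun x _ => by split_ifs <;> ring
  unfold ff
  simp_rw [Finset.sum_sub_distrib]
  rw [h1, Finset.sum_add_distrib, h2]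
  simp
  ring

theorem law_ff (hn : 0 < n) (t : ℕ) :
    ∑ σ : Perm (Fin n), law n t σ * ff σ = (n - 1) * (1 - 2 / (n : ℝ)) ^ t := by
  have hn' : (n : ℝ) ≠ 0 := by exact_mod_cast hn.ne'
  induction t with
  | zero =>
    have h1 : ∀ σ : Perm (Fin n), law n 0 σ * ff σ = if σ = 1 then ff (1 : Perm (Fin n)) else 0 := by
      intro σ
      show (if σ = 1 then (1 : ℝ) else 0) * ff σ = _
      split_ifs with h
      · rw [h, one_mul]
      · rw [zero_mul]
    simp_rw [h1]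
    rw [Finset.sum_ite_eq' univ (1 : Perm (Fin n))]
    simp [ff, Fx]
  | succ t ih =>
    have h1 : ∑ σ : Perm (Fin n), law n (t + 1) σ * ff σ =
        ((n : ℝ) ^ 2)⁻¹ * ∑ i : Fin n, ∑ j : Fin n, ∑ σ : Perm (Fin n),
          law n t (swap i j * σ) * ff σ := by
      have h2 : ∀ σ : Perm (Fin n), law n (t + 1) σ * ff σ =
          ((n : ℝ) ^ 2)⁻¹ * ∑ i : Fin n, ∑ j : Fin n, law n t (swap i j * σ) * ff σ := by
        intro σ
        rw [law_succ, div_eq_inv_mul, mul_assoc, Finset.sum_mul]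
        congr 1
        exact Finset.sum_congr rfl fun i _ => Finset.sum_mul _ _ _
      simp_rw [h2]
      rw [← Finset.mul_sum]
      congr 1
      calc ∑ σ : Perm (Fin n), ∑ i : Fin n, ∑ j : Fin n, law n t (swap i j * σ) * ff σ
          = ∑ i : Fin n, ∑ σ : Perm (Fin n), ∑ j : Fin n, law n t (swap i j * σ) * ff σ :=
            Finset.sum_comm
        _ = _ := Finset.sum_congr rfl fun i _ => Finset.sum_comm
    have h3 : ∀ i j : Fin n, ∑ σ : Perm (Fin n), law n t (swap i j * σ) * ff σ =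
        ∑ σ : Perm (Fin n), law n t σ * ff (swap i j * σ) := by
      intro i j
      rw [← Equiv.sum_comp (Equiv.mulLeft (swap i j)) fun σ => law n t σ * ff (swap i j * σ)]
      refine Finset.sum_congr rfl fun σ _ => ?_
      simp only [Equiv.coe_mulLeft]
      rw [← mul_assoc, swap_mul_self, one_mul]
    rw [h1]
    simp_rw [h3]
    have h4 : ∑ i : Fin n, ∑ j : Fin n, ∑ σ : Perm (Fin n), law n t σ * ff (swap i j * σ) =
        ∑ σ : Perm (Fin n), law n t σ * (((n : ℝ) ^ 2 - 2 * n) * ff σ) := by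
      calc ∑ i : Fin n, ∑ j : Fin n, ∑ σ : Perm (Fin n), law n t σ * ff (swap i j * σ)
          = ∑ i : Fin n, ∑ σ : Perm (Fin n), ∑ j : Fin n, law n t σ * ff (swap i j * σ) :=
            Finset.sum_congr rfl fun i _ => Finset.sum_comm
        _ = ∑ σ : Perm (Fin n), ∑ i : Fin n, ∑ j : Fin n, law n t σ * ff (swap i j * σ) :=
            Finset.sum_comm
        _ = _ := by
            refine Finset.sum_congr rfl fun σ _ => ?_
            simp_rw [← Finset.mul_sum]
            rw [sum_ff_swap]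
    rw [h4]
    have h5 : ∀ σ : Perm (Fin n), law n t σ * (((n : ℝ) ^ 2 - 2 * n) * ff σ) =
        ((n : ℝ) ^ 2 - 2 * n) * (law n t σ * ff σ) := fun σ => by ring
    simp_rw [h5]
    rw [← Finset.mul_sum, ih, pow_succ (1 - 2 / (n : ℝ))]
    have h6 : ((n : ℝ) ^ 2)⁻¹ * ((n : ℝ) ^ 2 - 2 * n) = 1 - 2 / (n : ℝ) := by field_simp
    rw [← mul_assoc, h6]
    ring

theorem nat_le_two_pow (k : ℕ) : (k : ℝ) ≤ 2 ^ k := by
  exact_mod_cast Nat.lt_two_pow_self.le

theorem sq_le_two_pow (k : ℕ) : ((k : ℝ) - 1) ^ 2 ≤ 2 * 2 ^ k := by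
  have key : ∀ m : ℕ, 2 ≤ m → ((m : ℝ) - 1) ^ 2 + m ≤ 2 * 2 ^ m := by
    intro m hm
    induction m, hm using Nat.le_induction with
    | base => norm_num
    | succ m hm ih =>
      have h2 := nat_le_two_pow m
      have hm' : (2 : ℝ) ≤ m := by exact_mod_cast hm
      have h3 : (2 : ℝ) ^ (m + 1) = 2 * 2 ^ m := pow_succ' _ _
      rw [h3]
      push_cast
      nlinarith
  rcases Nat.lt_or_ge k 2 with h | h
  · interval_cases k <;> norm_num
  · have := key k h
    have h2 : (0 : ℝ) ≤ k := by positivity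
    linarith

theorem mean_ff : (n ! : ℝ)⁻¹ * ∑ σ : Perm (Fin n), ff σ ≤ 3 := by
  have h1 := mean_pow_Fx (n := n) (y := 2) (by norm_num)
  have h2 := Real.exp_one_lt_d9
  have e : (2 : ℝ) - 1 = 1 := by norm_num
  rw [e] at h1
  have h3 : (n ! : ℝ)⁻¹ * ∑ σ : Perm (Fin n), ff σ ≤
      (n ! : ℝ)⁻¹ * ∑ σ : Perm (Fin n), (2 : ℝ) ^ (Fx σ).card := mean_mono fun σ => by
    have := nat_le_two_pow (Fx σ).card
    unfold ff; linarith
  linarith

theorem mean_ff_sq : (n ! : ℝ)⁻¹ * ∑ σ : Perm (Fin n), ff σ ^ 2 ≤ 9 := by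
  have h1 := mean_pow_Fx (n := n) (y := 2) (by norm_num)
  have h2 := Real.exp_one_lt_d9
  have e : (2 : ℝ) - 1 = 1 := by norm_num
  rw [e] at h1
  have h3 : (n ! : ℝ)⁻¹ * ∑ σ : Perm (Fin n), ff σ ^ 2 ≤
      (n ! : ℝ)⁻¹ * ∑ σ : Perm (Fin n), 2 * (2 : ℝ) ^ (Fx σ).card := mean_mono fun σ =>
    sq_le_two_pow _
  rw [← Finset.mul_sum] at h3
  linarith

theorem mom_two_ge (hn : 0 < n) (t : ℕ) (h : 6 ≤ ((n : ℝ) - 1) * (1 - 2 / (n : ℝ)) ^ t) :
    1 ≤ mom 2 n t := by
  have hN : (0 : ℝ) < (n ! : ℝ) := by exact_mod_cast Nat.factorial_pos n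
  have h0 := mom_nat (q := 2) even_two n t
  rw [Nat.cast_ofNat] at h0
  rw [h0]
  have h1 : (n ! : ℝ)⁻¹ * ∑ σ : Perm (Fin n), ((n ! : ℝ) * law n t σ - 1) * ff σ =
      (n - 1) * (1 - 2 / (n : ℝ)) ^ t - (n ! : ℝ)⁻¹ * ∑ σ : Perm (Fin n), ff σ := by
    rw [← law_ff hn t]
    have h2 : ∀ σ : Perm (Fin n), ((n ! : ℝ) * law n t σ - 1) * ff σ =
        (n ! : ℝ) * (law n t σ * ff σ) - ff σ := fun σ => by ring
    simp_rw [h2]
    rw [Finset.sum_sub_distrib, ← Finset.mul_sum, mul_sub, ← mul_assoc,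
      inv_mul_cancel₀ hN.ne', one_mul]
  have h2 : 3 ≤ (n ! : ℝ)⁻¹ * ∑ σ : Perm (Fin n), ((n ! : ℝ) * law n t σ - 1) * ff σ := by
    rw [h1]; linarith [mean_ff (n := n)]
  have h3 := Finset.sum_mul_sq_le_sq_mul_sq (univ : Finset (Perm (Fin n)))
    (fun σ => (n ! : ℝ) * law n t σ - 1) ff
  have h4 : ((n ! : ℝ)⁻¹ * ∑ σ : Perm (Fin n), ((n ! : ℝ) * law n t σ - 1) * ff σ) ^ 2 ≤
      ((n ! : ℝ)⁻¹ * ∑ σ : Perm (Fin n), ((n ! : ℝ) * law n t σ - 1) ^ 2) *
        ((n ! : ℝ)⁻¹ * ∑ σ : Perm (Fin n), ff σ ^ 2) := by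
    have h5 := mul_le_mul_of_nonneg_left h3 (by positivity : 0 ≤ ((n ! : ℝ)⁻¹) ^ 2)
    calc _ = ((n ! : ℝ)⁻¹) ^ 2 * (∑ σ : Perm (Fin n), ((n ! : ℝ) * law n t σ - 1) * ff σ) ^ 2 := by
          ring
      _ ≤ _ := h5
      _ = _ := by ring
  have h5 : 0 ≤ (n ! : ℝ)⁻¹ * ∑ σ : Perm (Fin n), ((n ! : ℝ) * law n t σ - 1) ^ 2 :=
    mul_nonneg (by positivity) (Finset.sum_nonneg fun σ _ => sq_nonneg _)
  have h6 := mul_le_mul_of_nonneg_left (mean_ff_sq (n := n)) h5
  nlinarith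

theorem lower_aux {ε : ℝ} (hε : 0 < ε) : ∀ᶠ n : ℕ in atTop,
    6 ≤ ((n : ℝ) - 1) * (1 - 2 / (n : ℝ)) ^ ⌊(1 - ε) * (1 / 2 * (n * Real.log n))⌋₊ := by
  set e : ℝ := min ε 1 with he
  have he0 : 0 < e := lt_min hε one_pos
  have he1 : e ≤ 1 := min_le_right _ _
  have heε : e ≤ ε := min_le_left _ _
  have e1 : ∀ᶠ n : ℕ in atTop, 4 / e + 4 ≤ (n : ℝ) := tendsto_natCast'.eventually_ge_atTop _
  have e2 : ∀ᶠ n : ℕ in atTop, Real.log 12 / (e / 2) ≤ Real.log n :=
    tendsto_log_nat.eventually_ge_atTop _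
  filter_upwards [e1, e2, eventually_ge_atTop 4] with n h1 h2 h3
  have hn' : (4 : ℝ) ≤ n := by exact_mod_cast h3
  have hn0 : (0 : ℝ) < n := by linarith
  have hlog0 : 0 ≤ Real.log n := Real.log_natCast_nonneg n
  have hT : 0 ≤ 1 / 2 * (n * Real.log n) := by positivity
  set t := ⌊(1 - ε) * (1 / 2 * (n * Real.log n))⌋₊ with ht
  have ht' : (t : ℝ) ≤ (1 - e) * (1 / 2 * (n * Real.log n)) := by
    rcases le_total ε 1 with h | h
    · have h4 : (t : ℝ) ≤ (1 - ε) * (1 / 2 * (n * Real.log n)) :=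
        Nat.floor_le (mul_nonneg (by linarith) hT)
      have h5 : e = ε := min_eq_left h
      rw [h5]; exact h4
    · have h4 : t = 0 := by
        rw [ht]
        exact Nat.floor_of_nonpos (mul_nonpos_of_nonpos_of_nonneg (by linarith) hT)
      rw [h4]
      push_cast
      exact mul_nonneg (by linarith) hT
  have hx0 : 0 < 1 - 2 / (n : ℝ) := by
    rw [sub_pos, div_lt_one hn0]; linarith
  have h4 := Real.one_sub_inv_le_log_of_pos hx0
  have h5 : 1 - (1 - 2 / (n : ℝ))⁻¹ = -(2 / (n - 2)) := by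
    have : (n : ℝ) - 2 ≠ 0 := by linarith
    field_simp
    ring
  rw [h5] at h4
  have h6 : (1 - 2 / (n : ℝ)) ^ t = Real.exp (t * Real.log (1 - 2 / (n : ℝ))) := by
    rw [Real.exp_nat_mul, Real.exp_log hx0]
  have h7 : -((1 - e / 2) * Real.log n) ≤ t * Real.log (1 - 2 / (n : ℝ)) := by
    have h8 : (t : ℝ) * (-(2 / ((n : ℝ) - 2))) ≤ t * Real.log (1 - 2 / (n : ℝ)) :=
      mul_le_mul_of_nonneg_left h4 (by positivity)
    refine le_trans ?_ h8
    have h9 : (t : ℝ) * (2 / ((n : ℝ) - 2)) ≤ (1 - e / 2) * Real.log n := by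
      have hn2 : 0 < (n : ℝ) - 2 := by linarith
      rw [mul_div_assoc', div_le_iff₀ hn2]
      have h10 : 4 + 4 * e ≤ e * n := by
        have := mul_le_mul_of_nonneg_left h1 he0.le
        have h11 : e * (4 / e + 4) = 4 + 4 * e := by field_simp
        linarith
      have h11 : (t : ℝ) * 2 ≤ (1 - e) * n * Real.log n := by
        have := mul_le_mul_of_nonneg_right ht' (by norm_num : (0 : ℝ) ≤ 2)
        calc (t : ℝ) * 2 ≤ _ := this
          _ = _ := by ring
      have h12 : (1 - e) * n ≤ (1 - e / 2) * (n - 2) := by nlinarith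
      calc (t : ℝ) * 2 ≤ (1 - e) * n * Real.log n := h11
        _ ≤ (1 - e / 2) * (n - 2) * Real.log n := mul_le_mul_of_nonneg_right h12 hlog0
        _ = _ := by ring
    linarith
  have h8 : Real.exp (-((1 - e / 2) * Real.log n)) ≤ (1 - 2 / (n : ℝ)) ^ t := by
    rw [h6, Real.exp_le_exp]; exact h7
  have h9 : (n : ℝ) / 2 ≤ n - 1 := by linarith
  have h10 : Real.log 12 ≤ e / 2 * Real.log n := by
    rw [div_le_iff₀ (by positivity)] at h2; linarith
  have h11 : 12 ≤ (n : ℝ) * Real.exp (-((1 - e / 2) * Real.log n)) := by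
    calc (12 : ℝ) = Real.exp (Real.log 12) := (Real.exp_log (by norm_num)).symm
      _ ≤ Real.exp (e / 2 * Real.log n) := Real.exp_le_exp.mpr h10
      _ = Real.exp (Real.log n) * Real.exp (-((1 - e / 2) * Real.log n)) := by
          rw [← Real.exp_add]; congr 1; ring
      _ = _ := by rw [Real.exp_log hn0]
  have h12 : 0 < Real.exp (-((1 - e / 2) * Real.log n)) := Real.exp_pos _
  calc (6 : ℝ) ≤ (n : ℝ) / 2 * Real.exp (-((1 - e / 2) * Real.log n)) := by linarith
    _ ≤ (n - 1) * (1 - 2 / (n : ℝ)) ^ t := by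
        apply mul_le_mul h9 h8 h12.le (by linarith)

theorem lower {p ε : ℝ} (hp : 2 ≤ p) (hε : 0 < ε) : ∀ᶠ n : ℕ in atTop,
    1 ≤ (mom p n ⌊(1 - ε) * (1 / 2 * (n * Real.log n))⌋₊) ^ (1 / p) := by
  filter_upwards [lower_aux hε, eventually_ge_atTop 1] with n h1 h2
  have h3 := mom_two_ge h2 _ h1
  have h4 := mom_mono (by norm_num : (0 : ℝ) < 2) hp n ⌊(1 - ε) * (1 / 2 * (n * Real.log n))⌋₊
  have h5 := Real.one_le_rpow h3 (by linarith : 0 ≤ p / 2)
  exact Real.one_le_rpow (h5.trans h4) (by positivity)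

end

end RT

noncomputable section

open RT

/-! ### The result -/

theorem walkLaw_eq {n : ℕ} (t : ℕ) (σ : Perm (Fin n)) : walkLaw n t σ = law n t σ := by
  induction t generalizing σ with
  | zero => rfl
  | succ t ih =>
    show ∑ τ, walkLaw n t τ * stepProb n τ σ = _
    simp_rw [ih]
    rw [law_succ]
    have h1 : ∀ τ : Perm (Fin n), law n t τ * stepProb n τ σ =
        (∑ ij : Fin n × Fin n, if τ = swap ij.1 ij.2 * σ then law n t τ else 0) / (n : ℝ) ^ 2 := by
      intro τ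
      unfold stepProb
      rw [mul_div_assoc', Finset.card_filter]
      congr 1
      push_cast
      rw [Finset.mul_sum]
      refine Finset.sum_congr rfl fun ij _ => ?_
      have h2 : swap ij.1 ij.2 * τ = σ ↔ τ = swap ij.1 ij.2 * σ := by
        constructor
        · intro h; rw [← h, ← mul_assoc, swap_mul_self, one_mul]
        · intro h; rw [h, ← mul_assoc, swap_mul_self, one_mul]
      by_cases h : τ = swap ij.1 ij.2 * σ
      · rw [if_pos h, if_pos (h2.mpr h), mul_one]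
      · rw [if_neg h, if_neg (fun h' => h (h2.mp h')), mul_zero]
    simp_rw [h1]
    rw [← Finset.sum_div]
    congr 1
    rw [Finset.sum_comm, Fintype.sum_prod_type]
    refine Finset.sum_congr rfl fun i _ => Finset.sum_congr rfl fun j _ => ?_
    rw [Finset.sum_ite_eq' univ (swap i j * σ)]
    simp

/-- The law of the walk is a probability distribution. -/
theorem walkLaw_sum {n : ℕ} (hn : 0 < n) (t : ℕ) : ∑ σ : Perm (Fin n), walkLaw n t σ = 1 := by
  simp_rw [walkLaw_eq]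
  induction t with
  | zero =>
    show ∑ σ : Perm (Fin n), (if σ = 1 then (1 : ℝ) else 0) = 1
    rw [Finset.sum_ite_eq' univ (1 : Perm (Fin n))]
    simp
  | succ t ih =>
    simp_rw [law_succ']
    rw [Finset.sum_comm]
    have h : ∀ ij : Fin n × Fin n, ∑ σ : Perm (Fin n),
        ((n : ℝ) ^ 2)⁻¹ * law n t (swap ij.1 ij.2 * σ) = ((n : ℝ) ^ 2)⁻¹ * 1 := by
      intro ij
      rw [← Finset.mul_sum, ← ih]
      congr 1
      exact Equiv.sum_comp (Equiv.mulLeft (swap ij.1 ij.2)) fun σ => law n t σ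
    simp_rw [h]
    exact sum_mean_swap hn 1

theorem dp_eq (p : ℝ) (n t : ℕ) : dp p n t = (mom p n t) ^ (1 / p) := by
  unfold dp mom density
  simp_rw [walkLaw_eq]
  congr 2
  · rw [one_div]
  · refine Finset.sum_congr rfl fun σ _ => ?_
    congr 2
    rw [div_div_eq_mul_div, div_one, mul_comm]

/-- For every real `p > 2` the random transposition walk has an `ℓ^p` cutoff at time
`(1/2) n log n`. -/
theorem result : ∀ p : ℝ, 2 < p → HasLpCutoff p (fun n : ℕ => 1 / 2 * (n * Real.log n)) := by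
  intro p hp
  refine ⟨?_, fun ε hε => ⟨?_, ?_⟩⟩
  · exact (tendsto_natCast'.atTop_mul_atTop₀ tendsto_log_nat).const_mul_atTop (by norm_num)
  · simp_rw [dp_eq]
    exact upper (by linarith) hε
  · have h1 : (1 : ENNReal) ≤ liminf (fun n : ℕ => ENNReal.ofReal
        (dp p n ⌊(1 - ε) * (1 / 2 * (n * Real.log n))⌋₊)) atTop := by
      refine le_liminf_of_le (by isBoundedDefault) ?_
      filter_upwards [lower hp.le hε] with n hn
      rw [dp_eq]
      exact ENNReal.one_le_ofReal.mpr hn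
    exact lt_of_lt_of_le one_pos h1

end

end Pool.Agent.Results.MP_c0051b_pr.TranspositionLpCutoff
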